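import Pool.Agent.P.MP_e7d440_ag.Defs

/-! Pseudo-rational local rings. -/

namespace Pool.Agent.P.MP_e7d440_ag.G

/-- Pseudo-rationality in the sense of Lipman and Teissier: a Noetherian normal local domain that
is Cohen-Macaulay (it has a regular sequence whose length is its dimension), analytically
unramified (its completion is reduced) and satisfies the injectivity condition `LTInj`. -/
def PseudoRational (B : Type) [CommRing B] [IsLocalRing B] : Prop :=
  IsNoetherianRing B ∧ IsDomain B ∧ IsIntegrallyClosed B ∧
    (∃ l : List B, RingTheory.Sequence.IsRegular B l ∧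
      (l.length : WithBot ℕ∞) = ringKrullDim B) ∧
    IsReduced (AdicCompletion (IsLocalRing.maximalIdeal B) B) ∧ LTInj B

end Pool.Agent.P.MP_e7d440_ag.G
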