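import Pool.Agent.P.MP_e7d440_ag.G.IfaceC
import Pool.Agent.P.MP_e7d440_ag.G.PR
import Pool.Agent.P.MP_e7d440_ag.Old.GLn
import Pool.Agent.P.MP_e7d440_ag.Au.AU

/-! The final assembly. -/

namespace Pool.Agent.P.MP_e7d440_ag.G

theorem lt_of_eq {O : Type} [CommRing O] [IsDomain O] [IsDiscreteValuationRing O] [CharZero O]
    (π : O) (hπ : Irreducible π) (r m : ℕ) (I : Finset (Fin (r + m))) (hI : I.Nonempty)
    (J : Fin (r + m) → Fin r → Fin (r + m)) (hJ : ∀ i ∈ I, Function.Injective (J i))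
    (S : Subalgebra O (FF O r m)) (hS : nchart π I J = S) (𝔭 : Ideal S) [𝔭.IsPrime] :
    LTInj (Localization.AtPrime 𝔭) := by
  subst hS
  exact (Old.GLn.result O π hπ r m I hI J hJ 𝔭).2.2.2

theorem final (hBRG : S_BRG) (hCHA : S_CHA) (hCHC : S_CHC)
    (O : Type) [CommRing O] [IsDomain O] [IsDiscreteValuationRing O] [CharZero O]
    (π : O) (hπ : Irreducible π) (r m : ℕ) (I : Finset (Fin (r + m))) (hI : I.Nonempty)
    (J : Fin (r + m) → Fin r → Fin (r + m)) (hJ : ∀ i ∈ I, Function.Injective (J i))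
    (𝔭 : Ideal (chart π I J)) [𝔭.IsPrime] :
    PseudoRational (Localization.AtPrime 𝔭) := by
  obtain ⟨hft, hfr, y, hy⟩ := hCHA O π r m I J hπ.ne_zero hI hJ
  have hg := hCHC O π r m I J hπ.ne_zero hI hJ
  have hN : IsNoetherianRing (chart π I J) := Algebra.FiniteType.isNoetherianRing O _
  have hic : IsIntegrallyClosed (chart π I J) :=
    IsIntegrallyClosed.of_localization_maximal fun 𝔪 _ h𝔪 => (hg 𝔪 h𝔪.isPrime).1
  have hS : nchart π I J = chart π I J := by
    refine le_antisymm (fun t ht => ?_) fun t ht => ?_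
    · obtain ⟨c, rfl⟩ := (isIntegrallyClosed_iff (FF O r m)).mp hic ht
      exact c.2
    · exact (isIntegral_algebraMap (R := chart π I J) (A := FF O r m) (x := ⟨t, ht⟩) :)
  have hp := hg 𝔭 inferInstance
  refine ⟨inferInstance, inferInstance, hp.1, hBRG _ hp.2, ?_,
    lt_of_eq π hπ r m I hI J hJ _ hS 𝔭⟩
  have : Algebra.EssFiniteType O (Localization.AtPrime 𝔭) :=
    have := Algebra.EssFiniteType.of_isLocalization (Localization.AtPrime 𝔭) 𝔭.primeCompl
    Algebra.EssFiniteType.comp O (chart π I J) _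
  refine AU.reduced (O := O) (Localization.AtPrime 𝔭) ?_ _ _
  rw [IsScalarTower.algebraMap_eq O (chart π I J) (Localization.AtPrime 𝔭), RingHom.coe_comp]
  exact (IsLocalization.injective (Localization.AtPrime 𝔭)
    𝔭.primeCompl_le_nonZeroDivisors).comp hy.algebraMap_injective

end Pool.Agent.P.MP_e7d440_ag.G
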