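import Pool.Agent.P.MP_e7d440_ag.G.IfaceB

/-! Step ASC. -/

set_option autoImplicit false
set_option linter.unusedSectionVars false

namespace Pool.Agent.P.MP_e7d440_ag.G

open Matrix

theorem p_ASC (hBOR : S_BOR) :
    S_ASC := by
  rintro n K _ i j w p y hij hw hp h0 ⟨b, b', hb, hb', rfl⟩
  have hlt : i < j := by rw [Fin.lt_def]; omega
  obtain ⟨hp', e⟩ := hBOR.psR hij hb hp
  have h1 : (p * b) i j ≠ 0 := e ▸ mul_ne_zero h0 (hBOR.diag hb j)
  rw [← Matrix.mul_assoc, ← Matrix.mul_assoc]
  generalize p * b = q at hp' h1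
  obtain ⟨c, hc⟩ : ∃ c, c = q i i / q i j := ⟨_, rfl⟩
  have hB : Bor (q * transvection j i (-c) * (Equiv.swap i j).permMatrix K) := by
    refine hBOR.psBor (hBOR.psMul hij (hBOR.psMul hij hp' (hBOR.borPs (hBOR.tv _ hlt)))
      (hBOR.psSwap hij)) ?_
    rw [PEquiv.mul_toMatrix_toPEquiv, submatrix_apply, Equiv.symm_swap, Equiv.swap_apply_right, id,
      mul_transvection_apply_same, hc]
    field_simp
    ring
  have hT : transvection j i c * w.permMatrix K = w.permMatrix K * transvection (w j) (w i) c := by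
    rw [PEquiv.mul_toMatrix_toPEquiv, PEquiv.toMatrix_toPEquiv_mul]
    ext a d
    obtain ⟨d, rfl⟩ := w.surjective d
    simp [transvection, one_apply, single_apply]
  have hs : (Equiv.swap i j).permMatrix K * (Equiv.swap i j).permMatrix K = 1 := by
    rw [← permMatrix_mul, Equiv.swap_mul_self, permMatrix_one]
  refine ⟨_, _, hB, hBOR.mul (hBOR.tv c hw) hb', ?_⟩
  rw [permMatrix_mul, ← Matrix.mul_assoc, ← Matrix.mul_assoc, Matrix.mul_assoc _ _ (transvection _ _ c),
    ← hT, Matrix.mul_assoc (q * _), hs, Matrix.mul_one, ← Matrix.mul_assoc,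
    Matrix.mul_assoc q (transvection j i (-c)),
    transvection_mul_transvection_same _ _ hlt.ne', neg_add_cancel, transvection_zero, Matrix.mul_one]

end Pool.Agent.P.MP_e7d440_ag.G
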