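import Pool.Agent.P.MP_e7d440_ag.G.IfaceA

/-! Step BIR. -/

set_option autoImplicit false
set_option linter.unusedSectionVars false

namespace Pool.Agent.P.MP_e7d440_ag.G

open IsLocalRing Polynomial

namespace BIRx

theorem coeff0 {Q : Type} [CommRing Q] (φ : Q →+* Q[X]) (σ : Q[X] ≃+* Q[X])
    (h0 : ∀ f, (φ f).coeff 0 = f) (hX : σ X = X) (hC : ∀ f, σ (C f) = φ f) (g : Q[X]) :
    (σ g).coeff 0 = g.coeff 0 := by
  conv_lhs => rw [← X_mul_divX_add g]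
  rw [map_add, map_mul, hX, hC, coeff_add, h0, mul_coeff_zero, coeff_X_zero, zero_mul, zero_add]

theorem tr {Q : Type} [CommRing Q] (hISO : S_ISO) (σ : Q[X] ≃+* Q[X]) (𝔭' 𝔮' : Ideal Q[X])
    (hq : 𝔮'.IsPrime) (hle : 𝔭' ≤ 𝔮') :
    GoodQ (𝔭'.comap (σ : Q[X] →+* Q[X])) (𝔮'.comap (σ : Q[X] →+* Q[X])) ↔ GoodQ 𝔭' 𝔮' := by
  refine hISO.qq (σ : Q[X] →+* Q[X]) 𝔭' 𝔮' hq hle fun y => ⟨1, σ.symm y, ?_, ?_⟩
  · rw [map_one]
    exact fun h => hq.ne_top ((Ideal.eq_top_iff_one _).2 h)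
  · simp

end BIRx

theorem p_BIR (hISO : S_ISO) (hUDQ : S_UDQ) (hPQ : S_PQ) :
    S_BIR := by
  intro Q _ _ φ 𝔭 𝔮 c d hφ hp hq hpq hc hcd hne hG hind
  obtain ⟨h0, σ, hX, hC⟩ := id hφ
  have hpC : (𝔭.map (C : Q →+* Q[X])).IsPrime := Ideal.isPrime_map_C_of_isPrime
  have hqC : (𝔮.map (C : Q →+* Q[X])).IsPrime := Ideal.isPrime_map_C_of_isPrime
  have hle : 𝔭.map (C : Q →+* Q[X]) ≤ 𝔮.map (C : Q →+* Q[X]) := Ideal.map_mono hpq
  have key : ∀ 𝔞 : Ideal Q, ((𝔞.map (C : Q →+* Q[X])).comap (σ : Q[X] →+* Q[X])).comap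
      (C : Q →+* Q[X]) = mv φ 𝔞 := fun 𝔞 => by
    ext f
    rw [Ideal.mem_comap, Ideal.mem_comap, mem_mv, RingHom.coe_coe, hC]
  refine @S_UDQ.down hUDQ Q _ _ 𝔭 𝔮 hp hq hpq (@Iff.mp _ _ (BIRx.tr hISO σ _ _ hqC hle) ?_)
  refine @hPQ Q _ _ _ _ c d (Ideal.comap_isPrime _ _) (Ideal.comap_isPrime _ _)
    (Ideal.comap_mono hle) ?_ ?_ ?_ ?_ ?_
  · intro h
    apply hc
    rw [← key]
    exact h
  · rw [Ideal.mem_comap, RingHom.coe_coe, map_sub, map_mul, hX, hC, hC]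
    exact hcd
  · intro he
    apply hne
    refine le_antisymm (mv_le hφ 𝔮) fun f hf => ?_
    rw [key] at he
    have h1 : σ.symm (C f) ∈ (𝔮.map (C : Q →+* Q[X])).comap (σ : Q[X] →+* Q[X]) := by
      rw [Ideal.mem_comap, RingHom.coe_coe, RingEquiv.apply_symm_apply]
      exact Ideal.mem_map_of_mem _ hf
    rw [he] at h1
    have h2 := Ideal.mem_map_C_iff.mp h1 0
    rwa [← BIRx.coeff0 φ σ h0 hX hC, RingEquiv.apply_symm_apply, coeff_C_zero] at h2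
  · rw [key, key]
    exact @hG
  · intro 𝔓 h𝔓 h1 h2
    have hP' : (𝔓.comap (σ.symm : Q[X] →+* Q[X])).IsPrime := Ideal.comap_isPrime _ _
    have back : (𝔓.comap (σ.symm : Q[X] →+* Q[X])).comap (σ : Q[X] →+* Q[X]) = 𝔓 := by
      ext g
      rw [Ideal.mem_comap, Ideal.mem_comap, RingHom.coe_coe, RingHom.coe_coe,
        RingEquiv.symm_apply_apply]
    have a1 : 𝔭.map (C : Q →+* Q[X]) ≤ 𝔓.comap (σ.symm : Q[X] →+* Q[X]) := fun g hg => by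
      rw [Ideal.mem_comap, RingHom.coe_coe]
      apply h1
      rw [Ideal.mem_comap, RingHom.coe_coe, RingEquiv.apply_symm_apply]
      exact hg
    have a2 : 𝔓.comap (σ.symm : Q[X] →+* Q[X]) ≤ 𝔮.map (C : Q →+* Q[X]) := fun g hg => by
      rw [Ideal.mem_comap, RingHom.coe_coe] at hg
      have := h2.le hg
      rwa [Ideal.mem_comap, RingHom.coe_coe, RingEquiv.apply_symm_apply] at this
    have a3 : 𝔭 ≤ (𝔓.comap (σ.symm : Q[X] →+* Q[X])).comap (C : Q →+* Q[X]) :=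
      Ideal.map_le_iff_le_comap.1 a1
    have a4 : (𝔓.comap (σ.symm : Q[X] →+* Q[X])).comap (C : Q →+* Q[X]) < 𝔮 := by
      refine lt_of_le_of_ne (fun f hf => ?_) fun he => ?_
      · have := Ideal.mem_map_C_iff.mp (a2 hf) 0
        rwa [coeff_C_zero] at this
      · have b1 : 𝔮.map (C : Q →+* Q[X]) ≤ 𝔓.comap (σ.symm : Q[X] →+* Q[X]) :=
          Ideal.map_le_iff_le_comap.2 he.ge
        have b2 := Ideal.comap_mono (f := (σ : Q[X] →+* Q[X])) b1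
        rw [back] at b2
        exact absurd b2 (not_le_of_gt h2)
    have a5 := @S_UDQ.up hUDQ Q _ _ 𝔭 _ hp hP' a1 (@hind _ (Ideal.comap_isPrime _ _) a3 a4)
    have a6 := @Iff.mpr _ _ (BIRx.tr hISO σ _ _ hP' a1) (@a5)
    rw [back] at a6
    exact @a6

end Pool.Agent.P.MP_e7d440_ag.G
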