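import Pool.Agent.P.MP_e7d440_ag.G.IfaceB

/-! Step BOR. -/

set_option autoImplicit false
set_option linter.unusedSectionVars false

namespace Pool.Agent.P.MP_e7d440_ag.G

open Matrix

namespace BORx

variable {n : ℕ} {K : Type} [Field K]

theorem dmul {a b : Mat n K} (ha : a.det ≠ 0) (hb : b.det ≠ 0) : (a * b).det ≠ 0 := by
  rw [det_mul]; exact mul_ne_zero ha hb

theorem tri {b : Mat n K} (h : Bor b) : b.BlockTriangular OrderDual.toDual :=
  fun i j hij => h.2 i j hij

theorem one : Bor (1 : Mat n K) :=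
  ⟨by simp, fun i j h => one_apply_ne h.ne⟩

theorem mul {b b' : Mat n K} (h : Bor b) (h' : Bor b') : Bor (b * b') :=
  ⟨dmul h.1 h'.1, fun _ _ hij => (tri h).mul (tri h') hij⟩

theorem inv {b : Mat n K} (h : Bor b) : ∃ b', Bor b' ∧ b' * b = 1 ∧ b * b' = 1 := by
  have hu : IsUnit b.det := h.1.isUnit
  let _ := invertibleOfIsUnitDet b hu
  refine ⟨b⁻¹, ⟨?_, fun i j hij => blockTriangular_inv_of_blockTriangular (tri h) hij⟩,
    nonsing_inv_mul b hu, mul_nonsing_inv b hu⟩
  exact (isUnit_nonsing_inv_det b hu).ne_zero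

theorem diag {b : Mat n K} (h : Bor b) (i : Fin n) : b i i ≠ 0 := by
  have h1 := h.1
  rw [det_of_isLowerTriangular b (tri h)] at h1
  exact Finset.prod_ne_zero_iff.1 h1 i (Finset.mem_univ i)

theorem tvz {i j k l : Fin n} (c : K) (h1 : k ≠ l) (h2 : ¬ (k = i ∧ l = j)) :
    (transvection i j c : Mat n K) k l = 0 := by
  rw [transvection, Matrix.add_apply, one_apply_ne h1, zero_add, single_apply_of_ne]
  rintro ⟨rfl, rfl⟩
  exact h2 ⟨rfl, rfl⟩

theorem psMul {i j : Fin n} {p p' : Mat n K} (hij : j.val = i.val + 1) (h : Ps i j p)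
    (h' : Ps i j p') : Ps i j (p * p') := by
  refine ⟨dmul h.1 h'.1, fun k l hkl hne => ?_⟩
  rw [mul_apply]
  refine Finset.sum_eq_zero fun m _ => ?_
  by_cases h1 : k < m ∧ ¬ (k = i ∧ m = j)
  · rw [h.2 k m h1.1 h1.2, zero_mul]
  · rw [h'.2 m l ?_ ?_, mul_zero]
    · simp only [Fin.lt_def, Fin.ext_iff] at *
      omega
    · simp only [Fin.lt_def, Fin.ext_iff] at *
      omega

theorem borPs {i j : Fin n} {p : Mat n K} (h : Bor p) : Ps i j p :=
  ⟨h.1, fun k l hkl _ => h.2 k l hkl⟩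

theorem pdet (w : Equiv.Perm (Fin n)) : (w.permMatrix K : Mat n K).det ≠ 0 := by
  rw [det_permutation]
  rcases Int.units_eq_one_or (Equiv.Perm.sign w) with h | h <;> simp [h]

end BORx

open BORx in
theorem p_BOR :
    S_BOR where
  one := BORx.one
  mul := BORx.mul
  inv := BORx.inv
  diag := BORx.diag
  ofDiag := fun d hd => ⟨by
    rw [det_diagonal]; exact Finset.prod_ne_zero_iff.2 fun i _ => hd i,
    fun i j h => diagonal_apply_ne d h.ne⟩
  tv := fun {n K _ i j} c h => ⟨by rw [det_transvection_of_ne i j h.ne']; exact one_ne_zero,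
    fun k l hkl => tvz c hkl.ne (by rintro ⟨rfl, rfl⟩; exact lt_asymm h hkl)⟩
  psL := fun {n K _ i j b p} hij hb hp => ⟨psMul hij (borPs hb) hp, by
    rw [mul_apply]
    refine Finset.sum_eq_single i (fun m _ hm => ?_) (by simp)
    by_cases h1 : i < m
    · rw [hb.2 i m h1, zero_mul]
    · rw [hp.2 m j ?_ fun h => hm h.1, mul_zero]
      simp only [Fin.lt_def] at *
      omega⟩
  psR := fun {n K _ i j b p} hij hb hp => ⟨psMul hij hp (borPs hb), by
    rw [mul_apply]
    refine Finset.sum_eq_single j (fun m _ hm => ?_) (by simp)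
    by_cases h1 : m < j
    · rw [hb.2 m j h1, mul_zero]
    · rw [hp.2 i m ?_ fun h => hm h.2, zero_mul]
      simp only [Fin.lt_def, Fin.ext_iff, ne_eq] at *
      omega⟩
  psMul := psMul
  psTv := fun {n K _ i j} c h => ⟨by rw [det_transvection_of_ne i j h]; exact one_ne_zero,
    fun k l hkl hne => tvz c hkl.ne hne⟩
  psSwap := fun {n K _ i j} hij => ⟨pdet _, fun k l hkl hne => by
    have : Equiv.swap i j k ≠ l := by
      rw [Equiv.swap_apply_def]
      split_ifs <;> simp only [Fin.lt_def, Fin.ext_iff, ne_eq] at * <;> omega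
    simp [PEquiv.toMatrix_apply, Equiv.toPEquiv_apply, this]⟩
  psBor := fun {n K _ i j p} hp h0 => ⟨hp.1, fun k l hkl => by
    by_cases h : k = i ∧ l = j
    · rw [h.1, h.2, h0]
    · exact hp.2 k l hkl h⟩
  borPs := borPs
  cell := fun w => by
    rintro x ⟨b, b', hb, hb', rfl⟩
    refine ⟨dmul (dmul hb.1 (pdet w)) hb'.1, fun c hc => ⟨⟨c * b, b', mul hc hb, hb', ?_⟩,
      ⟨b, b' * c, hb, mul hb' hc, ?_⟩⟩⟩ <;> simp only [Matrix.mul_assoc]
  perm := fun w => ⟨1, 1, BORx.one, BORx.one, by simp⟩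
  sub := fun {n K _ S w x} hS hx hw => by
    obtain ⟨b, b', hb, hb', rfl⟩ := hw
    rintro y ⟨c, c', hc, hc', rfl⟩
    obtain ⟨a, ha, ha1, -⟩ := inv hb
    obtain ⟨a', ha', -, ha2⟩ := inv hb'
    have h1 := ((hS _ hx).2 (c * a) (mul hc ha)).1
    have h2 := ((hS _ h1).2 (a' * c') (mul ha' hc')).2
    have e : c * a * (b * w.permMatrix K * b') * (a' * c') = c * w.permMatrix K * c' := by
      calc c * a * (b * w.permMatrix K * b') * (a' * c')
          = c * (a * b) * w.permMatrix K * (b' * a') * c' := by simp only [Matrix.mul_assoc]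
        _ = _ := by rw [ha1, ha2, Matrix.mul_one, Matrix.mul_one]
    rwa [e] at h2
  pat := fun T => by
    rintro x ⟨h1, h2⟩
    refine ⟨h1, fun b hb => ⟨⟨dmul hb.1 h1, ?_⟩, ⟨dmul h1 hb.1, ?_⟩⟩⟩
    · rintro k j ⟨s, hs, s1, s2⟩
      rw [mul_apply]
      refine Finset.sum_eq_zero fun m _ => ?_
      by_cases h : k < m
      · rw [hb.2 k m h, zero_mul]
      · rw [h2 m j ⟨s, hs, by simp only [Fin.lt_def] at h; omega, s2⟩, mul_zero]
    · rintro k j ⟨s, hs, s1, s2⟩
      rw [mul_apply]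
      refine Finset.sum_eq_zero fun m _ => ?_
      by_cases h : m < j
      · rw [hb.2 m j h, mul_zero]
      · rw [h2 k m ⟨s, hs, s1, by simp only [Fin.lt_def] at h; omega⟩, zero_mul]

end Pool.Agent.P.MP_e7d440_ag.G
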