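import Pool.Agent.P.MP_e7d440_ag.G.IfaceA

/-! Step BRG. -/

set_option autoImplicit false
set_option linter.unusedSectionVars false

namespace Pool.Agent.P.MP_e7d440_ag.G

open IsLocalRing Polynomial

theorem p_BRG :
    S_BRG := by
  intro B _ _ _ ⟨l, hm, hr, hd⟩
  refine ⟨l, ⟨?_, ?_⟩, le_antisymm ?_ hd⟩
  · rw [RingTheory.Sequence.isWeaklyRegular_iff]
    intro i hi
    have h1 : RegSeq ⊥ (l.take i ++ l.drop i) := by rwa [List.take_append_drop]
    have h2 := ((basic.regAppend ⊥ _ _).mp h1).2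
    rw [List.drop_eq_getElem_cons hi, bot_sup_eq] at h2
    have h3 := h2.1
    rw [isSMulRegular_iff_right_eq_zero_of_smul]
    intro x hx
    obtain ⟨g, rfl⟩ := Submodule.Quotient.mk_surjective _ x
    rw [← Submodule.Quotient.mk_smul, Submodule.Quotient.mk_eq_zero, Ideal.smul_eq_mul,
      Ideal.mul_top] at hx
    rw [Submodule.Quotient.mk_eq_zero, Ideal.smul_eq_mul, Ideal.mul_top]
    exact h3 g hx
  · rw [Ideal.smul_eq_mul, Ideal.mul_top]
    intro h
    have : Ideal.ofList l ≤ maximalIdeal B := Ideal.span_le.mpr hm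
    rw [← h] at this
    exact (maximalIdeal.isMaximal B).ne_top (top_le_iff.mp this)
  · obtain ⟨P, hP, -⟩ := basic.assMem (𝔞 := (⊥ : Ideal B)) (g := 1) (by simp)
    exact (dp.leDim hm hr hP).trans (ringKrullDim_quotient_le P)

end Pool.Agent.P.MP_e7d440_ag.G
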