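import Pool.Agent.P.MP_e7d440_ag.G.IfaceB

/-! Step BRU. -/

set_option autoImplicit false
set_option linter.unusedSectionVars false

namespace Pool.Agent.P.MP_e7d440_ag.G

open Matrix

theorem p_BRU (hBOR : S_BOR) (hGEN : S_GEN) (hASC : S_ASC) :
    S_BRU := by
  intro n K _ g hg
  obtain ⟨d, e, hd, he, rfl⟩ := (hGEN n K g hg).2
  have asc : ∀ (i j : Fin n) (w : Equiv.Perm (Fin n)) (p y : Mat n K), j.val = i.val + 1 →
      w i < w j → Ps i j p → y ∈ Cell K w → ∃ w', p * y ∈ Cell K w' := by
    intro i j w p y h hw hp hy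
    by_cases c : p i j = 0
    · exact ⟨w, ((hBOR.cell w y hy).2 p (hBOR.psBor hp c)).1⟩
    · exact ⟨_, hASC n K i j w p y h hw hp c hy⟩
  have key : ∀ x : Mat n K, (∃ w, x ∈ Cell K w) → ∃ w, e * x ∈ Cell K w := by
    clear hg
    induction he using Submonoid.closure_induction with
    | mem t ht =>
      obtain ⟨i, j, c, hij, rfl⟩ := ht
      rintro x ⟨w, hx⟩
      have hne := hij.ne
      rcases hij with h | h
      · exact ⟨w, ((hBOR.cell w x hx).2 _ (hBOR.tv c h)).1⟩
      rcases lt_or_gt_of_ne (w.injective.ne hne) with a | a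
      · exact asc i j w _ x h a (hBOR.psTv c hne) hx
      · obtain ⟨b, b', hb, hb', rfl⟩ := hx
        have e1 : w.permMatrix K = (Equiv.swap i j).permMatrix K *
            (w * Equiv.swap i j).permMatrix K := by
          rw [← permMatrix_mul, mul_assoc, Equiv.swap_mul_self, mul_one]
        have := asc i j (w * Equiv.swap i j) _ _ h (by simpa using a)
          (hBOR.psMul h (hBOR.psTv c hne) (hBOR.psL h hb (hBOR.psSwap h)).1)
          ((hBOR.cell _ _ (hBOR.perm _)).2 b' hb').2
        rw [e1]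
        simpa only [mul_assoc] using this
    | one => intro x hx; rwa [one_mul]
    | mul a b _ _ ha hb => intro x hx; rw [mul_assoc]; exact ha _ (hb x hx)
  exact key _ ⟨1, _, 1, hBOR.ofDiag d hd, hBOR.one, by simp⟩

end Pool.Agent.P.MP_e7d440_ag.G
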