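import Pool.Agent.P.MP_e7d440_ag.G.IfaceC

/-! Step CHB. -/

set_option autoImplicit false
set_option linter.unusedSectionVars false

namespace Pool.Agent.P.MP_e7d440_ag.G

open Matrix

theorem p_CHB :
    S_CHB := by
  classical
  intro O _ _ π r m I J hπ hJ
  let G : Fin (r + m) → Matrix (Fin r) (Fin (r + m)) (FF O r m) := fun i =>
    genMat O r m * dd (r + m) (algebraMap O (FF O r m) π) 1 i.val
  have hG : ∀ i c, plk π i c = mnr (G i) c := fun i c => by
    unfold plk mnr
    congr 1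
    ext a k
    simp only [G, of_apply, submatrix_apply, id, mul_dd_apply, Fin.lt_def]
  have hπ' : algebraMap O (FF O r m) π ≠ 0 := by
    rw [IsScalarTower.algebraMap_apply O (MvPolynomial (Fin r × Fin m) O) (FF O r m)]
    refine (map_ne_zero_iff _ (IsFractionRing.injective _ _)).2 ?_
    rwa [MvPolynomial.algebraMap_eq, Ne, MvPolynomial.C_eq_zero]
  let g : I → Matrix (Fin r) (Fin r) (FF O r m) := fun i => (G i).submatrix id (J i)
  have hgd : ∀ i : I, (g i).det = plk π i (J i) := fun i => (hG i (J i)).symm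
  have hg : ∀ i : I, (g i).det ≠ 0 := fun i => by
    rw [hgd, pls.plk_eq]
    exact mul_ne_zero (pow_ne_zero _ hπ') (pls.ne _ (hJ i i.2))
  have hu : ∀ i : I, IsUnit (g i).det := fun i => (hg i).isUnit
  let Ψ : I → Matrix (Fin r) (Fin (r + m)) (FF O r m) := fun i => (g i)⁻¹ * G i
  have h1 : ∀ i : I, (Ψ i).submatrix id (J i) = 1 := fun i => nonsing_inv_mul _ (hu i)
  have h2 : ∀ (i : I) c, mnr (Ψ i) c = plk π i c / plk π i (J i) := fun i c => by
    rw [PlA.mnr_mul, ← hG, ← hgd, det_nonsing_inv, Ring.inverse_eq_inv', div_eq_inv_mul]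
  have h3 : ∀ (i : I) a k, Ψ i a k ∈ chart π I J := fun i a k => by
    rw [← PlA.mnr_update _ _ (h1 i), h2]
    exact Algebra.subset_adjoin ⟨i, i.2, _, rfl⟩
  let Φ : I → Matrix (Fin r) (Fin (r + m)) (chart π I J) := fun i =>
    Matrix.of fun a k => ⟨Ψ i a k, h3 i a k⟩
  refine ⟨Φ, g, fun i => ⟨?_, hg i, ?_⟩, ?_⟩
  · ext a b
    have := congrFun (congrFun (h1 i) a) b
    rw [one_apply] at this ⊢
    split_ifs at this ⊢ <;> exact this
  · exact (mul_nonsing_inv_cancel_left _ _ (hu i)).symm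
  · set T := Algebra.adjoin O {t | ∃ i k j, t = Φ i k j} with hT
    have h4 : chart π I J ≤ T.map (chart π I J).val := by
      refine Algebra.adjoin_le ?_
      rintro _ ⟨i, hi, c, rfl⟩
      rw [← h2 ⟨i, hi⟩ c]
      exact det_mem (T.map (chart π I J).val).toSubring _ fun k j =>
        ⟨Φ ⟨i, hi⟩ k (c j), Algebra.subset_adjoin ⟨_, _, _, rfl⟩, rfl⟩
    refine top_le_iff.1 fun x _ => ?_
    obtain ⟨y, hy, e⟩ := h4 x.2
    rwa [← Subtype.ext e]

end Pool.Agent.P.MP_e7d440_ag.G
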