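import Pool.Agent.P.MP_e7d440_ag.G.IfaceC

/-! Step CHC. -/

set_option autoImplicit false
set_option linter.unusedSectionVars false

namespace Pool.Agent.P.MP_e7d440_ag.G

open Matrix

namespace CHCx

theorem step {C F : Type} [CommRing C] [Field F] (φ : C →+* F) (hφ : Function.Injective φ)
    {r n : ℕ} (G : Matrix (Fin r) (Fin n) F) (p : C) (i0 i : ℕ) (hi : i0 ≤ i)
    (Φ0 Φ : Matrix (Fin r) (Fin n) C) (g0 g : Matrix (Fin r) (Fin r) F) (J : Fin r → Fin n)
    (h1 : Φ.submatrix id J = 1) (hg0 : g0.det ≠ 0) (hg : g.det ≠ 0)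
    (e0 : G * dd n (φ p) 1 i0 = g0 * Φ0.map φ) (e1 : G * dd n (φ p) 1 i = g * Φ.map φ) :
    ∃ h : Matrix (Fin r) (Fin r) C,
      Φ0 * diagonal (fun k : Fin n => if i0 ≤ k.val ∧ k.val < i then p else 1) = h * Φ ∧
        h.det ≠ 0 := by
  set D : Matrix (Fin n) (Fin n) C :=
    diagonal (fun k : Fin n => if i0 ≤ k.val ∧ k.val < i then p else 1) with hD
  have a1 : dd n (φ p) 1 i = dd n (φ p) 1 i0 * D.map φ := by
    rw [hD, diagonal_map (map_zero φ), dd, dd, diagonal_mul_diagonal]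
    congr 1
    ext k
    by_cases c1 : k.val < i0
    · rw [if_pos c1, if_pos (by omega), if_neg (by omega), map_one, mul_one]
    · rw [if_neg c1, one_mul]
      by_cases c2 : k.val < i
      · rw [if_pos c2, if_pos ⟨by omega, c2⟩]
      · rw [if_neg c2, if_neg (by omega), map_one]
  have hu : IsUnit g0.det := isUnit_iff_ne_zero.mpr hg0
  have a2 : (Φ0 * D).map φ = (g0⁻¹ * g) * Φ.map φ := by
    rw [Matrix.mul_assoc, ← e1, a1, ← Matrix.mul_assoc G, e0, Matrix.map_mul,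
      Matrix.mul_assoc g0, ← Matrix.mul_assoc g0⁻¹, Matrix.nonsing_inv_mul _ hu, Matrix.one_mul]
  have a3 : ((Φ0 * D).submatrix id J).map φ = g0⁻¹ * g := by
    have b1 : ((Φ0 * D).submatrix id J).map φ = ((Φ0 * D).map φ).submatrix id J := rfl
    have b2 : ((g0⁻¹ * g) * Φ.map φ).submatrix id J =
        (g0⁻¹ * g) * (Φ.submatrix id J).map φ := rfl
    rw [b1, a2, b2, h1, Matrix.map_one _ (map_zero φ) (map_one φ), Matrix.mul_one]
  refine ⟨(Φ0 * D).submatrix id J, ?_, ?_⟩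
  · apply Matrix.map_injective hφ
    change (Φ0 * D).map φ = ((Φ0 * D).submatrix id J * Φ).map φ
    rw [Matrix.map_mul (L := (Φ0 * D).submatrix id J), a3, a2]
  · intro h0
    have b1 := RingHom.map_det φ ((Φ0 * D).submatrix id J)
    rw [h0, map_zero, RingHom.mapMatrix_apply, a3, det_mul, det_nonsing_inv,
      Ring.inverse_eq_inv] at b1
    exact mul_ne_zero (inv_ne_zero hg0) hg b1.symm

theorem shift {n : ℕ} (i0 : Fin n) : ∃ e : Fin n ≃ Fin n, ∀ (k : Fin n) (i : ℕ), i ≤ n →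
    ((i0.val ≤ (e k).val ∧ (e k).val < i) ↔ k.val < i - i0.val) := by
  have : NeZero n := ⟨by have := i0.2; omega⟩
  refine ⟨Equiv.addRight i0, fun k i hi => ?_⟩
  rw [Equiv.coe_addRight, Fin.val_add]
  have h1 := k.2
  have h2 := i0.2
  by_cases c : k.val + i0.val < n
  · rw [Nat.mod_eq_of_lt c]
    omega
  · rw [Nat.mod_eq_sub_mod (by omega), Nat.mod_eq_of_lt (by omega)]
    omega

end CHCx

theorem p_CHC (hTRF : S_TRF) (hCHA : S_CHA) (hCHB : S_CHB) :
    S_CHC := by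
  intro O _ _ _ _ π r m I J hπ hI hJ
  obtain ⟨hft, -, y, hy⟩ := hCHA O π r m I J hπ hI hJ
  obtain ⟨Φ, g, hΦ, hgen⟩ := hCHB O π r m I J hπ hJ
  have : IsNoetherianRing (chart π I J) := Algebra.FiniteType.isNoetherianRing O _
  let i0 : I := ⟨I.min' hI, I.min'_mem hI⟩
  have hmin : ∀ i : I, i0.val.val ≤ i.val.val := fun i => I.min'_le _ i.2
  obtain ⟨e, he⟩ := CHCx.shift i0.val
  have hs : ∀ i : I, ∃ h : Matrix (Fin r) (Fin r) (chart π I J),
      Φ i0 * diagonal (fun k : Fin (r + m) => if i0.val.val ≤ k.val ∧ k.val < i.val.val then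
        algebraMap O (chart π I J) π else 1) = h * Φ i ∧ h.det ≠ 0 := fun i =>
    CHCx.step (chart π I J).val.toRingHom Subtype.val_injective (genMat O r m)
      (algebraMap O (chart π I J) π) _ _ (hmin i) (Φ i0) (Φ i) (g i0) (g i) (J i) (hΦ i).1
      (hΦ i0).2.1 (hΦ i).2.1 (hΦ i0).2.2 (hΦ i).2.2
  choose h hh using hs
  have hsub : ∀ i : I, ((Φ i).submatrix id e).submatrix id (e.symm ∘ J i) = 1 := fun i => by
    rw [← (hΦ i).1]
    ext a b
    simp
  refine hTRF O (chart π I J) I π r m (fun i => i.val.val - i0.val.val)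
    ((Φ i0).submatrix id e) (e.symm ∘ J i0) (fun i => (Φ i).submatrix id e)
    (fun i => e.symm ∘ J i) h y hπ (e.symm.injective.comp (hJ _ i0.2)) (hsub i0)
    (fun i => ⟨?_, e.symm.injective.comp (hJ _ i.2), hsub i, ?_, (hh i).2⟩) ?_ hy
  · have := i.val.2
    omega
  · have b1 : h i * (Φ i).submatrix id e = (h i * Φ i).submatrix id e := rfl
    rw [b1, ← (hh i).1]
    refine Matrix.ext fun a k => ?_
    rw [mul_dd_apply, submatrix_apply, submatrix_apply, mul_diagonal]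
    congr 1
    exact if_congr (he k _ i.val.2.le).symm rfl rfl
  · rw [eq_top_iff, ← hgen]
    refine Algebra.adjoin_mono ?_
    rintro t ⟨i, k, j, rfl⟩
    exact Or.inr ⟨i, k, e.symm j, by simp⟩

end Pool.Agent.P.MP_e7d440_ag.G
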