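import Pool.Agent.P.MP_e7d440_ag.G.IfaceB

/-! Step CLOS. -/

set_option autoImplicit false
set_option linter.unusedSectionVars false

namespace Pool.Agent.P.MP_e7d440_ag.G

open Matrix

namespace CLOSx

theorem good (hBOR : S_BOR) {n : ℕ} {K : Type} [Field K] {i j : Fin n} {S : Set (Mat n K)}
    (hij : j.val = i.val + 1) (hS : BB S) {p y : Mat n K} (hp : Ps i j p) (hy : y ∈ S)
    (h0 : p j j ≠ 0) : p * y ∈ SS true i j S := by
  have hne : i ≠ j := fun e => by rw [e] at hij; omega
  have hb : Bor (transvection i j (-(p i j / p j j)) * p) := by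
    refine hBOR.psBor (hBOR.psMul hij (hBOR.psTv _ hne) hp) ?_
    rw [transvection_mul_apply_same]
    field_simp
    ring
  refine ⟨p i j / p j j, _, ((hS y hy).2 _ hb).1, ?_⟩
  simp only [act, if_true]
  rw [← Matrix.mul_assoc, ← Matrix.mul_assoc, transvection_mul_transvection_same _ _ hne,
    add_neg_cancel, transvection_zero, Matrix.one_mul]

end CLOSx

open CLOSx in
theorem p_CLOS (hLINE : S_LINE) (hBOR : S_BOR) :
    S_CLOS := by
  intro n K _ _ i j S hij hS
  have hne : i ≠ j := fun e => by rw [e] at hij; omega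
  refine ⟨{x | ∃ p y, Ps i j p ∧ y ∈ S ∧ x = p * y}, ?_, ?_, ?_⟩
  · rintro x ⟨p, y, hp, hy, rfl⟩
    refine ⟨by rw [det_mul]; exact mul_ne_zero hp.1 (hS y hy).1, fun b hb => ⟨?_, ?_⟩⟩
    · exact ⟨b * p, y, (hBOR.psL hij hb hp).1, hy, (Matrix.mul_assoc _ _ _).symm⟩
    · exact ⟨p, y * b, hp, ((hS y hy).2 b hb).2, Matrix.mul_assoc _ _ _⟩
  · rintro x ⟨c, y, hy, rfl⟩
    exact ⟨transvection i j c, y, hBOR.psTv c hne, hy, by simp [act]⟩
  · rintro x ⟨p, y, hp, hy, rfl⟩
    by_cases h0 : p j j = 0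
    · refine hLINE.line _ (p * y) (single j j (1 : K) * y) ?_
      refine ((Set.finite_singleton (0 : K)).union (hLINE.fin p (single j j (1 : K)) hp.1)).subset ?_
      intro u hu
      by_contra hc
      simp only [Set.mem_union, Set.mem_singleton_iff, Set.mem_ofPred_eq, not_or] at hc
      apply hu
      have e : p * y + u • (single j j (1 : K) * y) = (p + u • single j j (1 : K)) * y := by
        rw [Matrix.add_mul, Matrix.smul_mul]
      rw [e]
      refine good hBOR hij hS ⟨hc.2, fun k l hkl hn => ?_⟩ hy ?_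
      · have : ¬ (j = k ∧ j = l) := fun h => hkl.ne (h.1.symm.trans h.2)
        simp [hp.2 k l hkl hn, single_apply, this]
      · simp [h0, hc.1]
    · exact subset_Zc _ (good hBOR hij hS hp hy h0)

end Pool.Agent.P.MP_e7d440_ag.G
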