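import Pool.Agent.P.MP_e7d440_ag.G.IfaceA

/-! Step DEPTH. -/

set_option autoImplicit false
set_option linter.unusedSectionVars false

namespace Pool.Agent.P.MP_e7d440_ag.G

open IsLocalRing Polynomial

namespace DEPTHx

theorem gen {R : Type} [CommRing R] [IsLocalRing R] [IsNoetherianRing R] (l' : List R) :
    ∀ (𝔞 : Ideal R) (l : List R), (∀ t ∈ l, t ∈ maximalIdeal R) →
      (∀ t ∈ l', t ∈ maximalIdeal R) → RegSeq 𝔞 l → RegSeq 𝔞 l' → l'.length < l.length →
      ∀ g, (∀ t ∈ maximalIdeal R, t * g ∈ 𝔞 ⊔ Ideal.ofList l') → g ∈ 𝔞 ⊔ Ideal.ofList l' := by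
  induction l' with
  | nil =>
    intro 𝔞 l hl _ hr _ hlen g hg
    cases l with
    | nil => simp at hlen
    | cons t l =>
      rw [Ideal.ofList_nil, sup_bot_eq] at hg ⊢
      exact hr.1 g (hg t (hl t (by simp)))
  | cons r l' ih =>
    intro 𝔞 l hl hl' hr hr' hlen g hg
    obtain ⟨e, he⟩ : ∃ e, l.length = e + 1 := ⟨l.length - 1, by simp at hlen; omega⟩
    obtain ⟨l2, h1, h2, h3⟩ := dp.drop hl hr he (hl' r (by simp)) hr'.1
    rw [Ideal.ofList_cons, ← sup_assoc] at hg ⊢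
    exact ih _ l2 h2 (fun t ht => hl' t (by simp [ht])) h3 hr'.2
      (by simp at hlen; omega) g hg

end DEPTHx

theorem p_DEPTH :
    S_DEPTH := by
  intro R _ _ _ l l' hl hl' hr hr' hlen g hg
  have := DEPTHx.gen l' ⊥ l hl hl' hr hr' hlen g (by simpa using hg)
  simpa using this

end Pool.Agent.P.MP_e7d440_ag.G
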