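import Pool.Agent.P.MP_e7d440_ag.G.IfaceB

/-! Step DESC. -/

set_option autoImplicit false
set_option linter.unusedSectionVars false

namespace Pool.Agent.P.MP_e7d440_ag.G

open Matrix

namespace DESCx

theorem key (hLINE : S_LINE) (hASC : S_ASC) {n : ℕ} {K : Type} [Field K]
    [Infinite K] {i j : Fin n} {w : Equiv.Perm (Fin n)} (hij : j.val = i.val + 1)
    (hw : w i < w j) {p y : Mat n K} (hp : Ps i j p) (hy : y ∈ Cell K w) :
    p * y ∈ Zc (Cell K (w * Equiv.swap i j)) := by
  refine hLINE.line _ _ (single i j (1 : K) * y) ?_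
  refine ((hLINE.fin p (single i j (1 : K)) hp.1).union (Set.finite_singleton (-p i j))).subset ?_
  intro u hu
  by_contra hc
  simp only [Set.mem_union, Set.mem_ofPred_eq, Set.mem_singleton_iff, not_or] at hc
  apply hu
  have e : p * y + u • (single i j (1 : K) * y) = (p + u • single i j (1 : K)) * y := by
    rw [Matrix.add_mul, Matrix.smul_mul]
  rw [e]
  refine hASC n K i j w _ y hij hw ⟨hc.1, fun k l hkl h => ?_⟩ ?_ hy
  · have h2 : ¬ (i = k ∧ j = l) := fun h' => h ⟨h'.1.symm, h'.2.symm⟩
    rw [Matrix.add_apply, hp.2 k l hkl h, Matrix.smul_apply, single_apply, if_neg h2]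
    simp
  · rw [Matrix.add_apply, Matrix.smul_apply, single_apply_same, smul_eq_mul, mul_one]
    intro h
    exact hc.2 (by linear_combination h)

end DESCx

theorem p_DESC (hLINE : S_LINE) (hBOR : S_BOR) (hASC : S_ASC) :
    S_DESC := by
  intro n K _ _ i j w hij hw x hx
  obtain ⟨c, y, ⟨b, b', hb, hb', rfl⟩, rfl⟩ := hx
  have hne : i ≠ j := by
    rintro rfl
    omega
  have e1 : w * Equiv.swap i j * Equiv.swap i j = w := by
    rw [mul_assoc, Equiv.swap_mul_self, mul_one]
  have hw' : (w * Equiv.swap i j) i < (w * Equiv.swap i j) j := by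
    simpa using hw
  have hp : Ps i j (transvection i j c * b * (Equiv.swap i j).permMatrix K) :=
    hBOR.psMul hij (hBOR.psMul hij (hBOR.psTv c hne) (hBOR.borPs hb)) (hBOR.psSwap hij)
  have hy : (w * Equiv.swap i j).permMatrix K * b' ∈ Cell K (w * Equiv.swap i j) :=
    ((hBOR.cell _ _ (hBOR.perm _)).2 b' hb').2
  have h := DESCx.key hLINE hASC hij hw' hp hy
  rw [e1] at h
  have e2 : w.permMatrix K = (Equiv.swap i j).permMatrix K * (w * Equiv.swap i j).permMatrix K := by
    rw [← permMatrix_mul, e1]
  have e3 : act true (transvection i j c) (b * w.permMatrix K * b') =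
      transvection i j c * b * (Equiv.swap i j).permMatrix K *
        ((w * Equiv.swap i j).permMatrix K * b') := by
    conv_lhs => rw [e2]
    simp only [act, if_true, Matrix.mul_assoc]
  rw [e3]
  exact h

end Pool.Agent.P.MP_e7d440_ag.G
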