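import Pool.Agent.P.MP_e7d440_ag.G.IfaceA

/-! Step DIMH. -/

set_option autoImplicit false
set_option linter.unusedSectionVars false

namespace Pool.Agent.P.MP_e7d440_ag.G

open IsLocalRing Polynomial

theorem p_DIMH :
    S_DIMH := by
  intro A K _ _ _ _ _ _ _ τ η _
  rw [IsLocalization.AtPrime.ringKrullDim_eq_height η (Localization.AtPrime η)]
  refine (Ideal.height_le_ringKrullDim_of_ne_top Ideal.IsPrime.ne_top').trans ?_
  obtain ⟨d, c, hc, hτ⟩ := IsFractionRing.div_surjective (A := A) τ
  have hc0 : c ≠ 0 := nonZeroDivisors.ne_zero hc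
  have hcK : algebraMap A K c ≠ 0 := by
    intro h
    exact hc0 (IsFractionRing.injective A K (by simpa using h))
  let ρ : A[X] →+* RR A τ :=
    ((aeval τ : A[X] →ₐ[A] K).codRestrict (RR A τ) (fun g => memRR.2 ⟨g, rfl⟩)).toRingHom
  have hρ : ∀ g, ((ρ g : RR A τ) : K) = aeval τ g := fun g => rfl
  have hs : Function.Surjective ρ := by
    intro y
    obtain ⟨g, hg⟩ := memRR.1 y.2
    exact ⟨g, Subtype.ext (by rw [hρ, hg])⟩
  have hf : (C c * X - C d : A[X]) ≠ 0 := by
    intro h
    have := congrArg (fun p : A[X] => p.coeff 1) h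
    simp [coeff_C] at this
    exact hc0 this
  have hk : ρ (C c * X - C d) = 0 := by
    apply Subtype.ext
    rw [hρ]
    simp only [map_sub, map_mul, aeval_C, aeval_X, ZeroMemClass.coe_zero]
    rw [← hτ]
    field_simp
    ring
  have h1 := ringKrullDim_succ_le_of_surjective ρ hs (mem_nonZeroDivisors_of_ne_zero hf) hk
  rw [Polynomial.ringKrullDim_of_isNoetherianRing] at h1
  exact ENat.WithBot.add_le_add_one_right_iff.1 h1

end Pool.Agent.P.MP_e7d440_ag.G
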