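import Pool.Agent.P.MP_e7d440_ag.G.IfaceA

/-! Step DIMX. -/

set_option autoImplicit false
set_option linter.unusedSectionVars false

namespace Pool.Agent.P.MP_e7d440_ag.G

open IsLocalRing Polynomial

namespace DIMXx

theorem pdiv {A : Type} [CommRing A] (c d : A) (g : A[X]) :
    ∃ (N : ℕ) (r : A), C c * X - C d ∣ C c ^ N * g - C r := by
  induction g using Polynomial.induction_on' with
  | add p q hp hq =>
    obtain ⟨N, r, h⟩ := hp
    obtain ⟨N', r', h'⟩ := hq
    refine ⟨N + N', c ^ N' * r + c ^ N * r', ?_⟩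
    have e : C c ^ (N + N') * (p + q) - C (c ^ N' * r + c ^ N * r') =
        C c ^ N' * (C c ^ N * p - C r) + C c ^ N * (C c ^ N' * q - C r') := by
      simp only [map_add, map_mul, map_pow]; ring
    rw [e]
    exact dvd_add (h.mul_left _) (h'.mul_left _)
  | monomial n a =>
    refine ⟨n, a * d ^ n, ?_⟩
    have e : C c ^ n * monomial n a - C (a * d ^ n) = C a * ((C c * X) ^ n - C d ^ n) := by
      rw [← C_mul_X_pow_eq_monomial, map_mul, map_pow]; ring
    rw [e]
    exact (sub_dvd_pow_sub_pow _ _ n).mul_left _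

end DIMXx

theorem p_DIMX (hFLAT : S_FLAT) (hPX : S_PX) :
    S_DIMX := by
  intro A K _ _ _ _ _ _ _ τ l hF hl hr ξ _ hξ
  obtain ⟨d, c, hc, hτ⟩ := IsFractionRing.div_surjective (A := A) τ
  have hinj := IsFractionRing.injective A K
  have hc0 : c ≠ 0 := nonZeroDivisors.ne_zero hc
  have hcK : algebraMap A K c ≠ 0 := fun h => hc0 (hinj (by rw [h, map_zero]))
  let φ : A[X] →+* RR A τ := (aeval τ : A[X] →ₐ[A] K).toRingHom.codRestrict (RR A τ)
    (fun g => memRR.2 ⟨g, rfl⟩)
  have hφ : ∀ g, (φ g : K) = aeval τ g := fun _ => rfl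
  have hsur : Function.Surjective φ := fun y => by
    obtain ⟨g, hg⟩ := memRR.1 y.2
    exact ⟨g, Subtype.ext hg⟩
  have hφ0 : ∀ g, φ g = 0 ↔ aeval τ g = 0 := fun g => by
    rw [← hφ]; exact ⟨fun h => by rw [h]; rfl, fun h => Subtype.ext h⟩
  let n : Ideal A[X] := ξ.comap φ
  let S := Localization.AtPrime n
  let ψ : S →+* Localization.AtPrime ξ := Localization.localRingHom n ξ φ rfl
  have hψ : Function.Surjective ψ := fun y => by
    obtain ⟨⟨a, s, hs⟩, rfl⟩ := IsLocalization.mk'_surjective ξ.primeCompl y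
    obtain ⟨a, rfl⟩ := hsur a
    obtain ⟨s, rfl⟩ := hsur s
    exact ⟨IsLocalization.mk' S a (⟨s, hs⟩ : n.primeCompl),
      Localization.localRingHom_mk' n ξ φ rfl a ⟨s, hs⟩⟩
  have hker : ∀ g, algebraMap A[X] S g ∈ RingHom.ker ψ ↔ aeval τ g = 0 := fun g => by
    rw [RingHom.mem_ker, Localization.localRingHom_to_map, ← hφ0,
      map_eq_zero_iff _ (IsLocalization.injective _ ξ.primeCompl_le_nonZeroDivisors)]
  have hf : aeval τ (C c * X - C d) = 0 := by
    rw [map_sub, map_mul, aeval_C, aeval_C, aeval_X, ← hτ, mul_div_cancel₀ _ hcK, sub_self]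
  have hf0 : (C c * X - C d : A[X]) ≠ 0 := fun h => hc0 (by
    have := congrArg (fun p => p.coeff 1) h
    simpa [coeff_C] using this)
  have hP : (RingHom.ker ψ).IsPrime := RingHom.ker_isPrime ψ
  have hmin : RingHom.ker ψ ∈
      ((⊥ : Ideal S) ⊔ Ideal.span {algebraMap A[X] S (C c * X - C d)}).minimalPrimes := by
    rw [bot_sup_eq]
    refine ⟨⟨hP, (Ideal.span_singleton_le_iff_mem _).2 ((hker _).2 hf)⟩, fun P hPp hle x hx => ?_⟩
    obtain ⟨⟨g, s⟩, rfl⟩ := IsLocalization.mk'_surjective n.primeCompl x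
    have hg : aeval τ g = 0 := (hker g).1 (by
      rw [← IsLocalization.mk'_spec S g s]; exact Ideal.mul_mem_right _ _ hx)
    obtain ⟨N, r, q, hq⟩ := DIMXx.pdiv c d g
    have hr0 : r = 0 := by
      have := congrArg (aeval τ) hq
      rw [map_mul, hf, zero_mul, map_sub, map_mul, hg, mul_zero, zero_sub, aeval_C,
        neg_eq_zero] at this
      exact hinj (by rw [this, map_zero])
    rw [hr0, map_zero, sub_zero] at hq
    have h1 : algebraMap A[X] S (C c) ^ N * algebraMap A[X] S g ∈ P := by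
      rw [← map_pow, ← map_mul, hq, map_mul]
      exact Ideal.mul_mem_right _ _ ((Ideal.span_singleton_le_iff_mem _).1 hPp.2)
    rcases hPp.1.mem_or_mem h1 with h2 | h2
    · have := (hker _).1 (hle (hPp.1.mem_of_pow_mem N h2))
      rw [aeval_C] at this
      exact absurd this hcK
    · dsimp only
      rw [IsLocalization.mk'_eq_mul_mk'_one]
      exact Ideal.mul_mem_right _ _ h2
  have hreg := BasicA.regLoc (R := S) n.primeCompl (hFLAT A A[X] ⊥ l hr)
  rw [Ideal.map_bot, Ideal.map_bot] at hreg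
  have hmem : ∀ t ∈ (l.map (algebraMap A A[X])).map (algebraMap A[X] S), t ∈ maximalIdeal S := by
    intro t ht
    obtain ⟨u, hu, rfl⟩ := List.mem_map.1 ht
    obtain ⟨t, ht', rfl⟩ := List.mem_map.1 hu
    refine (IsLocalization.AtPrime.to_map_mem_maximal_iff S n _).2 ?_
    change φ (C t) ∈ ξ
    rw [hξ]
    exact (hPX.mem τ hF (C t) _ (hφ _)).2 (Ideal.mem_map_of_mem _ (hl t ht'))
  have hdim : ringKrullDim (S ⧸ RingHom.ker ψ) = ringKrullDim (Localization.AtPrime ξ) :=
    ringKrullDim_eq_of_ringEquiv (RingHom.quotientKerEquivOfSurjective hψ)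
  rcases hlen : l.length with _ | e
  · simpa using add_nonneg (ringKrullDim_nonneg_of_nontrivial (R := Localization.AtPrime ξ))
      zero_le_one
  · obtain ⟨l', h1, h2, h3⟩ := dp.drop (r := algebraMap A[X] S (C c * X - C d)) (e := e) hmem hreg
      (by rw [List.length_map, List.length_map, hlen])
      ((IsLocalization.AtPrime.to_map_mem_maximal_iff S n _).2 (by
        change φ _ ∈ ξ
        rw [(hφ0 _).2 hf]; exact ξ.zero_mem))
      (fun g hg => by
        rw [Ideal.mem_bot] at hg ⊢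
        exact (mul_eq_zero.1 hg).resolve_left (fun h => hf0
          (IsLocalization.injective S n.primeCompl_le_nonZeroDivisors (by rw [h, map_zero]))))
    have h4 := dp.leDim h2 h3 (basic.minAss hmin)
    rw [hdim, h1] at h4
    rw [Nat.cast_succ]
    exact add_le_add_left h4 _

end Pool.Agent.P.MP_e7d440_ag.G
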