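import Pool.Agent.P.MP_e7d440_ag.G.IfaceC

/-! Step DIR1. -/

set_option autoImplicit false
set_option linter.unusedSectionVars false

namespace Pool.Agent.P.MP_e7d440_ag.G

open Matrix

namespace DIR1x

variable {D : Type} [CommRing D] [IsDomain D]

theorem smul_zero' {κ κ' : Type} {c : D} (hc : c ≠ 0) {X : Matrix κ κ' D} (h : c • X = 0) :
    X = 0 := by
  ext i j
  have := congrFun (congrFun h i) j
  rw [Matrix.smul_apply, smul_eq_mul, Matrix.zero_apply] at this
  exact (mul_eq_zero.1 this).resolve_left hc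

theorem cancel {κ κ' : Type} [Fintype κ] [DecidableEq κ] {a : Matrix κ κ D} (ha : a.det ≠ 0)
    {X : Matrix κ κ' D} (h : a * X = 0) : X = 0 := by
  refine smul_zero' ha ?_
  have := congrArg (fun Y => a.adjugate * Y) h
  simpa only [← Matrix.mul_assoc, adjugate_mul, Matrix.smul_mul, Matrix.one_mul,
    Matrix.mul_zero] using this

theorem cancel_dd {n s : ℕ} {κ' : Type} {π : D} (hπ : π ≠ 0) {X : Matrix (Fin n) κ' D}
    (h : dd n π 1 s * X = 0) : X = 0 := by
  refine smul_zero' hπ ?_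
  have := congrArg (fun Y : Matrix (Fin n) κ' D => dd n 1 π s * Y) h
  simpa only [← Matrix.mul_assoc, dd_mul, one_mul, mul_one, dd_self, Matrix.smul_mul,
    Matrix.one_mul, Matrix.mul_zero] using this

def io (D : Type) [CommRing D] (r m : ℕ) : Matrix (Fin (r + m)) (Fin r) D :=
  (1 : Mat (r + m) D).submatrix id (Fin.castAdd m)

theorem io_top {r m : ℕ} (b : Mat (r + m) D) : dd (r + m) 1 0 r * b = io D r m * top b := by
  ext k j
  rw [dd_mul_apply, mul_apply]
  simp only [io, submatrix_apply, id, one_apply]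
  split_ifs with hk
  · rw [Finset.sum_eq_single ⟨k.val, hk⟩]
    · have e : Fin.castAdd m ⟨k.val, hk⟩ = k := Fin.ext rfl
      rw [e, if_pos rfl]
    · intro l _ hl
      rw [if_neg, zero_mul]
      rintro rfl
      exact hl (Fin.ext rfl)
    · intro h; exact absurd (Finset.mem_univ _) h
  · rw [zero_mul]
    refine (Finset.sum_eq_zero fun l _ => ?_).symm
    rw [if_neg, zero_mul]
    rintro rfl
    exact hk l.2

theorem cancel_io {r m : ℕ} {κ' : Type} {X : Matrix (Fin r) κ' D} (h : io D r m * X = 0) :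
    X = 0 := by
  ext i j
  have := congrFun (congrFun h (Fin.castAdd m i)) j
  rw [mul_apply] at this
  simpa [io, one_apply] using this

theorem cols {κ κ' κ'' κ''' : Type} [Fintype κ'] (X : Matrix κ κ' D) (Y : Matrix κ' κ'' D)
    (J : κ''' → κ'') : (X * Y).submatrix id J = X * Y.submatrix id J := by
  ext i j; simp [mul_apply]

theorem rows {κ κ' κ'' κ''' : Type} [Fintype κ'] (X : Matrix κ κ' D) (Y : Matrix κ' κ'' D)
    (J : κ''' → κ) : (X * Y).submatrix J id = X.submatrix J id * Y := by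
  ext i j; simp [mul_apply]

end DIR1x

theorem p_DIR1 (hNMN : S_NMN) (hROW : S_ROW) :
    S_DIR1 := by
  intro D _ _ π r m s a b T P Φ J h hP hSat hπ hab hπT haT hbT hz hJ hb hh
  have hab0 : a.det * b.det ≠ 0 := fun e => hab (e ▸ P.zero_mem)
  obtain ⟨N, M, hNT, h1, h2⟩ := hNMN D π (r + m) r s a b T hπ (left_ne_zero_of_mul hab0)
    (right_ne_zero_of_mul hab0) hπT haT hbT hz
  have h3 : dd (r + m) π 1 s * N = a * (DIR1x.io D r m * h) * Φ := by
    rw [h1, Matrix.mul_assoc a, DIR1x.io_top, Matrix.mul_assoc a, Matrix.mul_assoc, hb,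
      Matrix.mul_assoc a, Matrix.mul_assoc]
  have h4 : dd (r + m) π 1 s * N.submatrix id J = a * (DIR1x.io D r m * h) := by
    rw [← DIR1x.cols, h3, DIR1x.cols, hJ, Matrix.mul_one]
  have h5 : N = N.submatrix id J * Φ := by
    refine sub_eq_zero.1 (DIR1x.cancel_dd (s := s) hπ ?_)
    rw [Matrix.mul_sub, ← Matrix.mul_assoc, h4, h3, sub_self]
  have h6 : N.submatrix id J *
      (Φ * M * N.submatrix id J - (a.det * b.det) • (1 : Matrix (Fin r) (Fin r) D)) = 0 := by
    rw [Matrix.mul_sub, ← Matrix.mul_assoc, ← Matrix.mul_assoc, ← h5, ← DIR1x.cols, h2,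
      Matrix.mul_smul, Matrix.mul_one]
    exact sub_self _
  have h7 : Φ * M * N.submatrix id J = (a.det * b.det) • (1 : Matrix (Fin r) (Fin r) D) := by
    refine sub_eq_zero.1 (DIR1x.cancel hh (DIR1x.cancel_io (m := m)
      (DIR1x.cancel (left_ne_zero_of_mul hab0) ?_)))
    rw [← Matrix.mul_assoc (DIR1x.io D r m), ← Matrix.mul_assoc a, ← h4, Matrix.mul_assoc, h6,
      Matrix.mul_zero]
  obtain ⟨ρ, hρ⟩ := hROW D P r (r + m) _ _ _ hP hab h7
  have hT : ∀ k j, (N.submatrix id J).submatrix ρ id k j ∈ T := fun k j => hNT _ _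
  intro i k
  refine hSat _ _ (det_mem T _ hT) hρ ?_
  have h8 : ((N.submatrix id J).submatrix ρ id).adjugate * N.submatrix ρ id =
      ((N.submatrix id J).submatrix ρ id).det • Φ := by
    have e : N.submatrix ρ id = (N.submatrix id J).submatrix ρ id * Φ := by
      rw [← DIR1x.rows, ← h5]
    rw [e, ← Matrix.mul_assoc, adjugate_mul, Matrix.smul_mul, Matrix.one_mul]
  have h9 := mul_mem' T _ (N.submatrix ρ id) (adjugate_mem T _ hT) (fun k j => hNT _ _) i k
  rw [h8] at h9
  exact h9

end Pool.Agent.P.MP_e7d440_ag.G
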