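import Pool.Agent.P.MP_e7d440_ag.G.IfaceC

/-! Step DIR2. -/

set_option autoImplicit false
set_option linter.unusedSectionVars false

namespace Pool.Agent.P.MP_e7d440_ag.G

open Matrix

namespace DIR2x

open Polynomial

theorem det_dd (n : ℕ) {R : Type} [CommRing R] (y : R) (s : ℕ) (hs : s ≤ n) :
    (dd n 1 y s).det = y ^ (n - s) := by
  rw [dd, det_diagonal, Finset.prod_ite, Finset.prod_const_one, one_mul, Finset.prod_const]
  congr 1
  have h1 : (Finset.univ.filter (fun k : Fin n => k.val < s)).card = s := by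
    rw [Fin.card_filter_val_lt]
    omega
  have h2 := Finset.card_filter_add_card_filter_not (s := (Finset.univ : Finset (Fin n)))
    (fun k : Fin n => k.val < s)
  rw [h1, Finset.card_univ, Fintype.card_fin] at h2
  omega

theorem map3 {n : ℕ} {R R' : Type} [CommRing R] [CommRing R'] (f : R →+* R') (a b c : Mat n R) :
    (a * b * c).map f = a.map f * b.map f * c.map f := by
  rw [Matrix.map_mul, Matrix.map_mul]

theorem ev_C {n : ℕ} {R : Type} [CommRing R] (t : R) (a : Mat n R) :
    (a.map (C : R →+* R[X])).map (evalRingHom t) = a := by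
  ext k j
  simp

theorem ev_H {n : ℕ} {R : Type} [CommRing R] (t : R) (s : ℕ) (a b : Mat n R) :
    (a.map (C : R →+* R[X]) * dd n 1 X s * b.map (C : R →+* R[X])).map (evalRingHom t) =
      a * dd n 1 t s * b := by
  rw [map3, ev_C, ev_C, dd_map]
  simp

end DIR2x

open Polynomial in
theorem p_DIR2 (hRANK : S_RANK) :
    S_DIR2 := by
  intro R κ _ _ φ π r m s b₀ b₁ h hs h0 h1 he
  have hl : b₀⁻¹ * b₀ = 1 := nonsing_inv_mul _ h0
  have hr : b₀ * b₀⁻¹ = 1 := mul_nonsing_inv _ h0
  have h0' : IsUnit (b₀⁻¹).det := isUnit_nonsing_inv_det _ h0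
  set b' := b₀⁻¹ with hb'
  set v : R[X] := C π - X with hv
  set H : Mat (r + m) R[X] :=
    b₁.map (C : R →+* R[X]) * dd (r + m) 1 X s * b'.map (C : R →+* R[X]) with hH
  have hdv : ∀ k j : Fin (r + m), k.val < r ∧ r ≤ j.val → ∃ q, H k j = q * v := by
    rintro k j ⟨hk, hj⟩
    have e1 : (H k j).eval π = (b₁ * dd (r + m) 1 π s * b') k j := by
      have := congrFun (congrFun (DIR2x.ev_H π s b₁ b') k) j
      simpa [hH] using this
    have e2 : (b₁ * dd (r + m) 1 π s * b') k j =
        (top b₁ * dd (r + m) 1 π s * b') ⟨k.val, hk⟩ j := by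
      simp only [mul_apply]
      rfl
    have e3 : top b₀ * b' = top (1 : Mat (r + m) R) := by
      rw [← hr]
      ext a c
      simp only [mul_apply, submatrix_apply, id]
    have e4 : (H k j).eval π = 0 := by
      rw [e1, e2, he, Matrix.mul_assoc, e3, mul_apply]
      refine Finset.sum_eq_zero fun a _ => ?_
      have : Fin.castAdd m a ≠ j := by
        intro e
        have := congrArg Fin.val e
        have ha := a.isLt
        simp at this
        omega
      have e5 : top (1 : Mat (r + m) R) a j = 0 := one_apply_ne this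
      rw [e5, mul_zero]
    obtain ⟨q, hq⟩ := dvd_iff_isRoot.2 e4
    exact ⟨-q, by rw [hq, hv]; ring⟩
  choose! q hq using hdv
  set G' : Mat (r + m) R[X] := Matrix.of fun k j =>
    if k.val < r ∧ r ≤ j.val then q k j else if r ≤ k.val ∧ j.val < r then v * H k j else H k j
    with hG'
  have hc : G' * dd (r + m) 1 v r = dd (r + m) 1 v r * H := by
    refine Matrix.ext fun k j => ?_
    rw [mul_dd_apply, dd_mul_apply, hG', of_apply]
    by_cases hk : k.val < r <;> by_cases hj : j.val < r
    · rw [if_neg (by omega), if_neg (by omega), if_pos hj, if_pos hk]; ring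
    · rw [if_pos ⟨hk, by omega⟩, if_neg hj, if_pos hk, hq k j ⟨hk, by omega⟩]; ring
    · rw [if_neg (by omega), if_pos ⟨by omega, hj⟩, if_pos hj, if_neg hk]; ring
    · rw [if_neg (by omega), if_neg (by omega), if_neg hj, if_neg hk]; ring
  have hvr : IsRegular v := by
    have e : v = (-1) * (X - C π) := by rw [hv]; ring
    rw [e]
    exact (isUnit_one.neg).isRegular.mul (monic_X_sub_C π).isRegular
  have hdet : G'.det = C (b₁.det * b'.det) * X ^ (r + m - s) := by
    have e := congrArg Matrix.det hc
    rw [det_mul, det_mul, DIR2x.det_dd _ _ _ (Nat.le_add_right r m), mul_comm] at e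
    rw [(hvr.pow _).left e, hH, det_mul, det_mul, DIR2x.det_dd _ _ _ hs]
    have e1 : (b₁.map (C : R →+* R[X])).det = C b₁.det := (RingHom.map_det C b₁).symm
    have e2 : (b'.map (C : R →+* R[X])).det = C b'.det := (RingHom.map_det C b').symm
    rw [e1, e2, map_mul]
    ring
  refine ⟨G'.map (evalRingHom 0), fun k j hj => ?_, ?_⟩
  · have e := congrArg (fun M : Mat (r + m) R[X] => M.map (evalRingHom 0)) hc
    simp only [Matrix.map_mul] at e
    rw [dd_map, hH, DIR2x.ev_H] at e
    have e0 : evalRingHom 0 v = π := by simp [hv]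
    rw [e0, map_one] at e
    rw [e, Matrix.mul_assoc, Matrix.mul_assoc, hl, Matrix.mul_one, ← Matrix.mul_assoc,
      mul_dd_apply, if_neg (by omega), mul_zero]
  · have e := hRANK κ (r + m) s (G'.map (mapRingHom φ)) (φ (b₁.det * b'.det))
      ((h1.mul h0').map φ).ne_zero hs (by
        have e1 : (G'.map (mapRingHom φ)).det = mapRingHom φ G'.det :=
          (RingHom.map_det (mapRingHom φ) G').symm
        rw [e1, hdet]
        simp)
    have e2 : (G'.map (mapRingHom φ)).map (Polynomial.eval 0) =
        (G'.map (evalRingHom 0)).map φ := by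
      ext k j
      simp [eval_zero_map]
    rwa [e2] at e

end Pool.Agent.P.MP_e7d440_ag.G
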