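import Pool.Agent.P.MP_e7d440_ag.G.IfaceA

/-! Step DOWN. -/

set_option autoImplicit false
set_option linter.unusedSectionVars false

namespace Pool.Agent.P.MP_e7d440_ag.G

open IsLocalRing Polynomial

theorem p_DOWN (hISO : S_ISO) (hDOWNL : S_DOWNL) :
    S_DOWN := by
  intro A B _ _ _ _ _ _ _ 𝔮 hq hP hc hG _
  have hf : (algebraMap A B).Flat := RingHom.flat_algebraMap_iff.mpr inferInstance
  have hfl := RingHom.Flat.localRingHom hf (𝔮.map (algebraMap A B)) 𝔮 hc.symm
  letI : Algebra (Localization.AtPrime 𝔮) (Localization.AtPrime (𝔮.map (algebraMap A B))) :=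
    (Localization.localRingHom 𝔮 (𝔮.map (algebraMap A B)) (algebraMap A B) hc.symm).toAlgebra
  haveI : Module.Flat (Localization.AtPrime 𝔮)
      (Localization.AtPrime (𝔮.map (algebraMap A B))) := hfl
  haveI : IsNoetherianRing (Localization.AtPrime 𝔮) :=
    IsLocalization.isNoetherianRing 𝔮.primeCompl _ inferInstance
  haveI : IsNoetherianRing (Localization.AtPrime (𝔮.map (algebraMap A B))) :=
    IsLocalization.isNoetherianRing (𝔮.map (algebraMap A B)).primeCompl _ inferInstance
  obtain ⟨h1, h2⟩ := @hG hP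
  refine hDOWNL (Localization.AtPrime 𝔮) (Localization.AtPrime (𝔮.map (algebraMap A B))) ?_ h1 h2
  rw [← Localization.AtPrime.map_eq_maximalIdeal, ← Localization.AtPrime.map_eq_maximalIdeal,
    Ideal.map_map, Ideal.map_map]
  congr 1
  ext x
  exact Localization.localRingHom_to_map 𝔮 (𝔮.map (algebraMap A B)) (algebraMap A B) hc.symm x

end Pool.Agent.P.MP_e7d440_ag.G
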