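import Pool.Agent.P.MP_e7d440_ag.G.IfaceA

/-! Step DOWNL. -/

set_option autoImplicit false
set_option linter.unusedSectionVars false

namespace Pool.Agent.P.MP_e7d440_ag.G

open IsLocalRing Polynomial

theorem p_DOWNL (hDEPTH : S_DEPTH) (hFLAT : S_FLAT) :
    S_DOWNL := by
  intro A B _ _ _ _ _ _ _ _ _ hm hN ⟨l, hl, hr, hd⟩
  have hmem : ∀ t ∈ maximalIdeal A, algebraMap A B t ∈ maximalIdeal B :=
    fun t ht => hm ▸ Ideal.mem_map_of_mem _ ht
  have hloc : IsLocalHom (algebraMap A B) := ⟨fun a ha => by
    by_contra hn
    exact (mem_maximalIdeal _).mp (hmem a ((mem_maximalIdeal _).mpr hn)) ha⟩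
  have hff : Module.FaithfullyFlat A B := Module.FaithfullyFlat.of_flat_of_isLocalHom
  have hcm : ∀ (𝔞 : Ideal A) (g : A), algebraMap A B g ∈ 𝔞.map (algebraMap A B) → g ∈ 𝔞 :=
    fun 𝔞 g hg => by
      rw [← Ideal.comap_map_eq_self_of_faithfullyFlat (B := B) 𝔞]
      exact hg
  have hinj : Function.Injective (algebraMap A B) := FaithfulSMul.algebraMap_injective A B
  have hdom : IsDomain A := hinj.isDomain _
  constructor
  · let K := FractionRing A
    let L := FractionRing B
    rw [isIntegrallyClosed_iff K]
    intro y hy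
    have hAL : Function.Injective (algebraMap A L) := by
      rw [IsScalarTower.algebraMap_eq A B L, RingHom.coe_comp]
      exact (IsFractionRing.injective B L).comp hinj
    let f : K →ₐ[A] L := IsFractionRing.liftAlgHom (g := IsScalarTower.toAlgHom A A L) hAL
    have h1 : IsIntegral B (f y) := (hy.map f).tower_top
    obtain ⟨b, hb⟩ := (isIntegrallyClosed_iff L).mp hN h1
    obtain ⟨c, d, hd0, rfl⟩ := IsFractionRing.div_surjective A y
    have hd1 : d ≠ 0 := nonZeroDivisors.ne_zero hd0
    have hd2 : algebraMap A L d ≠ 0 := fun h => hd1 (hAL (h.trans (map_zero _).symm))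
    rw [map_div₀, f.commutes, f.commutes, eq_div_iff hd2, IsScalarTower.algebraMap_apply A B L,
      IsScalarTower.algebraMap_apply A B L c, ← map_mul] at hb
    have h2 := IsFractionRing.injective B L hb
    have h3 : c ∈ Ideal.span {d} := hcm _ _ (by
      rw [← h2]
      exact Ideal.mul_mem_left _ _ (Ideal.mem_map_of_mem _ (Ideal.mem_span_singleton_self d)))
    obtain ⟨e, rfl⟩ := Ideal.mem_span_singleton'.mp h3
    refine ⟨e, ?_⟩
    rw [map_mul, mul_div_assoc, div_self, mul_one]
    exact fun h => hd1 (IsFractionRing.injective A K (h.trans (map_zero _).symm))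
  · have key : ∀ j, j ≤ l.length → ∃ l' : List A, l'.length = j ∧
        (∀ t ∈ l', t ∈ maximalIdeal A) ∧ RegSeq ⊥ l' := by
      intro j
      induction j with
      | zero => exact fun _ => ⟨[], rfl, by simp, trivial⟩
      | succ j ih =>
        intro hj
        obtain ⟨l', h1, h2, h3⟩ := ih (by omega)
        have hna : ∀ P, Ass (Ideal.ofList l') P → ¬ maximalIdeal A ≤ P := by
          rintro P ⟨hP, g, hg⟩ hle
          have h4 := hFLAT A B ⊥ l' h3
          rw [Ideal.map_bot] at h4
          have h5 := hDEPTH B l (l'.map (algebraMap A B)) hl (by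
            intro t ht
            obtain ⟨a, ha, rfl⟩ := List.mem_map.mp ht
            exact hmem a (h2 a ha)) hr h4 (by rw [List.length_map]; omega) (algebraMap A B g) (by
              intro t ht
              rw [← hm] at ht
              have : (maximalIdeal A).map (algebraMap A B) ≤
                  col (Ideal.ofList (l'.map (algebraMap A B))) (Ideal.span {algebraMap A B g}) := by
                rw [Ideal.map_le_iff_le_comap]
                intro a ha
                rw [Ideal.mem_comap, mem_col]
                intro z hz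
                obtain ⟨w, rfl⟩ := Ideal.mem_span_singleton'.mp hz
                rw [mul_left_comm, ← map_mul, ← Ideal.map_ofList]
                exact Ideal.mul_mem_left _ _ (Ideal.mem_map_of_mem _ ((hg a).mp (hle ha)))
              exact mem_col.mp (this ht) _ (Ideal.mem_span_singleton_self _))
          rw [← Ideal.map_ofList] at h5
          exact hP.ne_top ((Ideal.eq_top_iff_one _).mpr ((hg 1).mpr (by
            rw [one_mul]; exact hcm _ _ h5)))
        obtain ⟨b, hb, hb', -⟩ := basic.avoid2 _ _ (maximalIdeal A) hna hna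
        refine ⟨l' ++ [b], by simp [h1], ?_, (basic.regAppend _ _ _).mpr ⟨h3, ?_⟩⟩
        · intro t ht
          rcases List.mem_append.mp ht with h | h
          · exact h2 t h
          · rw [List.mem_singleton.mp h]; exact hb
        · rw [bot_sup_eq]
          exact ⟨hb', trivial⟩
    obtain ⟨l', h1, h2, h3⟩ := key _ le_rfl
    refine ⟨l', h2, h3, ?_⟩
    rw [h1]
    refine le_trans ?_ hd
    have : (maximalIdeal B).LiesOver (maximalIdeal A) := ⟨(maximalIdeal_comap _).symm⟩
    rw [← maximalIdeal_height_eq_ringKrullDim, ← maximalIdeal_height_eq_ringKrullDim,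
      Ideal.height_eq_height_add_of_liesOver_of_hasGoingDown (maximalIdeal A) (maximalIdeal B)]
    exact_mod_cast le_self_add

end Pool.Agent.P.MP_e7d440_ag.G
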