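import Pool.Agent.P.MP_e7d440_ag.G.IfaceB

/-! Step DQ. -/

set_option autoImplicit false
set_option linter.unusedSectionVars false

namespace Pool.Agent.P.MP_e7d440_ag.G

open Matrix

namespace DQx

/-- value of an integral polynomial at the entries of a matrix -/
noncomputable def ez {n : ℕ} {R : Type} [CommRing R] (x : Mat n R)
    (c : MvPolynomial (Fin n × Fin n) ℤ) : R := MvPolynomial.aeval (ent x) c

theorem map_ez {n : ℕ} {R R' : Type} [CommRing R] [CommRing R'] (ψ : R →+* R') (x : Mat n R)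
    (c : MvPolynomial (Fin n × Fin n) ℤ) : ψ (ez x c) = ez (x.map ψ) c := by
  have h : ψ.toIntAlgHom.comp (MvPolynomial.aeval (ent x)) =
      MvPolynomial.aeval (ent (x.map ψ)) := by
    apply MvPolynomial.algHom_ext
    intro p
    simp [ent]
  exact DFunLike.congr_fun h c

theorem ev_ez {O : Type} [CommRing O] {n : ℕ} (μ : Mat n O) {Ω : Type} [CommRing Ω]
    [Algebra O Ω] (a b : Mat n Ω) (c : MvPolynomial (Fin n × Fin n) ℤ) :
    ev O a b (ez (tri μ (gA O n) (gB O n)) c) = ez (tri μ a b) c := by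
  have h := map_ez (ev O a b).toRingHom (tri μ (gA O n) (gB O n)) c
  have h2 : (tri μ (gA O n) (gB O n)).map (ev O a b).toRingHom = tri μ a b := by
    have := map_tri (ev O a b) μ (gA O n) (gB O n)
    rw [map_gA, map_gB] at this
    exact this
  rw [h2] at h
  exact h

theorem tri_act {O : Type} [CommRing O] {n : ℕ} (μ : Mat n O) {Ω : Type} [CommRing Ω]
    [Algebra O Ω] (ε : Bool) (e a b : Mat n Ω) :
    tri μ (if ε then e * a else a) (if ε then b else b * e) = act ε e (tri μ a b) := by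
  cases ε <;> simp [tri, act, Matrix.mul_assoc]

theorem det_SS {n : ℕ} {K : Type} [Field K] {ε : Bool} {i j : Fin n} (hij : i ≠ j)
    {S : Set (Mat n K)} (hS : BB S) : ∀ x ∈ SS ε i j S, x.det ≠ 0 := by
  rintro x ⟨c, y, hy, rfl⟩
  have := (hS y hy).1
  cases ε <;> simp [act, Matrix.det_mul, det_transvection_of_ne i j hij, this]

theorem ex_pt {O : Type} [CommRing O] {n : ℕ} (μ : Mat n O) {K : Type} [Field K] [Algebra O K]
    (hμ : algebraMap O K μ.det ≠ 0) (y : Mat n K) (hy : y.det ≠ 0) :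
    ∃ a : Mat n K, a.det ≠ 0 ∧ tri μ a 1 = y := by
  have hd : (μ.map (algebraMap O K)).det ≠ 0 := by
    have := (algebraMap O K).map_det μ
    rw [RingHom.mapMatrix_apply] at this
    rw [← this]; exact hμ
  have hu : IsUnit (μ.map (algebraMap O K)).det := isUnit_iff_ne_zero.mpr hd
  have e : tri μ (y * (μ.map (algebraMap O K))⁻¹) 1 = y := by
    rw [tri, Matrix.mul_one, Matrix.mul_assoc, Matrix.nonsing_inv_mul _ hu, Matrix.mul_one]
  refine ⟨_, fun h => hy ?_, e⟩
  rw [← e, tri, Matrix.det_mul, Matrix.det_mul, h, zero_mul, zero_mul]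

end DQx

open DQx in
theorem p_DQ (hBOR : S_BOR) (hXD : S_XD) (hFL : S_FL) (hPPL : S_PPL) :
    S_DQ := by
  intro O _ n μ K _ _ _ S ε i j hμ hA hS hP
  obtain ⟨w, hw⟩ := hPPL.cell μ S hS hP
  rw [hw]
  have hC : BB (Cell K w) := hBOR.cell w
  have hle : mv (rt O ε i j) (pp μ (Cell K w)) ≤ pp μ (Cell K w) :=
    mv_le (hFL.flow O ε i j hA.ne) _
  have hmv := hPPL.mv μ (Cell K w) ε i j hA.ne
  rcases hXD.dich (K := K) ε i j w hA with h | ⟨c₀, d₀, ⟨y, hy, hy0⟩, hcd⟩
  · left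
    refine le_antisymm hle ?_
    rw [hmv]
    exact hPPL.zc μ _ _ hμ (fun x hx => (hC x hx).1) h
  · right
    refine ⟨?_, ez (tri μ (gA O n) (gB O n)) c₀, ez (tri μ (gA O n) (gB O n)) d₀, ?_, ?_⟩
    · obtain ⟨S', h1, h2, h3⟩ := hXD.clos ε i j (Cell K w) hA hC
      refine ⟨S', h1, ?_⟩
      rw [hmv]
      exact le_antisymm (hPPL.zc μ _ _ hμ (det_SS hA.ne hC) h3) (pp_anti μ h2)
    · intro hc
      obtain ⟨a, ha, e⟩ := ex_pt μ hμ y (hC y hy).1
      have h := mem_pp.mp (hle hc) a 1 ha (by simp) (by rw [e]; exact hy)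
      rw [ev_ez, e] at h
      exact hy0 h
    · refine hFL.mem μ _ _ fun a b _ _ hab t _ => ?_
      rw [Polynomial.eval₂_sub, Polynomial.eval₂_mul, Polynomial.eval₂_X, hFL.pts, hFL.pts,
        hFL.tv, ev_ez, ev_ez, tri_act, sub_eq_zero]
      exact hcd _ hab t

end Pool.Agent.P.MP_e7d440_ag.G
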