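import Pool.Agent.P.MP_e7d440_ag.G.IfaceB

/-! Step FL. -/

set_option autoImplicit false
set_option linter.unusedSectionVars false

namespace Pool.Agent.P.MP_e7d440_ag.G

open Matrix

namespace FLx

open Polynomial

variable {O : Type} [CommRing O] {n : ℕ}

theorem tvm {R S F : Type} [CommRing R] [CommRing S] [FunLike F R S] [RingHomClass F R S] (ψ : F)
    (i j : Fin n) (p : R) : (transvection i j p).map ψ = transvection i j (ψ p) := by
  ext k l
  simp only [transvection, Matrix.map_apply, Matrix.add_apply, map_add, Matrix.one_apply,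
    Matrix.single_apply]
  split_ifs <;> simp

theorem pts {Ω : Type} [CommRing Ω] [Algebra O Ω] (ε : Bool) (g : Mat n O[X]) (a b : Mat n Ω)
    (c : Ω) (f : QQ O n) : eval₂ (ev O a b).toRingHom c (fl ε g f) =
      ev O (if ε then g.map (aeval c) * a else a) (if ε then b else b * g.map (aeval c)) f := by
  let ψ : (QQ O n)[X] →ₐ[O] Ω := eval₂AlgHom (ev O a b) c fun _ => Commute.all _ _
  have h0 : ∀ p, ψ p = eval₂ (ev O a b).toRingHom c p := fun _ => rfl
  have h1 : ∀ M : Mat n (QQ O n), (M.map C).map ψ = M.map (ev O a b) := fun M => by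
    ext k l
    exact eval₂_C _ _
  have h2 : (g.map (mapRingHom (algebraMap O (QQ O n)))).map ψ = g.map (aeval c) := by
    ext k l
    simp only [Matrix.map_apply, h0, coe_mapRingHom, eval₂_map, aeval_def]
    congr 1
    exact (ev O a b).comp_algebraMap
  have h3 : ∀ M M' : Mat n (QQ O n)[X], (M * M').map ψ = M.map ψ * M'.map ψ :=
    fun M M' => (AlgHom.mapMatrix ψ).map_mul _ _
  refine (comp_ev ψ _ _ f).trans ?_
  cases ε <;> simp only [if_true, if_false, Bool.false_eq_true, h3, h1, h2, map_gA, map_gB]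

/-- the extension of the flow to polynomials -/
noncomputable def sg (ε : Bool) (i j : Fin n) (p : O[X]) : (QQ O n)[X] →+* (QQ O n)[X] :=
  eval₂RingHom (fl ε (transvection i j p)) X

theorem sg_comp (ε : Bool) {i j : Fin n} (h : i ≠ j) {p q : O[X]} (e : p + q = 0) :
    (sg ε i j p).comp (sg ε i j q) = RingHom.id _ := by
  refine Polynomial.ringHom_ext (fun f => ?_) (by simp [sg])
  have e1 : mapRingHom (algebraMap O (QQ O n)) p + aeval (X : (QQ O n)[X]) q = 0 := by
    rw [aeval_X_left_eq_map, coe_mapRingHom, ← Polynomial.map_add, e, Polynomial.map_zero]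
  simp only [sg, RingHom.comp_apply, coe_eval₂RingHom, eval₂_C, RingHom.id_apply]
  refine (pts ε _ _ _ X f).trans
    (Eq.trans ?_ (DFunLike.congr_fun (ev_eq (CAlgHom : QQ O n →ₐ[O] (QQ O n)[X])) f))
  cases ε
  · simp only [if_false, Bool.false_eq_true, tvm, mul_assoc,
      transvection_mul_transvection_same _ _ h, e1, transvection_zero, mul_one]
    rfl
  · simp only [if_true, tvm, ← mul_assoc, transvection_mul_transvection_same _ _ h,
      (add_comm _ _).trans e1, transvection_zero, one_mul]
    rfl

end FLx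

open FLx Polynomial in
theorem p_FL :
    S_FL := by
  refine ⟨pts, fun i j c => by rw [tvm, aeval_X], fun O _ n ε i j h => ⟨fun f => ?_, ?_⟩,
    fun ψ 𝔮 c F h hF => ?_, fun μ K _ _ _ S F h => ?_⟩
  · have e := ev_eq (AlgHom.id O (QQ O n))
    rw [AlgHom.coe_id, Matrix.map_id, Matrix.map_id] at e
    have := pts ε (transvection i j X) (gA _ n) (gB _ n) (0 : QQ O n) f
    simp only [tvm, aeval_X, transvection_zero, one_mul, mul_one, ite_self, e, eval₂_at_zero] at this
    exact this
  · exact ⟨RingEquiv.ofRingHom (sg ε i j X) (sg ε i j (-X)) (sg_comp ε h (add_neg_cancel _))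
      (sg_comp ε h (neg_add_cancel _)), eval₂_X _ _, fun f => eval₂_C _ _⟩
  · rw [eval₂_eq_sum, sum_def]
    exact Finset.sum_eq_zero fun k _ => by rw [h _ (Ideal.mem_map_C_iff.1 hF k), zero_mul]
  · refine Ideal.mem_map_C_iff.2 fun k a b ha hb hs => ?_
    have := eq_zero_of_infinite_isRoot (F.map (ev _ a b).toRingHom)
      ((Set.finite_singleton (0 : K)).infinite_compl.mono fun c hc =>
        (eval_map _ c).trans (h a b ha hb hs c hc))
    exact (coeff_map (ev _ a b).toRingHom k).symm.trans (by rw [this, coeff_zero])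

end Pool.Agent.P.MP_e7d440_ag.G
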