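import Pool.Agent.P.MP_e7d440_ag.G.IfaceC

/-! Step FLAG. -/

set_option autoImplicit false
set_option linter.unusedSectionVars false

namespace Pool.Agent.P.MP_e7d440_ag.G

open Matrix

theorem p_FLAG :
    S_FLAG := by
  intro C κ _ _ φ n W h
  have key : ∀ (t : ℕ) (ht : t ≤ n), ∃ a : Fin t → Fin n → C, (∀ k, a k ∈ W (k.castLE ht)) ∧
      LinearIndependent κ fun k => φ ∘ a k := by
    intro t
    induction t with
    | zero => exact fun _ => ⟨Fin.elim0, fun k => k.elim0, linearIndependent_empty_type⟩
    | succ t ih =>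
      intro ht
      obtain ⟨a, a1, a2⟩ := ih (Nat.le_of_succ_le ht)
      obtain ⟨G, g1, g2⟩ := h ⟨t, ht⟩
      obtain ⟨i, hi⟩ : ∃ i, φ ∘ G i ∉ Submodule.span κ (Set.range fun k => φ ∘ a k) := by
        by_contra c
        push Not at c
        have h1 : Submodule.span κ (Set.range (G.map φ).row) ≤
            Submodule.span κ (Set.range fun k => φ ∘ a k) :=
          Submodule.span_le.2 (Set.range_subset_iff.2 c)
        have h2 := Submodule.finrank_mono h1
        rw [← rank_eq_finrank_span_row, finrank_span_eq_card a2, Fintype.card_fin] at h2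
        exact Nat.not_succ_le_self t (g2.trans h2)
      refine ⟨Fin.snoc (α := fun _ => Fin n → C) a (G i), fun k => ?_, ?_⟩
      · refine Fin.lastCases ?_ (fun k => ?_) k
        · rw [Fin.snoc_last]; exact g1 i
        · rw [Fin.snoc_castSucc]; exact a1 k
      · have e : (fun k => φ ∘ Fin.snoc (α := fun _ => Fin n → C) a (G i) k) =
            Fin.snoc (α := fun _ => Fin n → κ) (fun k => φ ∘ a k) (φ ∘ G i) := by
          funext k
          refine Fin.lastCases ?_ (fun k => ?_) k
          · simp only [Fin.snoc_last]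
          · simp only [Fin.snoc_castSucc]
        rw [e]
        exact linearIndependent_finSnoc.2 ⟨a2, hi⟩
  obtain ⟨a, a1, a2⟩ := key n le_rfl
  refine ⟨Matrix.of a, a1, ?_⟩
  rw [RingHom.map_det]
  exact ((isUnit_iff_isUnit_det _).1 (linearIndependent_rows_iff_isUnit.1 a2)).ne_zero

end Pool.Agent.P.MP_e7d440_ag.G
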