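import Pool.Agent.P.MP_e7d440_ag.G.IfaceA

/-! Step FLAT. -/

set_option autoImplicit false
set_option linter.unusedSectionVars false

namespace Pool.Agent.P.MP_e7d440_ag.G

open IsLocalRing Polynomial

namespace FLATx

theorem nzd_iff {A : Type} [CommRing A] (𝔞 : Ideal A) (r : A) :
    NZD 𝔞 r ↔ IsSMulRegular (A ⧸ 𝔞) r := by
  constructor
  · intro h x y hxy
    obtain ⟨x, rfl⟩ := Ideal.Quotient.mk_surjective x
    obtain ⟨y, rfl⟩ := Ideal.Quotient.mk_surjective y
    rw [Ideal.Quotient.eq]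
    apply h
    have h1 : Ideal.Quotient.mk 𝔞 (r * x) = Ideal.Quotient.mk 𝔞 (r * y) := hxy
    rw [Ideal.Quotient.eq] at h1
    rw [mul_sub]
    exact h1
  · intro h g hg
    rw [← Ideal.Quotient.eq_zero_iff_mem]
    apply h
    have h1 : Ideal.Quotient.mk 𝔞 (r * g) = 0 := Ideal.Quotient.eq_zero_iff_mem.mpr hg
    show r • Ideal.Quotient.mk 𝔞 g = r • (0 : A ⧸ 𝔞)
    rw [smul_zero]
    exact h1

theorem nzd_map {A B : Type} [CommRing A] [CommRing B] [Algebra A B] [Module.Flat A B]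
    (𝔞 : Ideal A) (r : A) (h : NZD 𝔞 r) :
    NZD (𝔞.map (algebraMap A B)) (algebraMap A B r) := by
  rw [nzd_iff] at h ⊢
  have h1 : IsSMulRegular (TensorProduct A B (A ⧸ 𝔞)) (algebraMap A B r) :=
    h.of_flat_of_isBaseChange (TensorProduct.isBaseChange A (A ⧸ 𝔞) B)
  exact ((Algebra.TensorProduct.quotIdealMapEquivTensorQuot B 𝔞).toLinearEquiv.isSMulRegular_congr
    _).mpr h1

end FLATx

theorem p_FLAT :
    S_FLAT := by
  intro A B _ _ _ _ 𝔞 l
  induction l generalizing 𝔞 with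
  | nil => intro _; trivial
  | cons r l ih =>
    intro h
    refine ⟨FLATx.nzd_map 𝔞 r h.1, ?_⟩
    have h2 := ih _ h.2
    rw [Ideal.map_sup, Ideal.map_span, Set.image_singleton] at h2
    exact h2

end Pool.Agent.P.MP_e7d440_ag.G
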