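import Pool.Agent.P.MP_e7d440_ag.G.IfaceB

/-! Step GEN. -/

set_option autoImplicit false
set_option linter.unusedSectionVars false

namespace Pool.Agent.P.MP_e7d440_ag.G

open Matrix

namespace GENx

variable {n : ℕ} {K : Type} [Field K]

theorem comm (i k j : Fin n) (hik : i ≠ k) (hkj : k ≠ j) (hij : i ≠ j) (c : K) :
    (transvection i k c * transvection k j 1 * transvection i k (-c) * transvection k j (-1) :
      Mat n K) = transvection i j c := by
  have h1 : (transvection i k c * transvection k j 1 : Mat n K) =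
      transvection i j c * (transvection k j 1 * transvection i k c) := by
    simp only [transvection, mul_add, add_mul, one_mul, mul_one, single_mul_single_same,
      single_mul_single_of_ne _ _ _ _ hij.symm, single_mul_single_of_ne _ _ _ _ hkj.symm,
      add_zero]
    abel
  rw [h1, mul_assoc, mul_assoc, mul_assoc, ← mul_assoc (transvection i k c),
    transvection_mul_transvection_same i k hik, add_neg_cancel, transvection_zero, one_mul,
    transvection_mul_transvection_same k j hkj, add_neg_cancel, transvection_zero, mul_one]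

theorem mem_of_alw {i j : Fin n} (h : Alw i j) (c : K) : transvection i j c ∈ El n K :=
  Submonoid.subset_closure ⟨i, j, c, h, rfl⟩

theorem mem_up (m : ℕ) : ∀ (i j : Fin n), j.val = i.val + m + 1 → ∀ c : K,
    transvection i j c ∈ El n K := by
  induction m with
  | zero => intro i j h c; exact mem_of_alw (Or.inr h) c
  | succ m ih =>
    intro i j h c
    have hk : i.val + m + 1 < n := by have := j.isLt; omega
    let k : Fin n := ⟨i.val + m + 1, hk⟩
    have hkv : k.val = i.val + m + 1 := rfl
    have hik : i ≠ k := by intro e; rw [← e] at hkv; omega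
    have hkj : k ≠ j := by intro e; rw [e] at hkv; omega
    have hij : i ≠ j := by intro e; rw [e] at h; omega
    have ha : Alw k j := Or.inr (by omega)
    rw [← comm i k j hik hkj hij c]
    exact mul_mem (mul_mem (mul_mem (ih i k hkv c) (mem_of_alw ha 1)) (ih i k hkv (-c)))
      (mem_of_alw ha (-1))

theorem mem_tv (i j : Fin n) (h : i ≠ j) (c : K) : transvection i j c ∈ El n K := by
  rcases lt_or_gt_of_ne h with h | h
  · have h' : i.val < j.val := h
    exact mem_up (j.val - i.val - 1) i j (by omega) c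
  · exact mem_of_alw (Or.inl h) c

theorem mem_prod (L : List (TransvectionStruct (Fin n) K)) :
    (L.map TransvectionStruct.toMatrix).prod ∈ El n K := by
  apply list_prod_mem
  intro x hx
  obtain ⟨t, -, rfl⟩ := List.mem_map.mp hx
  exact mem_tv t.i t.j t.hij t.c

theorem tv_diag (d : Fin n → K) (i j : Fin n) (c c' : K) (h : c * d j = d i * c') :
    (transvection i j c * diagonal d : Mat n K) = diagonal d * transvection i j c' := by
  simp only [transvection, add_mul, mul_add, one_mul, mul_one]
  congr 1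
  ext a b
  rw [mul_diagonal, diagonal_mul]
  by_cases hab : i = a ∧ j = b
  · obtain ⟨rfl, rfl⟩ := hab
    simp only [single_apply_same]
    exact h
  · rw [single_apply_of_ne _ _ _ _ _ hab, single_apply_of_ne _ _ _ _ _ hab, zero_mul, mul_zero]

theorem pass (d : Fin n → K) (hd : ∀ i, d i ≠ 0) (e : Mat n K) (he : e ∈ El n K) :
    (∃ e' ∈ El n K, e * diagonal d = diagonal d * e') ∧
      (∃ e' ∈ El n K, diagonal d * e = e' * diagonal d) := by
  induction he using Submonoid.closure_induction with
  | mem x hx =>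
    obtain ⟨i, j, c, ha, rfl⟩ := hx
    refine ⟨⟨_, mem_of_alw ha (c * d j / d i), tv_diag d i j _ _ ?_⟩,
      ⟨_, mem_of_alw ha (d i * c / d j), (tv_diag d i j _ _ ?_).symm⟩⟩
    · field_simp [hd i]
    · field_simp [hd j]
  | one => exact ⟨⟨1, one_mem _, by simp⟩, ⟨1, one_mem _, by simp⟩⟩
  | mul x y _ _ hx hy =>
    obtain ⟨⟨x1, hx1, ex1⟩, ⟨x2, hx2, ex2⟩⟩ := hx
    obtain ⟨⟨y1, hy1, ey1⟩, ⟨y2, hy2, ey2⟩⟩ := hy
    refine ⟨⟨x1 * y1, mul_mem hx1 hy1, ?_⟩, ⟨x2 * y2, mul_mem hx2 hy2, ?_⟩⟩
    · rw [mul_assoc, ey1, ← mul_assoc, ex1, mul_assoc]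
    · rw [← mul_assoc, ex2, mul_assoc, ey2, mul_assoc]

end GENx

theorem p_GEN :
    S_GEN := by
  intro n K _ g hg
  obtain ⟨L, L', D, h⟩ := Matrix.Pivot.exists_list_transvec_mul_diagonal_mul_list_transvec g
  have hD : ∀ i, D i ≠ 0 := by
    intro i hi
    apply hg
    rw [h, det_mul, det_mul, det_diagonal, Finset.prod_eq_zero (Finset.mem_univ i) hi, mul_zero,
      zero_mul]
  obtain ⟨⟨e1, he1, h1⟩, -⟩ := GENx.pass D hD _ (GENx.mem_prod L)
  obtain ⟨-, ⟨e2, he2, h2⟩⟩ := GENx.pass D hD _ (GENx.mem_prod L')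
  refine ⟨⟨D, e1 * _, hD, mul_mem he1 (GENx.mem_prod L'), ?_⟩,
    ⟨D, _ * e2, hD, mul_mem (GENx.mem_prod L) he2, ?_⟩⟩
  · rw [h, h1, mul_assoc]
  · rw [h, mul_assoc, h2, mul_assoc]

end Pool.Agent.P.MP_e7d440_ag.G
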