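import Pool.Agent.P.MP_e7d440_ag.G.IfaceC

/-! Step HAT. -/

set_option autoImplicit false
set_option linter.unusedSectionVars false

namespace Pool.Agent.P.MP_e7d440_ag.G

open Matrix

namespace HATx

theorem zt {n r : ℕ} {k j : Fin n} : ZT {r} k j ↔ k.val < r ∧ r ≤ j.val := by simp [ZT]

theorem comm {n : ℕ} {D : Type} [CommRing D] (π : D) (r : ℕ) (η : Mat n D)
    (h : ∀ k j, ZT {r} k j → η k j = 0) : hat π r η * dd n 1 π r = dd n 1 π r * η := by
  ext k j
  rw [mul_dd_apply, dd_mul_apply, hat, of_apply]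
  by_cases a : k.val < r <;> by_cases b : j.val < r
  · simp [a, b, a.not_ge]
  · simp [h k j (zt.2 ⟨a, not_lt.1 b⟩)]
  · simp [a, b, not_lt.1 a]
  · simp [a, b, mul_comm]

end HATx

theorem p_HAT :
    S_HAT := by
  refine ⟨HATx.comm, fun {n D} _ _ π r η h0 h => ?_, fun {r m D} _ η b h => ?_,
    fun {r m D} _ η h => ?_, fun {n D} _ T x y hx hy k j ⟨s, s1, s2, s3⟩ => ?_, fun r m => ?_⟩
  · have e := congrArg Matrix.det (HATx.comm π r η h)
    rw [det_mul, det_mul, mul_comm] at e
    refine mul_left_cancel₀ ?_ e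
    rw [dd, det_diagonal]
    exact Finset.prod_ne_zero_iff.2 fun k _ => by split_ifs; exacts [one_ne_zero, h0]
  · ext k j
    simp only [submatrix_apply, mul_apply, id, Fin.sum_univ_add]
    rw [Finset.sum_eq_zero (f := fun l => η _ (Fin.natAdd r l) * _) fun l _ => by
      rw [h _ _ (HATx.zt.2 ⟨by simp, by simp⟩), zero_mul], add_zero]
  · rw [← det_submatrix_equiv_self finSumFinEquiv η,
      ← fromBlocks_toBlocks (η.submatrix finSumFinEquiv finSumFinEquiv),
      show (η.submatrix finSumFinEquiv finSumFinEquiv).toBlocks₁₂ = 0 from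
        Matrix.ext fun k j => h _ _ (HATx.zt.2 ⟨by simp, by simp⟩), det_fromBlocks_zero₁₂]
    exact dvd_mul_right _ _
  · rw [mul_apply]
    refine Finset.sum_eq_zero fun l _ => ?_
    rcases le_or_gt s l.val with e | e
    · rw [hx k l ⟨s, s1, s2, e⟩, zero_mul]
    · rw [hy l j ⟨s, s1, e, s3⟩, mul_zero]
  · classical
    have e : Fintype.card {p : Fin (r + m) × Fin (r + m) // ZT {r} p.1 p.2} = r * m := by
      rw [show r * m = Fintype.card (Fin r × Fin m) by simp]
      exact Fintype.card_congr
        { toFun := fun p => (⟨p.1.1, (HATx.zt.1 p.2).1⟩, ⟨p.1.2 - r, by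
            have := (HATx.zt.1 p.2).2
            have := p.1.2.2
            omega⟩)
          invFun := fun q => ⟨(Fin.castAdd m q.1, Fin.natAdd r q.2),
            HATx.zt.2 ⟨by simp, by simp⟩⟩
          left_inv := fun p => Subtype.ext (Prod.ext (Fin.ext rfl) (Fin.ext (by
            have := (HATx.zt.1 p.2).2
            simp only [Fin.val_natAdd]
            omega)))
          right_inv := fun q => Prod.ext (Fin.ext rfl) (Fin.ext (by simp)) }
    have := Fintype.card_subtype_le fun p : Fin (r + m) × Fin (r + m) => ZT {r} p.1 p.2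
    rw [Nat.card_eq_fintype_card, Fintype.card_subtype_compl, e]
    rw [e] at this
    simp only [Fintype.card_prod, Fintype.card_fin] at this ⊢
    omega

end Pool.Agent.P.MP_e7d440_ag.G
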