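import Pool.Agent.P.MP_e7d440_ag.G.IfaceB

/-! Step KER. -/

set_option autoImplicit false
set_option linter.unusedSectionVars false

namespace Pool.Agent.P.MP_e7d440_ag.G

open Matrix

theorem KERx.alg {O A : Type} [CommRing O] [CommRing A] [IsDomain A] [Algebra O A] {n : ℕ}
    (S : Subalgebra O A) (μ : Mat n O) (a b : Mat n A) (hb : ∀ k l, b k l ∈ S)
    (ht : ∀ k l, tri μ a b k l ∈ S) (hd : algebraMap O A μ.det * b.det ≠ 0) (k l : Fin n) :
    IsAlgebraic S (a k l) := by
  let T : Mat n S := of fun k l => ⟨_, ht k l⟩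
  let M : Mat n S := μ.map (algebraMap O S) * of fun k l => ⟨_, hb k l⟩
  have h1 : S.val.mapMatrix M = μ.map (algebraMap O A) * b := map_mul S.val.mapMatrix _ _
  have h2 : S.val.mapMatrix (T * M.adjugate) = S.val M.det • a := by
    rw [map_mul, S.val.map_adjugate, S.val.map_det, show S.val.mapMatrix T = tri μ a b from rfl,
      tri, Matrix.mul_assoc a, ← h1, Matrix.mul_assoc, mul_adjugate, Matrix.mul_smul,
      Matrix.mul_one]
  refine .of_smul (y := M.det) (mem_nonZeroDivisors_of_ne_zero fun h => hd ?_) ?_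
  · rw [(algebraMap O A).map_det, ← det_mul, RingHom.mapMatrix_apply, ← h1, ← S.val.map_det, h,
      map_zero]
  · rw [show M.det • a k l = algebraMap S A _ from (congrFun₂ h2 k l).symm]
    exact isAlgebraic_algebraMap _

theorem p_KER (hUNIV : S_UNIV) (hTRD : S_TRD) :
    S_KER := by
  intro O _ _ n μ K _ _ _ Z D κ _ _ _ _ a b y h1 h2 h3 h4 h5 h6 h7 h8
  obtain ⟨u1, u2⟩ := hUNIV O n μ K Z h1 h2 h3
  have h9 : algebraMap O D μ.det ≠ 0 := (map_ne_zero_iff _ h6.algebraMap_injective).2 h2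
  have u3 := u2 D a b h9 h4 h5
  refine le_antisymm (fun f hf => ?_) u3
  let π := Ideal.Quotient.mkₐ O (pp μ (Pat K Z))
  let ψ := Ideal.Quotient.liftₐ _ (ev O a b) u3
  let z : (Fin n × Fin n) ⊕ {p : Fin n × Fin n // ¬ Z p.1 p.2} → QQ O n ⧸ pp μ (Pat K Z) :=
    Sum.elim (fun p => π (gB O n p.1 p.2)) fun p => π (tri μ (gA O n) (gB O n) p.1.1 p.1.2)
  let S := Algebra.adjoin O (Set.range z)
  have hB : ∀ k l, π (gB O n k l) ∈ S := fun k l => Algebra.subset_adjoin ⟨.inl (k, l), rfl⟩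
  have hA := KERx.alg S μ ((gA O n).map π) ((gB O n).map π) hB (fun k l => by
    rw [← map_tri, map_apply]
    by_cases c : Z k l
    · rw [show π _ = 0 from Ideal.Quotient.eq_zero_iff_mem.2 fun a b _ _ h => by
        rw [← map_apply (f := ev O a b), map_tri, map_gA, map_gB]; exact h.2 k l c]
      exact zero_mem _
    · exact Algebra.subset_adjoin ⟨.inr ⟨(k, l), c⟩, rfl⟩) fun h => by
    have := congrArg ψ h
    rw [map_mul, map_zero, ψ.commutes, ψ.map_det, AlgHom.mapMatrix_apply, Matrix.map_map] at this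
    exact mul_ne_zero h9 h4 (by rwa [show (gB O n).map (ψ ∘ π) = b from map_gB a b] at this)
  refine Ideal.Quotient.eq_zero_iff_mem.1 (hTRD O _ D _ κ ψ z y (fun g => ?_) h6 (by simpa using h7)
    (fun t => (h8 t).elim fun s ⟨x, h⟩ => ⟨π s, π x, h⟩) (hf.trans (map_zero ψ).symm))
  obtain ⟨g, rfl⟩ := Ideal.Quotient.mk_surjective g
  induction g using MvPolynomial.induction_on with
  | C c => exact isAlgebraic_algebraMap (algebraMap O S c)
  | add p q hp hq => exact hp.add hq
  | mul_X p i hp =>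
    obtain ⟨_ | _, k, l⟩ := i
    exacts [hp.mul (isAlgebraic_algebraMap (⟨_, hB k l⟩ : S)), hp.mul (hA k l)]

end Pool.Agent.P.MP_e7d440_ag.G
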