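import Pool.Agent.P.MP_e7d440_ag.G.IfaceB

/-! Step LINE. -/

set_option autoImplicit false
set_option linter.unusedSectionVars false

namespace Pool.Agent.P.MP_e7d440_ag.G

open Matrix

theorem p_LINE :
    S_LINE := by
  refine ⟨fun {n K} _ _ S x e h g hg => ?_, fun {n K} _ x e hx => ?_⟩
  · have h1 : ∀ u : K, Polynomial.eval u (MvPolynomial.aeval (fun p : Fin n × Fin n =>
        Polynomial.C (x p.1 p.2) + Polynomial.C (e p.1 p.2) * Polynomial.X) g) =
        MvPolynomial.eval (ent (x + u • e)) g := fun u => by
      clear hg
      induction g using MvPolynomial.induction_on with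
      | C a => simp
      | add p q hp hq => simp only [map_add, Polynomial.eval_add, hp, hq]
      | mul_X p i hp => simp [hp, mul_comm u]
    have h2 := h1 0
    rw [Polynomial.eq_zero_of_infinite_isRoot _ ((h.infinite_compl).mono fun u hu =>
      (h1 u).trans (hg _ (not_not.1 hu)))] at h2
    simpa using h2.symm
  · have h1 : ∀ u : K, Polynomial.eval u (x.map Polynomial.C +
        (Polynomial.X : Polynomial K) • e.map Polynomial.C).det = (x + u • e).det := fun u => by
      rw [← Polynomial.coe_evalRingHom, RingHom.map_det]
      congr 1
      ext i j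
      simp [mul_comm u]
    refine (Polynomial.finite_setOfPred_isRoot fun h => hx ?_).subset fun u hu => (h1 u).trans hu
    have h2 := h1 0
    rw [h] at h2
    simpa using h2.symm

end Pool.Agent.P.MP_e7d440_ag.G
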