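import Pool.Agent.P.MP_e7d440_ag.G.IfaceA

/-! Step MAIN. -/

set_option autoImplicit false
set_option linter.unusedSectionVars false

namespace Pool.Agent.P.MP_e7d440_ag.G

open IsLocalRing Polynomial

namespace MAINx

theorem ind {Q : Type} [CommRing Q] [IsNoetherianRing Q] (Y : Ideal Q → Prop)
    (h : ∀ P : Ideal Q, P.IsPrime → (∀ P' : Ideal Q, P'.IsPrime → P' < P → Y P') → Y P) :
    ∀ P : Ideal Q, P.IsPrime → Y P := by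
  have key : ∀ (n : ℕ) (P : Ideal Q), P.IsPrime → P.height = n → Y P := by
    intro n
    induction n using Nat.strong_induction_on with
    | _ n ih =>
      intro P hP hn
      refine h P hP fun P' hP' hlt => ?_
      have h1 : P'.height < P.height := Ideal.height_strict_mono_of_isPrime hlt
      obtain ⟨m, hm⟩ := ENat.ne_top_iff_exists.1 (ne_top_of_lt h1)
      rw [hn, ← hm] at h1
      exact ih m (by exact_mod_cast h1) P' hP' hm.symm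
  intro P hP
  obtain ⟨m, hm⟩ := ENat.ne_top_iff_exists.1 (Ideal.height_ne_top hP.ne_top)
  exact key m P hP hm.symm

end MAINx

theorem p_MAIN (hSAT : S_SAT) (hBIR : S_BIR) :
    S_MAIN := by
  intro Q ι _ _ φ F δ hφ hF hmv hfix 𝔭 h𝔭
  refine MAINx.ind (fun 𝔭 => 𝔭 ∈ F → ∀ 𝔮 : Ideal Q, 𝔮.IsPrime → 𝔭 ≤ 𝔮 → δ ∉ 𝔮 → GoodQ 𝔭 𝔮)
    ?_ 𝔭 (hF 𝔭 h𝔭) h𝔭
  intro 𝔭 hp ihp h𝔭
  refine MAINx.ind (fun 𝔮 => 𝔭 ≤ 𝔮 → δ ∉ 𝔮 → GoodQ 𝔭 𝔮) ?_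
  intro 𝔮 hq ihq hle hδ
  by_cases hall : ∀ i, mv (φ i) 𝔮 = 𝔮
  · exact hfix 𝔭 h𝔭 𝔮 hq hle hδ hall
  obtain ⟨i, hi⟩ := not_forall.1 hall
  have hlt : mv (φ i) 𝔮 < 𝔮 := lt_of_le_of_ne (mv_le (hφ i) 𝔮) hi
  have hδ' : δ ∉ mv (φ i) 𝔮 := fun h => hδ (hlt.le h)
  by_cases he : mv (φ i) 𝔭 = 𝔭
  · exact hSAT Q (φ i) 𝔭 𝔮 (hφ i) hp hq hle he
      (ihq _ (mv_prime _ hq) hlt (he.ge.trans (mv_mono _ hle)) hδ')
  · obtain ⟨hm, c, d, hc, hcd⟩ := (hmv 𝔭 h𝔭 i).resolve_left he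
    exact hBIR Q (φ i) 𝔭 𝔮 c d (hφ i) hp hq hle hc hcd hi
      (ihp _ (mv_prime _ hp) (lt_of_le_of_ne (mv_le (hφ i) 𝔭) he) hm _ (mv_prime _ hq)
        (mv_mono _ hle) hδ')
      fun 𝔮' h1 h2 h3 => ihq 𝔮' h1 h3 h2 fun h => hδ (h3.le h)

end Pool.Agent.P.MP_e7d440_ag.G
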