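import Pool.Agent.P.MP_e7d440_ag.G.IfaceA

/-! Step MONIC. -/

set_option autoImplicit false
set_option linter.unusedSectionVars false

namespace Pool.Agent.P.MP_e7d440_ag.G

open IsLocalRing Polynomial

theorem p_MONIC :
    S_MONIC := by
  intro A _ _ g hg
  rw [← ker_residue, ← ker_mapRingHom] at hg ⊢
  obtain ⟨u, hu⟩ := residue_surjective (g.map (residue A)).leadingCoeff⁻¹
  obtain ⟨h, h1, -, h2⟩ := lifts_and_natDegree_eq_and_monic
    ((mem_lifts (f := residue A) _).2 (map_surjective _ residue_surjective _))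
    (monic_mul_leadingCoeff_inv (p := g.map (residue A)) hg)
  refine ⟨h, u, h2, ?_⟩
  rw [RingHom.mem_ker, coe_mapRingHom, Polynomial.map_sub, h1, Polynomial.map_mul, map_C, hu,
    mul_comm, sub_self]

end Pool.Agent.P.MP_e7d440_ag.G
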