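import Pool.Agent.P.MP_e7d440_ag.G.IfaceC

/-! Step NMN. -/

set_option autoImplicit false
set_option linter.unusedSectionVars false

namespace Pool.Agent.P.MP_e7d440_ag.G

open Matrix

namespace NMNx

variable {D : Type} [CommRing D] [IsDomain D] {n : ℕ}

theorem cancel {A B Y Z : Mat n D} {c : D} (hc : c ≠ 0) (h : B * A = c • (1 : Mat n D))
    (e : A * Y = A * Z) : Y = Z := by
  have h1 : c • Y = c • Z := by
    rw [← Matrix.one_mul Y, ← Matrix.one_mul Z, ← Matrix.smul_mul, ← Matrix.smul_mul, ← h,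
      Matrix.mul_assoc, Matrix.mul_assoc, e]
  ext k j
  exact mul_left_cancel₀ hc (congrFun (congrFun h1 k) j)

theorem patinv {A Y : Mat n D} {c : D} {s : ℕ} (hc : c ≠ 0) (h : A * Y = c • (1 : Mat n D))
    (hA : ∀ k j : Fin n, k.val < s → s ≤ j.val → A k j = 0) (k j : Fin n) (hk : k.val < s)
    (hj : s ≤ j.val) : Y k j = 0 := by
  let K := FractionRing D
  let f := algebraMap D K
  have hf : Function.Injective f := IsFractionRing.injective D K
  have hc' : f c ≠ 0 := fun h0 => hc (hf (h0.trans (map_zero f).symm))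
  have h1 : A.map f * ((f c)⁻¹ • Y.map f) = 1 := by
    rw [Matrix.mul_smul, ← Matrix.map_mul, h]
    ext i l
    simp only [Matrix.smul_apply, Matrix.map_apply, Matrix.one_apply, smul_eq_mul]
    split_ifs
    · rw [mul_one, inv_mul_cancel₀ hc']
    · rw [mul_zero, map_zero, mul_zero]
  have hb : (A.map f).BlockTriangular (fun i : Fin n => if i.val < s then 1 else 0) := by
    intro i l hil
    rw [Matrix.map_apply, hA i l, map_zero]
    · by_contra h0; simp [h0] at hil
    · by_contra h0
      rw [not_le] at h0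
      simp only [h0, if_true] at hil
      split_ifs at hil <;> omega
  let _ := invertibleOfRightInverse _ _ h1
  have h2 := blockTriangular_inv_of_blockTriangular hb (i := k) (j := j)
    (by simp [hk, not_lt.2 hj])
  rw [Matrix.inv_eq_right_inv h1, Matrix.smul_apply, smul_eq_mul, Matrix.map_apply] at h2
  exact hf (((mul_eq_zero.1 h2).resolve_left (inv_ne_zero hc')).trans (map_zero f).symm)

theorem tri (a b P Q : Mat n D) :
    a * P * b * (adjugate b * Q * adjugate a) = b.det • (a * (P * Q) * adjugate a) := by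
  calc _ = a * P * (b * adjugate b) * Q * adjugate a := by simp only [Matrix.mul_assoc]
    _ = _ := by
      rw [mul_adjugate]
      simp only [Matrix.mul_smul, Matrix.smul_mul, Matrix.mul_one, Matrix.mul_assoc]

theorem tri' (a b P Q : Mat n D) :
    adjugate b * Q * adjugate a * (a * P * b) = a.det • (adjugate b * (Q * P) * b) := by
  calc _ = adjugate b * Q * (adjugate a * a) * P * b := by simp only [Matrix.mul_assoc]
    _ = _ := by
      rw [adjugate_mul]
      simp only [Matrix.mul_smul, Matrix.smul_mul, Matrix.mul_one, Matrix.mul_assoc]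

end NMNx

theorem p_NMN :
    S_NMN := by
  intro D _ _ π n r s a b T hπ ha hb hT haT hbT hz
  obtain ⟨x, hx⟩ : ∃ x, x = a * dd n 1 0 r * b := ⟨_, rfl⟩
  obtain ⟨x', hx'⟩ : ∃ x, x = a * dd n 0 1 r * b := ⟨_, rfl⟩
  obtain ⟨y1, hy1⟩ : ∃ y, y = adjugate b * dd n 1 0 r * adjugate a := ⟨_, rfl⟩
  obtain ⟨y, hy⟩ : ∃ y, y = adjugate b * dd n 0 1 r * adjugate a := ⟨_, rfl⟩
  have dT : ∀ u v : D, u ∈ T → v ∈ T → ∀ k j, dd n u v r k j ∈ T := fun u v hu hv k j => by
    rw [dd, diagonal_apply]
    split_ifs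
    exacts [hu, hv, T.zero_mem]
  have xT : ∀ k j, x k j ∈ T := hx ▸ mul_mem' T _ _
    (mul_mem' T _ _ haT (dT _ _ T.one_mem T.zero_mem)) hbT
  have xT' : ∀ k j, x' k j ∈ T := hx' ▸ mul_mem' T _ _
    (mul_mem' T _ _ haT (dT _ _ T.zero_mem T.one_mem)) hbT
  have d1 : dd n 1 π r = dd n 1 0 r + π • dd n 0 1 r := by
    ext k j
    simp only [dd, Matrix.add_apply, Matrix.smul_apply, diagonal_apply]
    split_ifs <;> simp
  have d2 : dd n π 1 r = π • dd n 1 0 r + dd n 0 1 r := by
    ext k j
    simp only [dd, Matrix.add_apply, Matrix.smul_apply, diagonal_apply]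
    split_ifs <;> simp
  have e1 : ∀ k j : Fin n, k.val < s → s ≤ j.val → x k j + π * x' k j = 0 := fun k j hk hj => by
    rw [← hz k j hk hj, d1, Matrix.mul_add, Matrix.add_mul, Matrix.mul_smul, Matrix.smul_mul,
      ← hx, ← hx']
    rfl
  have e2 : ∀ k j : Fin n, k.val < s → s ≤ j.val → π * y1 k j + y k j = 0 := fun k j hk hj => by
    have h := NMNx.tri a b (dd n 1 π r) (dd n π 1 r)
    rw [dd_mul, one_mul, mul_one, dd_self, Matrix.mul_smul, Matrix.smul_mul, Matrix.mul_one,
      mul_adjugate, smul_smul, smul_smul] at h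
    rw [← NMNx.patinv (mul_ne_zero (mul_ne_zero hb hπ) ha) h hz k j hk hj, d2, Matrix.mul_add,
      Matrix.add_mul, Matrix.mul_smul, Matrix.smul_mul, ← hy1, ← hy]
    rfl
  have xy : x * y = 0 := by
    rw [hx, hy, NMNx.tri, dd_mul, one_mul, mul_one, dd_self]; simp
  have yx : y * x = 0 := by
    rw [hx, hy, NMNx.tri', dd_mul, one_mul, mul_one, dd_self]; simp
  have xyx : x * y1 * x = (a.det * b.det) • x := by
    rw [Matrix.mul_assoc, hx, hy1, NMNx.tri', dd_mul, one_mul, mul_zero, Matrix.mul_smul]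
    calc _ = a.det • (a * dd n 1 0 r * (b * adjugate b) * dd n 1 0 r * b) := by
          simp only [Matrix.mul_assoc]
      _ = _ := by
          rw [mul_adjugate, Matrix.mul_smul, Matrix.mul_one, Matrix.smul_mul, Matrix.smul_mul,
            Matrix.mul_assoc a, dd_mul, one_mul, mul_zero, smul_smul]
  obtain ⟨N, hN⟩ : ∃ N : Mat n D, ∀ k j, N k j = if k.val < s ∧ s ≤ j.val then -x' k j else
      if s ≤ k.val ∧ j.val < s then π * x k j else x k j := ⟨Matrix.of fun k j => _, fun _ _ => rfl⟩
  obtain ⟨M, hM⟩ : ∃ M : Mat n D, ∀ k j, M k j = if k.val < s ∧ s ≤ j.val then 0 else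
      if s ≤ k.val ∧ j.val < s then π * y1 k j - y k j else y1 k j :=
    ⟨Matrix.of fun k j => _, fun _ _ => rfl⟩
  have h1 : dd n π 1 s * N = x * dd n π 1 s := by
    ext k j
    rw [dd_mul_apply, mul_dd_apply, hN]
    rcases lt_or_ge k.val s with hk | hk <;> rcases lt_or_ge j.val s with hj | hj
    · simp [hk, hj, not_le.2 hk, not_le.2 hj, mul_comm]
    · simp only [hk, hj, not_lt.2 hj, and_self, if_true, if_false]
      linear_combination -e1 k j hk hj
    · simp [hk, hj, not_lt.2 hk, mul_comm]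
    · simp [hk, hj, not_lt.2 hk, not_lt.2 hj]
  have h2 : π • (dd n π 1 s * M) =
      (π • y1 + (dd n 1 0 s * y - y * dd n 1 0 s)) * dd n π 1 s := by
    ext k j
    rw [Matrix.smul_apply, dd_mul_apply, mul_dd_apply, hM, Matrix.add_apply, Matrix.sub_apply,
      Matrix.smul_apply, dd_mul_apply, mul_dd_apply, smul_eq_mul, smul_eq_mul]
    rcases lt_or_ge k.val s with hk | hk <;> rcases lt_or_ge j.val s with hj | hj
    · simp only [hk, hj, not_le.2 hk, not_le.2 hj, and_false, false_and, if_true, if_false]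
      ring
    · simp only [hk, hj, not_lt.2 hj, and_self, if_true, if_false]
      linear_combination -e2 k j hk hj
    · simp only [hk, hj, not_lt.2 hk, and_self, false_and, if_true, if_false]
      ring
    · simp only [hk, hj, not_lt.2 hk, not_lt.2 hj, and_false, false_and, if_false]
      ring
  refine ⟨N, M, fun k j => ?_, by rw [h1, hx], ?_⟩
  · rw [hN]
    split_ifs
    exacts [T.neg_mem (xT' k j), T.mul_mem hT (xT k j), xT k j]
  · have h3 : dd n 1 π s * (π • dd n π 1 s) = (π * π) • (1 : Mat n D) := by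
      rw [Matrix.mul_smul, dd_mul, one_mul, mul_one, dd_self, smul_smul]
    refine NMNx.cancel (mul_ne_zero hπ hπ) h3 ?_
    calc π • dd n π 1 s * (N * M * N) = dd n π 1 s * N * (π • M) * N := by
          simp only [Matrix.mul_smul, Matrix.smul_mul, Matrix.mul_assoc]
      _ = x * (π • (dd n π 1 s * M)) * N := by
          rw [h1]; simp only [Matrix.mul_smul, Matrix.mul_assoc]
      _ = x * (π • y1 + (dd n 1 0 s * y - y * dd n 1 0 s)) * x * dd n π 1 s := by
          rw [h2, Matrix.mul_assoc _ x, ← h1]; simp only [Matrix.mul_assoc]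
      _ = (π • (x * y1 * x) + (x * dd n 1 0 s * (y * x) - x * y * dd n 1 0 s * x)) *
            dd n π 1 s := by
          simp only [Matrix.mul_add, Matrix.add_mul, Matrix.mul_sub, Matrix.sub_mul,
            Matrix.mul_smul, Matrix.smul_mul, Matrix.mul_assoc]
      _ = _ := by
          rw [xy, yx, xyx, Matrix.mul_smul, Matrix.smul_mul (π : D) (dd n π 1 s), h1]
          simp only [Matrix.mul_zero, Matrix.zero_mul, sub_zero, add_zero, Matrix.smul_mul]
          rw [smul_comm]

end Pool.Agent.P.MP_e7d440_ag.G
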