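import Pool.Agent.P.MP_e7d440_ag.G.IfaceB

/-! Step ORB. -/

set_option autoImplicit false
set_option linter.unusedSectionVars false

namespace Pool.Agent.P.MP_e7d440_ag.G

open Matrix

namespace ORBx

variable {O : Type} [CommRing O] {n : ℕ}

/-- The pair is a zero of the ideal. -/
def V (I : Ideal (QQ O n)) {Ω : Type} [CommRing Ω] [Algebra O Ω] (a b : Mat n Ω) : Prop :=
  ∀ f ∈ I, ev O a b f = 0

theorem step (hFL : S_FL) {I : Ideal (QQ O n)} {Ω : Type} [CommRing Ω] [Algebra O Ω] (ε : Bool)
    (g : Mat n (Polynomial O)) (hg : ∀ f ∈ I, fl ε g f ∈ I.map Polynomial.C) {a b : Mat n Ω}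
    (h : V I a b) (c : Ω) :
    V I (if ε then g.map (Polynomial.aeval c) * a else a)
      (if ε then b else b * g.map (Polynomial.aeval c)) := fun f hf => by
  rw [← hFL.pts]
  exact hFL.kill _ I c _ h (hg f hf)

theorem el (hFL : S_FL) {I : Ideal (QQ O n)} (hI : ∀ ε i j, Alw i j → mv (rt O ε i j) I = I)
    {Ω : Type} [Field Ω] [Algebra O Ω] {e : Mat n Ω} (he : e ∈ El n Ω) :
    ∀ a b : Mat n Ω, V I a b → V I (e * a) b ∧ V I a (b * e) := by
  induction he using Submonoid.closure_induction with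
  | mem e he =>
    obtain ⟨i, j, c, hij, rfl⟩ := he
    intro a b h
    have h1 := step hFL true _ (fun f hf => mem_mv.mp ((hI true i j hij).ge hf)) h c
    have h2 := step hFL false _ (fun f hf => mem_mv.mp ((hI false i j hij).ge hf)) h c
    rw [hFL.tv] at h1 h2
    exact ⟨h1, h2⟩
  | one => intro a b h; rw [one_mul, mul_one]; exact ⟨h, h⟩
  | mul e e' _ _ ih ih' =>
    intro a b h
    rw [mul_assoc, ← mul_assoc b]
    exact ⟨(ih _ _ (ih' _ _ h).1).1, (ih' _ _ (ih _ _ h).2).2⟩

theorem dmap (i : Fin n) {Ω : Type} [CommRing Ω] [Algebra O Ω] (c : Ω) :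
    (diagonal (Function.update 1 i (Polynomial.X : Polynomial O)) : Mat n (Polynomial O)).map
      (Polynomial.aeval c) = diagonal (Function.update 1 i c) := by
  rw [diagonal_map (map_zero _)]
  congr 1
  funext k
  by_cases h : k = i
  · subst h; simp
  · simp [Function.update_of_ne h]

theorem dmem (hBOR : S_BOR) (hFL : S_FL) (μ : Mat n O) {K : Type} [Field K] [Infinite K]
    [Algebra O K] {S : Set (Mat n K)} (hS : BB S) (ε : Bool) (i : Fin n) :
    ∀ f ∈ pp μ S, fl ε (diagonal (Function.update 1 i (Polynomial.X : Polynomial O))) f ∈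
      (pp μ S).map Polynomial.C := by
  intro f hf
  refine hFL.mem μ S _ fun a b ha hb hab c hc => ?_
  rw [hFL.pts, dmap]
  have hD : Bor (diagonal (Function.update 1 i c) : Mat n K) := hBOR.ofDiag _ fun k => by
    by_cases h : k = i
    · subst h; simpa using hc
    · simp [Function.update_of_ne h]
  cases ε with
  | true =>
    refine hf _ b ?_ hb ?_
    · simp only [if_true, det_mul]; exact mul_ne_zero hD.1 ha
    · have := ((hS _ hab).2 _ hD).1
      simpa only [tri, if_true, mul_assoc] using this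
  | false =>
    refine hf a _ ha ?_ ?_
    · simp only [Bool.false_eq_true, if_false, det_mul]; exact mul_ne_zero hb hD.1
    · have := ((hS _ hab).2 _ hD).2
      simpa only [tri, Bool.false_eq_true, if_false, mul_assoc] using this

theorem dg (hBOR : S_BOR) (hFL : S_FL) (μ : Mat n O) {K : Type} [Field K] [Infinite K]
    [Algebra O K] {S : Set (Mat n K)} (hS : BB S) {Ω : Type} [CommRing Ω] [Algebra O Ω]
    (d : Fin n → Ω) (a b : Mat n Ω) (h : V (pp μ S) a b) :
    V (pp μ S) (diagonal d * a) b ∧ V (pp μ S) a (b * diagonal d) := by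
  have key : ∀ s : Finset (Fin n),
      V (pp μ S) (diagonal (fun k => if k ∈ s then d k else 1) * a) b ∧
        V (pp μ S) a (b * diagonal fun k => if k ∈ s then d k else 1) := by
    intro s
    induction s using Finset.induction_on with
    | empty => simpa using h
    | insert i s hi ih =>
      have e : (fun k => if k ∈ insert i s then d k else 1) =
          fun k => Function.update (1 : Fin n → Ω) i (d i) k * if k ∈ s then d k else 1 := by
        funext k
        by_cases hk : k = i
        · subst hk; simp [hi]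
        · simp [Function.update_of_ne hk, hk]
      have h1 := step hFL true _ (dmem hBOR hFL μ hS true i) ih.1 (d i)
      have h2 := step hFL false _ (dmem hBOR hFL μ hS false i) ih.2 (d i)
      rw [dmap] at h1 h2
      simp only [if_true, Bool.false_eq_true, if_false] at h1 h2
      rw [← mul_assoc, diagonal_mul_diagonal] at h1
      rw [mul_assoc, diagonal_mul_diagonal] at h2
      rw [e]
      refine ⟨h1, ?_⟩
      simpa only [mul_comm] using h2
  simpa using key Finset.univ

end ORBx

open ORBx in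
theorem p_ORB (hBOR : S_BOR) (hGEN : S_GEN) (hFL : S_FL) :
    S_ORB := by
  intro O _ n μ K _ _ _ S 𝔮 Ω _ _ a₀ b₀ hS hle hmv ha₀ hb₀ h0 a b ha hb
  have hu : ∀ {x : Mat n Ω}, x.det ≠ 0 → x⁻¹.det ≠ 0 := fun {x} hx => by
    rw [det_nonsing_inv, Ring.inverse_eq_inv']; exact inv_ne_zero hx
  obtain ⟨d, e, -, he, h1⟩ := (hGEN n Ω (a * a₀⁻¹)
    (by rw [det_mul]; exact mul_ne_zero ha (hu ha₀))).1
  obtain ⟨d', e', -, he', h2⟩ := (hGEN n Ω (b₀⁻¹ * b)
    (by rw [det_mul]; exact mul_ne_zero (hu hb₀) hb)).2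
  have ea : a = diagonal d * (e * a₀) := by
    rw [← mul_assoc, ← h1, nonsing_inv_mul_cancel_right _ _ (Ne.isUnit ha₀)]
  have eb : b = b₀ * e' * diagonal d' := by
    rw [mul_assoc, ← h2, mul_nonsing_inv_cancel_left _ _ (Ne.isUnit hb₀)]
  have v1 : V 𝔮 (e * a₀) (b₀ * e') := (el hFL hmv he' _ _ (el hFL hmv he _ _ h0).1).2
  have v2 : V (pp μ S) (e * a₀) (b₀ * e') := fun f hf => v1 f (hle hf)
  rw [ea, eb]
  exact (dg hBOR hFL μ hS d' _ _ (dg hBOR hFL μ hS d _ _ v2).1).2

end Pool.Agent.P.MP_e7d440_ag.G
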