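import Pool.Agent.P.MP_e7d440_ag.G.IfaceA

/-! Step PC. -/

set_option autoImplicit false
set_option linter.unusedSectionVars false

namespace Pool.Agent.P.MP_e7d440_ag.G

open IsLocalRing Polynomial

namespace PCx

theorem snoc {Q : Type} [CommRing Q] {l : List Q} {x : Q} (h : RegSeq ⊥ l)
    (hx : NZD (Ideal.ofList l) x) : RegSeq ⊥ (l ++ [x]) :=
  (basic.regAppend ⊥ l [x]).2 ⟨h, by rw [bot_sup_eq]; exact ⟨hx, trivial⟩⟩

theorem loc {Q : Type} [CommRing Q] (P : Ideal Q) [P.IsPrime] {l : List Q} (hm : ∀ t ∈ l, t ∈ P)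
    (h : RegSeq ⊥ l) :
    (∀ t ∈ l.map (algebraMap Q (Localization.AtPrime P)), t ∈ maximalIdeal _) ∧
      RegSeq ⊥ (l.map (algebraMap Q (Localization.AtPrime P))) := by
  constructor
  · intro t ht
    obtain ⟨s, hs, rfl⟩ := List.mem_map.1 ht
    exact (IsLocalization.AtPrime.to_map_mem_maximal_iff _ P s).2 (hm s hs)
  · have := BasicA.regLoc (R := Localization.AtPrime P) P.primeCompl h
    rwa [Ideal.map_bot] at this

theorem notAss (hDEPTH : S_DEPTH) {Q : Type} [CommRing Q] [IsNoetherianRing Q] (P : Ideal Q)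
    [P.IsPrime] {l : List Q} (hm : ∀ t ∈ l, t ∈ P) (h : RegSeq ⊥ l)
    {l' : List (Localization.AtPrime P)} (hm' : ∀ t ∈ l', t ∈ maximalIdeal _) (h' : RegSeq ⊥ l')
    (hl : l.length < l'.length) : ¬ Ass (Ideal.ofList l) P := by
  rintro ⟨-, g, hg⟩
  have := hDEPTH _ l' _ hm' (loc P hm h).1 h' (loc P hm h).2 (by rwa [List.length_map])
    (algebraMap Q _ g) fun t ht => by
      rw [← Localization.AtPrime.map_eq_maximalIdeal] at ht
      refine (Ideal.map_le_iff_le_comap (K := Submodule.comap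
        (LinearMap.toSpanSingleton _ _ (algebraMap Q (Localization.AtPrime P) g))
        (Ideal.ofList (l.map (algebraMap Q (Localization.AtPrime P)))))).2 (fun r hr => ?_) ht
      change algebraMap Q (Localization.AtPrime P) r * algebraMap Q _ g ∈ Ideal.ofList _
      rw [← map_mul, ← Ideal.map_ofList]
      exact Ideal.mem_map_of_mem _ ((hg r).1 hr)
  rw [← Ideal.map_ofList, IsLocalization.algebraMap_mem_map_algebraMap_iff P.primeCompl] at this
  obtain ⟨s, hs, hs'⟩ := this
  exact hs ((hg s).2 hs')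

end PCx

theorem p_PC (hDEPTH : S_DEPTH) (hPI : S_PI) (hPX : S_PX) (hDIMX : S_DIMX) (hDIMH : S_DIMH) :
    S_PC := by
  intro A K _ _ _ _ _ _ _ _ τ h η _ hF ⟨l, lm, lr, ld⟩ hle hh ⟨y, hyη, hy⟩ hξ
  have := noethRR A τ
  have hd := (hDIMH A K τ η).trans ld
  rcases Nat.eq_zero_or_pos l.length with h0 | h0
  · exact ⟨[], by simp, trivial, by simpa [h0] using hd⟩
  have := hPX.prime τ hF
  obtain ⟨l', lm', lr', ld'⟩ := hξ _ rfl
  have he : l.length ≤ l'.length + 1 := by
    have := (hDIMX A K τ l hF lm lr _ rfl).trans (add_le_add_left ld' 1)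
    exact_mod_cast this
  have hmem : ∀ lj : List A, (∀ t ∈ lj, t ∈ maximalIdeal A) →
      ∀ t ∈ lj.map (algebraMap A (RR A τ)), t ∈ ext τ (maximalIdeal A) := fun lj hm t ht => by
    obtain ⟨s, hs, rfl⟩ := List.mem_map.1 ht
    exact Ideal.mem_map_of_mem _ (hm s hs)
  have noP : ∀ lj : List A, (∀ t ∈ lj, t ∈ maximalIdeal A) → RegSeq ⊥ lj → lj.length < l.length →
      ∀ h' : A[X], h'.Monic → PP τ h' (Ideal.ofList lj) → ∀ P, Ass (ext τ (Ideal.ofList lj)) P →
      ext τ (maximalIdeal A) ≤ P → ∀ y ∈ P, (y : K) ≠ aeval τ h' := by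
    rintro lj hm hr hl h' hh' hP P ⟨hp, g, hg⟩ hle y hyP hy
    have := hPI.noass τ h' _ _ hh' (hPX.notMem τ hF h' hh').1 hP (hDEPTH A l lj lm hm lr hr hl)
      g y hy ((hg y).1 hyP) fun t ht => (hg _).1 (hle (Ideal.mem_map_of_mem _ ht))
    exact hp.ne_top ((Ideal.eq_top_iff_one _).2 ((hg 1).2 (by rwa [one_mul])))
  have ind : ∀ j, j < l.length → ∃ lj : List A, lj.length = j ∧ (∀ t ∈ lj, t ∈ maximalIdeal A) ∧
      RegSeq ⊥ lj ∧ RegSeq ⊥ (lj.map (algebraMap A (RR A τ))) ∧
      ∀ h' : A[X], h'.Monic → PP τ h' (Ideal.ofList lj) := by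
    intro j
    induction j with
    | zero =>
      exact fun _ => ⟨[], rfl, by simp, trivial, trivial, fun h' _ => by
        rw [Ideal.ofList_nil]; exact hPI.zero τ h'⟩
    | succ j ih =>
      intro hj
      obtain ⟨lj, hl, hm, hr, hr', hP⟩ := ih (by omega)
      obtain ⟨x, hx, hx'⟩ := BasicA.avoid ((basic.assFin (Ideal.ofList lj)).union
        ((basic.assFin (ext τ (Ideal.ofList lj))).image (Ideal.comap (algebraMap A (RR A τ)))))
        (by
          rintro P (hP | ⟨P, hP, rfl⟩)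
          · exact hP.1
          · exact hP.1.comap _) (𝔟 := maximalIdeal A) (by
          rintro P (⟨hp, g, hg⟩ | ⟨P, hA, rfl⟩) hle
          · have := hDEPTH A l lj lm hm lr hr (by omega) g fun t ht => (hg t).1 (hle ht)
            exact hp.ne_top ((Ideal.eq_top_iff_one _).2 ((hg 1).2 (by rwa [one_mul])))
          · have hle' : ext τ (maximalIdeal A) ≤ P := Ideal.map_le_iff_le_comap.2 hle
            rcases hle'.eq_or_lt with c | c
            · subst c
              refine PCx.notAss hDEPTH _ (hmem lj hm) hr' lm' lr' ?_ ?_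
              · rw [List.length_map]; omega
              · rwa [← Ideal.map_ofList]
            · obtain ⟨h', hh', y, hyP, hy⟩ := hPX.monic τ hF P c
              exact noP lj hm hr (by omega) h' hh' (hP h' hh') P hA hle' y hyP hy)
      have n2 : NZD (ext τ (Ideal.ofList lj)) (algebraMap A (RR A τ) x) :=
        basic.nzdIff.2 fun P hP => hx' _ (Or.inr ⟨P, hP, rfl⟩)
      refine ⟨lj ++ [x], by simp [hl], ?_,
        PCx.snoc hr (basic.nzdIff.2 fun P hP => hx' P (Or.inl hP)), ?_, fun h' hh' => ?_⟩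
      · intro t ht
        rcases List.mem_append.1 ht with c | c
        · exact hm t c
        · rw [List.mem_singleton.1 c]; exact hx
      · rw [List.map_append]
        exact PCx.snoc hr' (by rwa [← Ideal.map_ofList])
      · rw [Ideal.ofList_append, Ideal.ofList_singleton]
        exact hPI.step τ h' _ x hh' (hPX.notMem τ hF h' hh').1 (hP h' hh') n2
  obtain ⟨lj, hl, hm, hr, hr', hP⟩ := ind (l.length - 1) (by omega)
  obtain ⟨z, hz, hz'⟩ := BasicA.avoid (basic.assFin (ext τ (Ideal.ofList lj)))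
    (fun _ hP => hP.1) (𝔟 := η) fun P hA c =>
      noP lj hm hr (by omega) h hh (hP h hh) P hA (hle.trans c) y (c hyη) hy
  have := PCx.loc η (l := lj.map (algebraMap A (RR A τ)) ++ [z]) (fun t ht => by
    rcases List.mem_append.1 ht with c | c
    · exact hle (hmem lj hm t c)
    · rw [List.mem_singleton.1 c]; exact hz)
    (PCx.snoc hr' (by rw [← Ideal.map_ofList]; exact basic.nzdIff.2 hz'))
  refine ⟨_, this.1, this.2, hd.trans (le_of_eq ?_)⟩
  congr 1
  simp only [List.length_map, List.length_append, List.length_singleton, hl]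
  omega

end Pool.Agent.P.MP_e7d440_ag.G
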