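import Pool.Agent.P.MP_e7d440_ag.G.IfaceA

/-! Step PD. -/

set_option autoImplicit false
set_option linter.unusedSectionVars false

namespace Pool.Agent.P.MP_e7d440_ag.G

open IsLocalRing Polynomial

theorem PDx.mem {A K : Type} [CommRing A] [Field K] [Algebra A K] {τ : K} {𝔞 : Ideal A}
    {r : RR A τ} : r ∈ ext τ 𝔞 ↔ r ∈ 𝔞 • (⊤ : Submodule A (RR A τ)) := by
  rw [Ideal.smul_top_eq_map]; rfl

theorem p_PD :
    S_PD := by
  constructor
  · rintro A K _ _ _ τ h 𝔞 y k hm h0 ⟨r, hr, e⟩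
    have hH : aeval τ h ^ k ≠ 0 := pow_ne_zero k h0
    obtain rfl : y = r / aeval τ h ^ k := eq_div_of_mul_eq hH e
    clear e
    refine Submodule.smul_induction_on (PDx.mem.1 hr) (fun a ha r' _ => ?_) ?_
    · obtain ⟨g, hg⟩ := memRR.1 r'.2
      refine ⟨a • ⟨aeval τ (g /ₘ h ^ k), memRR.2 ⟨_, rfl⟩⟩,
        PDx.mem.2 (Submodule.smul_mem_smul ha trivial), ?_⟩
      have e1 := congrArg (aeval τ) (modByMonic_add_div g (h ^ k))
      rw [map_add, map_mul, map_pow, hg] at e1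
      have e2 : ((a • r' : RR A τ) : K) / aeval τ h ^ k - a • aeval τ (g /ₘ h ^ k) =
          a • (aeval τ (g %ₘ h ^ k) / aeval τ h ^ k) := by
        rw [Subalgebra.coe_smul, ← e1]
        simp only [Algebra.smul_def]
        field_simp
        ring
      refine e2 ▸ Submodule.smul_mem_smul ha ⟨k, g %ₘ h ^ k, ?_, div_mul_cancel₀ _ hH⟩
      rw [← hm.natDegree_pow]
      exact natDegree_modByMonic_le g (hm.pow k)
    · rintro x x' ⟨r1, h1, e1⟩ ⟨r2, h2, e2⟩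
      refine ⟨r1 + r2, add_mem h1 h2, ?_⟩
      have := add_mem e1 e2
      rwa [sub_add_sub_comm, ← add_div, ← Subalgebra.coe_add, ← Subalgebra.coe_add] at this
  · intro A K _ _ _ τ h 𝔞 y hy
    refine Submodule.smul_induction_on hy ?_ ?_
    · rintro a ha n ⟨k, g, -, e⟩
      refine ⟨k, a • ⟨aeval τ g, memRR.2 ⟨_, rfl⟩⟩,
        PDx.mem.2 (Submodule.smul_mem_smul ha trivial), ?_⟩
      rw [smul_mul_assoc, e]; rfl
    · rintro x x' ⟨k, r1, h1, e1⟩ ⟨k', r2, h2, e2⟩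
      let H : RR A τ := ⟨aeval τ h, memRR.2 ⟨_, rfl⟩⟩
      refine ⟨k + k', r1 * H ^ k' + r2 * H ^ k,
        add_mem (Ideal.mul_mem_right _ _ h1) (Ideal.mul_mem_right _ _ h2), ?_⟩
      simp only [Subalgebra.coe_add, Subalgebra.coe_mul, Subalgebra.coe_pow, ← e1, ← e2, H]
      ring

end Pool.Agent.P.MP_e7d440_ag.G
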