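import Pool.Agent.P.MP_e7d440_ag.G.IfaceA

/-! Step PI. -/

set_option autoImplicit false
set_option linter.unusedSectionVars false

namespace Pool.Agent.P.MP_e7d440_ag.G

open IsLocalRing Polynomial

namespace PIx

theorem inter (hPV : S_PV) {A K : Type} [CommRing A] [IsDomain A] [IsIntegrallyClosed A] [Field K]
    [Algebra A K] [IsFractionRing A K] {τ : K} {h : A[X]} (hh : h.Monic) (c : RR A τ)
    (hc : (c : K) ∈ NN τ h) : ∃ a, algebraMap A K a = c :=
  hPV.c1 τ h c hh hc (isIntegral_algebraMap (R := RR A τ) (x := c))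

theorem coe_alg {A K : Type} [CommRing A] [Field K] [Algebra A K] (τ : K) (x : A) :
    ((algebraMap A (RR A τ) x : RR A τ) : K) = algebraMap A K x := rfl

end PIx

theorem p_PI (hPV : S_PV) (hPD : S_PD) :
    S_PI := by
  refine ⟨fun τ h y hy _ => ?_, fun {A K} _ _ _ _ _ _ τ h 𝔞 x hh h0 hP hx y hy hy' => ?_,
    fun {A K} _ _ _ _ _ _ τ h 𝔞 𝔪 hh h0 hP hm g y hy hyg ht => ?_⟩
  · rw [ext, Ideal.map_bot, Ideal.mem_bot] at hy
    exact ⟨0, Submodule.zero_mem _, by simp [hy]⟩
  · rw [ext, Ideal.map_sup, Ideal.map_span, Set.image_singleton] at hy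
    obtain ⟨a1, ha1, z, hz, e1⟩ := Submodule.mem_sup.1 hy
    obtain ⟨r, rfl⟩ := Ideal.mem_span_singleton'.1 hz
    rw [Submodule.sup_smul, Submodule.ideal_span_singleton_smul] at hy'
    obtain ⟨a2, ha2, z, hz, e2⟩ := Submodule.mem_sup.1 hy'
    obtain ⟨ν, hν, rfl⟩ := (Submodule.mem_smul_pointwise_iff_exists _ _ _).1 hz
    obtain ⟨k, g, -, e3⟩ := memNN.1 hν
    obtain ⟨k', r', hr', e4⟩ := hPD.conv τ h 𝔞 a2 ha2
    have e1' : (a1 : K) + r * algebraMap A K x = y := by rw [← e1]; rfl
    rw [Algebra.smul_def] at e2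
    let H : RR A τ := ⟨aeval τ h, memRR.2 ⟨h, rfl⟩⟩
    let G : RR A τ := ⟨aeval τ g, memRR.2 ⟨g, rfl⟩⟩
    have hw : r * H ^ (k + k') - G * H ^ k' ∈ ext τ 𝔞 := by
      refine hx _ ?_
      have e : algebraMap A (RR A τ) x * (r * H ^ (k + k') - G * H ^ k') =
          r' * H ^ k - a1 * H ^ (k + k') := by
        apply Subtype.ext
        change algebraMap A K x * ((r : K) * aeval τ h ^ (k + k') - aeval τ g * aeval τ h ^ k') =
          (r' : K) * aeval τ h ^ k - (a1 : K) * aeval τ h ^ (k + k')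
        rw [← e3, ← e4]
        linear_combination aeval τ h ^ (k + k') * (e1' - e2)
      rw [e]
      exact Ideal.sub_mem _ (Ideal.mul_mem_right _ _ hr') (Ideal.mul_mem_right _ _ ha1)
    obtain ⟨b, hb, hb'⟩ := hPD.split τ h 𝔞 (r - ν) (k + k') hh h0 ⟨_, hw, by
      change _ = (r : K) * aeval τ h ^ (k + k') - aeval τ g * aeval τ h ^ k'
      rw [← e3]; ring⟩
    obtain ⟨c, hc⟩ := PIx.inter hPV hh (r - b) (by
      have e : ((r - b : RR A τ) : K) = (r - ν - b) + ν := by
        change (r : K) - b = _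
        ring
      rw [e]
      exact Submodule.add_mem _ (Submodule.smul_le_right hb') hν)
    change _ = (r : K) - b at hc
    obtain ⟨a0, ha0, e5⟩ := hP (a1 + algebraMap A (RR A τ) x * b)
      (Ideal.add_mem _ ha1 (Ideal.mul_mem_left _ _ hb)) (by
        have e : ((a1 + algebraMap A (RR A τ) x * b : RR A τ) : K) = a2 - x • ((r : K) - ν - b) := by
          change (a1 : K) + algebraMap A K x * b = _
          rw [Algebra.smul_def]
          linear_combination e1' - e2
        rw [e]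
        exact Submodule.sub_mem _ ha2 (Submodule.smul_mem _ _ hb'))
    change _ = (a1 : K) + algebraMap A K x * b at e5
    refine ⟨a0 + c * x, Submodule.add_mem_sup ha0 (Ideal.mem_span_singleton'.2 ⟨c, rfl⟩), ?_⟩
    rw [map_add, map_mul, e5, hc, ← e1']
    ring
  · obtain ⟨r, hr, hr'⟩ := hPD.split τ h 𝔞 g 1 hh h0 ⟨_, hyg, by
      change _ = (y : K) * g
      rw [hy]; ring⟩
    obtain ⟨a, ha⟩ := PIx.inter hPV hh (g - r) (Submodule.smul_le_right hr')
    have ha' : a ∈ 𝔞 := hm a fun t htm => by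
      obtain ⟨a', h1, h2⟩ := hP (algebraMap A (RR A τ) t * (g - r))
        (by rw [mul_sub]; exact Ideal.sub_mem _ (ht t htm) (Ideal.mul_mem_left _ _ hr)) (by
          have := Submodule.smul_mem _ t hr'
          rwa [Algebra.smul_def t] at this)
      have e : a' = t * a := IsFractionRing.injective A K (by rw [h2, map_mul, ha]; rfl)
      exact e ▸ h1
    have e : g = r + algebraMap A (RR A τ) a := by
      apply Subtype.ext
      change (g : K) = r + algebraMap A K a
      rw [ha]
      change (g : K) = r + (g - r)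
      ring
    rw [e]
    exact Ideal.add_mem _ hr (Ideal.mem_map_of_mem _ ha')

end Pool.Agent.P.MP_e7d440_ag.G
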