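import Pool.Agent.P.MP_e7d440_ag.G.IfaceA

/-! Step PL. -/

set_option autoImplicit false
set_option linter.unusedSectionVars false

namespace Pool.Agent.P.MP_e7d440_ag.G

open IsLocalRing Polynomial

theorem p_PL (hISO : S_ISO) (hPT : S_PT) (hPX : S_PX) (hPN : S_PN) (hPC : S_PC) :
    S_PL := by
  intro A K _ _ _ _ _ _ _ τ h η hA hC hη hle hm hy hG
  have hne : ext τ (maximalIdeal A) ≠ ⊤ := fun e => hη.ne_top (top_le_iff.1 (e ▸ hle))
  rcases hPT A K τ hne with ⟨a, rfl⟩ | hF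
  · have hinj : Function.Injective (algebraMap A (RR A (algebraMap A K a))) := fun x y e =>
      IsFractionRing.injective A K (congrArg Subtype.val e)
    have hsur : ∀ y : RR A (algebraMap A K a), ∃ x, algebraMap A _ x = y := fun y => by
      obtain ⟨g, hg⟩ := memRR.1 y.2
      rw [aeval_algebraMap_apply] at hg
      exact ⟨_, Subtype.ext hg⟩
    have hc : η.comap (algebraMap A (RR A (algebraMap A K a))) = maximalIdeal A :=
      ((maximalIdeal.isMaximal A).eq_of_le (Ideal.comap_isPrime _ η).ne_top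
        (Ideal.map_le_iff_le_comap.1 hle)).symm
    have e := hISO.iso _ η hη hinj fun y => by
      obtain ⟨x, hx⟩ := hsur y
      exact ⟨1, x, by rw [map_one]; exact (Ideal.ne_top_iff_one η).1 hη.ne_top,
        by rw [map_one, one_mul, hx]⟩
    rw [← e, hc, hISO.max]
    exact ⟨hA, hC⟩
  · intro _
    obtain ⟨h0, hn⟩ := hPX.notMem τ hF h hm
    refine ⟨hPN A K τ h η hm h0 hy fun 𝔓 h𝔓 hlt => (@hG 𝔓 h𝔓 hlt h𝔓).1,
      hPC A K τ h η hF hC hle hm hy fun ξ hξ e => (@hG ξ hξ ?_ hξ).2⟩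
    obtain ⟨y, hy1, hy2⟩ := hy
    rw [e]
    exact lt_of_le_of_ne hle fun e' => hn y hy2 (e' ▸ hy1)

end Pool.Agent.P.MP_e7d440_ag.G
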