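import Pool.Agent.P.MP_e7d440_ag.G.IfaceA

/-! Step PN. -/

set_option autoImplicit false
set_option linter.unusedSectionVars false

namespace Pool.Agent.P.MP_e7d440_ag.G

open IsLocalRing Polynomial

namespace PNx

theorem loc_iff {R : Type} (K : Type) [CommRing R] [IsDomain R] [Field K] [Algebra R K]
    [IsFractionRing R K] (P : Ideal R) [P.IsPrime] :
    IsIntegrallyClosed (Localization.AtPrime P) ↔
      ∀ y : K, IsIntegral R y → ∃ s, s ∉ P ∧ ∃ r : R, algebraMap R K r = s • y := by
  let _ : Algebra (Localization.AtPrime P) K :=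
    IsLocalization.localizationAlgebraOfSubmonoidLe _ _ P.primeCompl (nonZeroDivisors R)
      P.primeCompl_le_nonZeroDivisors
  have : IsScalarTower R (Localization.AtPrime P) K :=
    IsLocalization.localization_isScalarTower_of_submonoid_le _ _ P.primeCompl (nonZeroDivisors R)
      P.primeCompl_le_nonZeroDivisors
  have : IsFractionRing (Localization.AtPrime P) K :=
    IsFractionRing.isFractionRing_of_isDomain_of_isLocalization P.primeCompl _ _
  rw [isIntegrallyClosed_iff K]
  constructor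
  · intro H y hy
    obtain ⟨z, hz⟩ := H (hy.tower_top (A := Localization.AtPrime P))
    obtain ⟨⟨r, s⟩, e⟩ := IsLocalization.surj P.primeCompl z
    refine ⟨s, s.2, r, ?_⟩
    have := congrArg (algebraMap (Localization.AtPrime P) K) e
    rw [map_mul, ← IsScalarTower.algebraMap_apply, ← IsScalarTower.algebraMap_apply, hz] at this
    rw [← this, Algebra.smul_def, mul_comm]
  · intro H y hy
    obtain ⟨m, hm⟩ := IsIntegral.exists_multiple_integral_of_isLocalization P.primeCompl y hy
    obtain ⟨s, hs, r, e⟩ := H _ hm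
    refine ⟨IsLocalization.mk' _ r (⟨s, hs⟩ * m : P.primeCompl), ?_⟩
    have h0 : algebraMap R K (s * m) ≠ 0 := by
      rw [Ne, IsFractionRing.to_map_eq_zero_iff]
      exact fun h => (⟨s, hs⟩ * m : P.primeCompl).2 (by
        show s * (m : R) ∈ P
        rw [h]; exact P.zero_mem)
    have := congrArg (algebraMap (Localization.AtPrime P) K)
      (IsLocalization.mk'_spec (Localization.AtPrime P) r (⟨s, hs⟩ * m : P.primeCompl))
    rw [map_mul, ← IsScalarTower.algebraMap_apply, ← IsScalarTower.algebraMap_apply, e] at this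
    refine mul_right_cancel₀ h0 (this.trans ?_)
    rw [Submonoid.smul_def, smul_smul, Algebra.smul_def, mul_comm]

/-- an ideal inside no smaller prime contains a power of every element, locally -/
theorem pow_mem {R : Type} [CommRing R] {D η : Ideal R} [η.IsPrime] {x : R} (hx : x ∈ η)
    (h : ∀ P : Ideal R, P.IsPrime → P < η → ¬ D ≤ P) : ∃ s, s ∉ η ∧ ∃ N : ℕ, s * x ^ N ∈ D := by
  by_contra hc
  have hd : Disjoint (D : Set R) ((η.primeCompl ⊔ Submonoid.powers x : Submonoid R) : Set R) := by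
    rw [Set.disjoint_left]
    intro z hz hz'
    obtain ⟨s, hs, w, ⟨N, rfl⟩, rfl⟩ := Submonoid.mem_sup.1 hz'
    exact hc ⟨s, hs, N, hz⟩
  obtain ⟨P, hP, hDP, hPd⟩ := D.exists_le_prime_disjoint _ hd
  rw [Set.disjoint_left] at hPd
  refine h P hP (lt_of_le_of_ne (fun z hz => ?_) ?_) hDP
  · by_contra hz'
    exact hPd hz (Submonoid.mem_sup_left hz')
  · rintro rfl
    exact hPd hx (Submonoid.mem_sup_right (Submonoid.mem_powers x))

end PNx

theorem p_PN (hPV : S_PV) (hPD : S_PD) :
    S_PN := by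
  intro A K _ _ _ _ _ _ _ τ h η _ hm h0 ⟨x, hx, ex⟩ H
  rw [PNx.loc_iff K]
  intro y hy
  let D : Ideal (RR A τ) :=
    (1 : Submodule (RR A τ) K).comap (LinearMap.toSpanSingleton (RR A τ) K y)
  have hD : ∀ s, s ∈ D ↔ ∃ r : RR A τ, algebraMap (RR A τ) K r = s • y := fun s =>
    Submodule.mem_one
  obtain ⟨s, hs, N, hN⟩ := PNx.pow_mem (D := D) hx (fun P hP hlt hle => by
    obtain ⟨s, hs, hr⟩ := (PNx.loc_iff K P).1 (H P hlt) y hy
    exact hs (hle ((hD s).2 hr)))
  obtain ⟨r, hr⟩ := (hD _).1 hN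
  have ht : ext τ (⊤ : Ideal A) = ⊤ := Ideal.map_top _
  obtain ⟨r', -, hr'⟩ := hPD.split τ h ⊤ (s • y) N hm h0 ⟨r, by rw [ht]; trivial, by
    have e : (r : K) = (s * x ^ N) • y := hr
    rw [e, ← ex, Algebra.smul_def, Algebra.smul_def, map_mul, map_pow]
    show _ * y * (x : K) ^ N = _ * (x : K) ^ N * y
    ring⟩
  rw [Submodule.top_smul] at hr'
  obtain ⟨a, ha⟩ := hPV.c1 τ h _ hm hr'
    ((hy.smul s).sub (isIntegral_algebraMap (x := r')))
  refine ⟨s, hs, r' + algebraMap A (RR A τ) a, ?_⟩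
  rw [map_add, ← IsScalarTower.algebraMap_apply, ha]
  exact add_sub_cancel _ _

end Pool.Agent.P.MP_e7d440_ag.G
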