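import Pool.Agent.P.MP_e7d440_ag.G.IfaceB

/-! Step PPL. -/

set_option autoImplicit false
set_option linter.unusedSectionVars false

namespace Pool.Agent.P.MP_e7d440_ag.G

open Matrix

theorem p_PPL (hBOR : S_BOR) (hBRU : S_BRU) (hFL : S_FL) :
    S_PPL := by
  classical
  refine ⟨?_, ?_, ?_⟩
  · intro O _ n μ K _ _ S S' hμ hS hZ f hf a b ha hb hab
    let M : Mat n K := μ.map (algebraMap O K) * b
    have hM : IsUnit M.det := by
      refine isUnit_iff_ne_zero.2 ?_
      rw [det_mul]
      refine mul_ne_zero ?_ hb
      rwa [RingHom.map_det] at hμ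
    have h1 : ∀ y : Mat n K, tri μ y b = y * M := fun y => mul_assoc _ _ _
    let g : MvPolynomial (Fin n × Fin n) K :=
      ev O ((Matrix.of fun k l => MvPolynomial.X (k, l)) * M⁻¹.map MvPolynomial.C)
        (b.map MvPolynomial.C) f
    have key : ∀ y : Mat n K, MvPolynomial.eval (ent y) g = ev O (y * M⁻¹) b f := fun y => by
      have := comp_ev ((MvPolynomial.aeval (ent y) :
        MvPolynomial (Fin n × Fin n) K →ₐ[K] K).restrictScalars O)
        ((Matrix.of fun k l => MvPolynomial.X (k, l)) * M⁻¹.map MvPolynomial.C)
        (b.map MvPolynomial.C) f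
      refine this.trans ?_
      congr 2
      · ext k l
        simp [mul_apply]
      · ext k l
        simp
    have h2 := hZ hab g fun y hy => by
      rw [key]
      refine hf _ b ?_ hb ?_
      · rw [det_mul]
        exact mul_ne_zero (hS y hy) (isUnit_nonsing_inv_det M hM).ne_zero
      · rwa [h1, nonsing_inv_mul_cancel_right M y hM]
    rwa [key, h1, mul_nonsing_inv_cancel_right M a hM] at h2
  · intro O _ n μ K _ _ S hS hp
    have h1 : (Finset.univ.filter fun w => Cell K w ⊆ S).inf (fun w => pp μ (Cell K w)) ≤
        pp μ S := fun f hf a b ha hb hab => by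
      obtain ⟨w, hw⟩ := hBRU n K _ (hS _ hab).1
      exact Finset.inf_le (f := fun w => pp μ (Cell K w))
        (Finset.mem_filter.2 ⟨Finset.mem_univ w, hBOR.sub hS hab hw⟩) hf a b ha hb hw
    obtain ⟨w, hw, h2⟩ := hp.inf_le'.1 h1
    exact ⟨w, le_antisymm (pp_anti μ (Finset.mem_filter.1 hw).2) h2⟩
  · intro O _ n μ K _ _ _ S ε i j hij
    have hd : ∀ c : K, (transvection i j c).det = 1 := fun c => det_transvection_of_ne i j hij c
    have hm : ∀ c : K, transvection i j c * transvection i j (-c) = 1 := fun c => by
      rw [transvection_mul_transvection_same _ _ hij, add_neg_cancel, transvection_zero]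
    have hm' : ∀ c : K, transvection i j (-c) * transvection i j c = 1 := fun c => by
      rw [transvection_mul_transvection_same _ _ hij, neg_add_cancel, transvection_zero]
    ext f
    rw [mem_mv]
    constructor
    · rintro hf a b ha hb ⟨c, y, hy, e⟩
      cases ε
      · have e' : tri μ a b = y * transvection i j c := e
        have h1 := hFL.kill (ev O a (b * transvection i j (-c))).toRingHom (pp μ S) c _
          (fun f hf => hf a _ ha (by rwa [det_mul, hd, mul_one]) (by
            rwa [tri, ← mul_assoc, ← tri, e', mul_assoc, hm, mul_one])) hf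
        rw [hFL.pts, hFL.tv] at h1
        simpa [mul_assoc, hm'] using h1
      · have e' : tri μ a b = transvection i j c * y := e
        have h1 := hFL.kill (ev O (transvection i j (-c) * a) b).toRingHom (pp μ S) c _
          (fun f hf => hf _ b (by rwa [det_mul, hd, one_mul]) hb (by
            rwa [tri, mul_assoc _ a, mul_assoc _ (a * _), ← tri, e', ← mul_assoc, hm',
              one_mul])) hf
        rw [hFL.pts, hFL.tv] at h1
        simpa [← mul_assoc, hm] using h1
    · intro hf
      refine hFL.mem μ S _ fun a b ha hb hab c _ => ?_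
      rw [hFL.pts, hFL.tv]
      cases ε
      · exact hf a _ ha (by simpa [hd] using hb) ⟨c, _, hab, by simp [act, tri, mul_assoc]⟩
      · exact hf _ b (by simpa [hd] using ha) hb ⟨c, _, hab, by simp [act, tri, mul_assoc]⟩

end Pool.Agent.P.MP_e7d440_ag.G
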