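import Pool.Agent.P.MP_e7d440_ag.G.IfaceA

/-! Step PT. -/

set_option autoImplicit false
set_option linter.unusedSectionVars false

namespace Pool.Agent.P.MP_e7d440_ag.G

open IsLocalRing Polynomial

theorem p_PT (hPV : S_PV) :
    S_PT := by
  classical
  intro A K _ _ _ _ _ _ _ τ hne
  by_contra hcon
  rw [not_or] at hcon
  obtain ⟨h1, h2⟩ := hcon
  unfold Full at h2
  push Not at h2
  obtain ⟨f, hf0, hf⟩ := h2
  rw [Ideal.mem_map_C_iff] at hf
  push Not at hf
  obtain ⟨i0, hi0⟩ := hf
  have hle : ∀ i, f.coeff i ∉ maximalIdeal A → i ≤ f.natDegree := fun i hi =>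
    le_natDegree_of_ne_zero fun h => hi (h ▸ Ideal.zero_mem _)
  set j := Nat.findGreatest (fun i => f.coeff i ∉ maximalIdeal A) f.natDegree with hj
  have hj1 : f.coeff j ∉ maximalIdeal A :=
    Nat.findGreatest_spec (P := fun i => f.coeff i ∉ maximalIdeal A) (hle i0 hi0) hi0
  have hj2 : ∀ i, j < i → f.coeff i ∈ maximalIdeal A := fun i hi => by
    by_contra h
    exact absurd (Nat.le_findGreatest (P := fun i => f.coeff i ∉ maximalIdeal A) (hle i h) h)
      (by omega)
  obtain ⟨n, hn⟩ : ∃ n, f.natDegree + 1 = j + (n + 1) := ⟨f.natDegree - j, by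
    have := hle j hj1; omega⟩
  set u : K := ∑ i ∈ Finset.range (n + 1), algebraMap A K (f.coeff (j + i)) * τ ^ i with hu
  have key : ∑ i ∈ Finset.range j, algebraMap A K (f.coeff i) * τ ^ i + u * τ ^ j = 0 := by
    rw [aeval_eq_sum_range, hn, Finset.sum_range_add] at hf0
    rw [← hf0, hu, Finset.sum_mul]
    congr 1
    · exact Finset.sum_congr rfl fun i _ => (Algebra.smul_def _ _).symm
    · refine Finset.sum_congr rfl fun i _ => ?_
      rw [Algebra.smul_def, pow_add]; ring
  have hV : ∀ V : ValuationSubring K, (∀ a, algebraMap A K a ∈ V) → u ∈ V ∧ u * τ ∈ V := by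
    intro V hA
    by_cases hτ : τ ∈ V
    · have : u ∈ V := sum_mem fun i _ => mul_mem (hA _) (pow_mem hτ i)
      exact ⟨this, mul_mem this hτ⟩
    · have h0 : τ ≠ 0 := fun h => hτ (h ▸ zero_mem V)
      have hw : τ⁻¹ ∈ V := (V.mem_or_inv_mem τ).resolve_left hτ
      have e : u * τ = -∑ i ∈ Finset.range j, algebraMap A K (f.coeff i) * τ⁻¹ ^ (j - 1 - i) := by
        apply mul_right_cancel₀ (pow_ne_zero j h0)
        have e2 : ∀ i ∈ Finset.range j, algebraMap A K (f.coeff i) * τ⁻¹ ^ (j - 1 - i) * τ ^ j =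
            algebraMap A K (f.coeff i) * τ ^ i * τ := by
          intro i hi
          obtain ⟨m, hm⟩ : ∃ m, j = i + 1 + m := ⟨j - 1 - i, by
            have := Finset.mem_range.1 hi; omega⟩
          have e3 : j - 1 - i = m := by omega
          rw [e3, hm, inv_pow]
          field_simp
          ring
        rw [neg_mul, Finset.sum_mul (Finset.range j), Finset.sum_congr rfl e2,
          ← Finset.sum_mul (Finset.range j)]
        linear_combination τ * key
      have h3 : u * τ ∈ V := e ▸ neg_mem (sum_mem fun i _ => mul_mem (hA _) (pow_mem hw _))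
      refine ⟨?_, h3⟩
      have : u = u * τ * τ⁻¹ := by field_simp
      rw [this]
      exact mul_mem h3 hw
  obtain ⟨a, ha⟩ := hPV.val (A := A) u fun V hA => (hV V hA).1
  obtain ⟨a', ha'⟩ := hPV.val (A := A) (u * τ) fun V hA => (hV V hA).2
  have hτ : τ ∈ RR A τ := Algebra.self_mem_adjoin_singleton A τ
  have hm : algebraMap A (RR A τ) (a - f.coeff j) ∈ ext τ (maximalIdeal A) := by
    have e : algebraMap A (RR A τ) (a - f.coeff j) = ∑ i ∈ Finset.range n,
        algebraMap A (RR A τ) (f.coeff (j + (i + 1))) * (⟨τ, hτ⟩ : RR A τ) ^ (i + 1) := by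
      apply Subtype.ext
      rw [hu, Finset.sum_range_succ'] at ha
      simp only [AddSubmonoidClass.coe_finsetSum, MulMemClass.coe_mul, SubmonoidClass.coe_pow,
        Subalgebra.coe_algebraMap]
      rw [map_sub, ha]
      simp
    rw [e]
    exact sum_mem fun i _ => Ideal.mul_mem_right _ _
      (Ideal.mem_map_of_mem _ (hj2 _ (by omega)))
  by_cases ham : a ∈ maximalIdeal A
  · apply hne
    have h4 : algebraMap A (RR A τ) (f.coeff j) ∈ ext τ (maximalIdeal A) := by
      have := Ideal.sub_mem _ (Ideal.mem_map_of_mem (algebraMap A (RR A τ)) ham) hm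
      rwa [← map_sub, sub_sub_cancel] at this
    exact Ideal.eq_top_of_isUnit_mem _ h4 ((notMem_maximalIdeal.1 hj1).map _)
  · obtain ⟨b, hb⟩ := (notMem_maximalIdeal.1 ham).exists_left_inv
    refine h1 ⟨b * a', ?_⟩
    rw [map_mul, ha', ← ha, ← mul_assoc, ← map_mul, hb, map_one, one_mul]

end Pool.Agent.P.MP_e7d440_ag.G
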