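import Pool.Agent.P.MP_e7d440_ag.G.IfaceA

/-! Step PV. -/

set_option autoImplicit false
set_option linter.unusedSectionVars false

namespace Pool.Agent.P.MP_e7d440_ag.G

open IsLocalRing Polynomial

namespace PVx

theorem val {A K : Type} [CommRing A] [IsDomain A] [IsIntegrallyClosed A] [Field K] [Algebra A K]
    [IsFractionRing A K] (y : K)
    (h : ∀ V : ValuationSubring K, (∀ a, algebraMap A K a ∈ V) → y ∈ V) :
    ∃ a, algebraMap A K a = y := by
  by_contra hy
  have h1 : IsIntegrallyClosedIn (algebraMap A K).range K := by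
    refine Subring.isIntegrallyClosedIn_iff.2 fun x hx => ?_
    let : Algebra A (algebraMap A K).range := (algebraMap A K).rangeRestrict.toAlgebra
    have : IsScalarTower A (algebraMap A K).range K := IsScalarTower.of_algebraMap_eq fun _ => rfl
    have : Algebra.IsIntegral A (algebraMap A K).range :=
      Algebra.isIntegral_of_surjective (algebraMap A K).rangeRestrict_surjective
    exact IsIntegrallyClosed.isIntegral_iff.1 (isIntegral_trans (R := A) x hx)
  obtain ⟨V, h2, h3⟩ := Subring.exists_le_valuationSubring_of_isIntegrallyClosedIn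
    (x := y) (R := (algebraMap A K).range) hy
  exact h3 (h V fun a => h2 ⟨a, rfl⟩)

theorem expand {A K : Type} [CommRing A] [Field K] [Algebra A K] {τ : K} (h0 : τ ≠ 0) (g : A[X])
    {N : ℕ} (hN : g.natDegree ≤ N) : aeval τ g * τ⁻¹ ^ N =
      ∑ i ∈ Finset.range (N + 1), algebraMap A K (g.coeff i) * τ⁻¹ ^ (N - i) := by
  rw [aeval_eq_sum_range' (Nat.lt_succ_of_le hN), Finset.sum_mul]
  refine Finset.sum_congr rfl fun i hi => ?_
  obtain ⟨j, rfl⟩ := Nat.exists_eq_add_of_le (Nat.lt_succ_iff.1 (Finset.mem_range.1 hi))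
  rw [Algebra.smul_def, Nat.add_sub_cancel_left, pow_add, mul_assoc, ← mul_assoc (τ ^ i),
    ← mul_pow, mul_inv_cancel₀ h0, one_pow, one_mul]

end PVx

theorem p_PV :
    S_PV := by
  refine ⟨PVx.val, fun {A K} _ _ _ _ _ _ τ h y hm hy hi => PVx.val y fun V hV => ?_⟩
  by_cases ht : τ ∈ V
  · have h1 : (RR A τ).toSubring ≤ V.toSubring := fun x hx => by
      obtain ⟨g, rfl⟩ := memRR.1 hx
      rw [aeval_eq_sum_range]
      refine sum_mem fun i _ => ?_
      rw [Algebra.smul_def]
      exact mul_mem (hV _) (pow_mem ht _)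
    have : IsIntegrallyClosedIn V.toSubring K := inferInstanceAs (IsIntegrallyClosedIn V K)
    exact Subring.isIntegrallyClosedIn_iff.1 this
      (hi.map_of_comp_eq (Subring.inclusion h1) (RingHom.id K) rfl)
  · have h0 : τ ≠ 0 := by rintro rfl; exact ht V.zero_mem
    have hw : τ⁻¹ ∈ V := (V.mem_or_inv_mem τ).resolve_left ht
    have hw1 : V.valuation τ⁻¹ < 1 :=
      V.mem_nonunits_iff.1 (V.inv_mem_nonunits_iff.2 (Or.inr ht))
    obtain ⟨k, g, hg, e⟩ := hy
    have h1 : V.valuation (aeval τ h * τ⁻¹ ^ h.natDegree) = 1 := by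
      rw [PVx.expand h0 h le_rfl, Finset.sum_range_succ, hm.coeff_natDegree, map_one, Nat.sub_self,
        pow_zero, mul_one, add_comm]
      refine Valuation.map_one_add_of_lt _ (Valuation.map_sum_lt _ one_ne_zero fun i hi => ?_)
      rw [map_mul, map_pow]
      refine mul_lt_one_of_nonneg_of_lt_one_right ((V.valuation_le_one_iff _).2 (hV _)) zero_le
        (pow_lt_one₀ zero_le hw1 ?_)
      have := Finset.mem_range.1 hi
      omega
    have h2 : aeval τ g * τ⁻¹ ^ (k * h.natDegree) ∈ V := by
      rw [PVx.expand h0 g hg]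
      exact sum_mem fun i _ => mul_mem (hV _) (pow_mem hw _)
    rw [← e, mul_comm k, pow_mul, mul_assoc, ← mul_pow, ← V.valuation_le_one_iff, map_mul, map_pow,
      h1, one_pow, mul_one, V.valuation_le_one_iff] at h2
    exact h2

end Pool.Agent.P.MP_e7d440_ag.G
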