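import Pool.Agent.P.MP_e7d440_ag.G.IfaceA

/-! Step PX. -/

set_option autoImplicit false
set_option linter.unusedSectionVars false

namespace Pool.Agent.P.MP_e7d440_ag.G

open IsLocalRing Polynomial

namespace PXx

variable {A K : Type} [CommRing A] [Field K] [Algebra A K] (τ : K)

/-- evaluation onto `A[τ]` -/
noncomputable def rho : A[X] →+* RR A τ :=
  (aeval τ : A[X] →ₐ[A] K).toRingHom.codRestrict (RR A τ) fun g => memRR.2 ⟨g, rfl⟩

theorem rho_coe (g : A[X]) : (rho τ g : K) = aeval τ g := rfl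

theorem rho_surj : Function.Surjective (rho (A := A) τ) := fun y => by
  obtain ⟨g, hg⟩ := memRR.1 y.2
  exact ⟨g, Subtype.ext hg⟩

theorem ext_eq (𝔞 : Ideal A) : ext τ 𝔞 = (𝔞.map (C : A →+* A[X])).map (rho τ) := by
  have e : (rho τ).comp (C : A →+* A[X]) = algebraMap A (RR A τ) :=
    RingHom.ext fun a => Subtype.ext (aeval_C τ a)
  rw [Ideal.map_map, e]

variable [IsLocalRing A] {τ}

theorem ker_le (h : Full A τ) :
    RingHom.ker (rho (A := A) τ) ≤ (maximalIdeal A).map (C : A →+* A[X]) := fun g hg =>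
  h g (by rw [← rho_coe, RingHom.mem_ker.1 hg]; rfl)

theorem mem (h : Full A τ) (g : A[X]) (y : RR A τ) (e : (y : K) = aeval τ g) :
    y ∈ ext τ (maximalIdeal A) ↔ g ∈ (maximalIdeal A).map (C : A →+* A[X]) := by
  have e' : y = rho τ g := Subtype.ext e
  rw [e', ext_eq, ← Ideal.mem_comap, Ideal.comap_map_of_surjective _ (rho_surj τ),
    ← RingHom.ker_eq_comap_bot, sup_eq_left.2 (ker_le h)]

theorem monic_notMem {g : A[X]} (hg : g.Monic) : g ∉ (maximalIdeal A).map (C : A →+* A[X]) :=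
  fun h => (maximalIdeal.isMaximal A).ne_top ((Ideal.eq_top_iff_one _).2
    (hg.coeff_natDegree ▸ Ideal.mem_map_C_iff.1 h g.natDegree))

end PXx

theorem p_PX (hMONIC : S_MONIC) :
    S_PX := by
  refine ⟨fun τ h => PXx.mem h, fun {A K} _ _ _ _ τ h => ?_, fun τ h g hg =>
    ⟨fun e => PXx.monic_notMem hg (h g e), fun y e hy =>
      PXx.monic_notMem hg ((PXx.mem h g y e).1 hy)⟩, fun {A K} _ _ _ _ τ h 𝔓 hP => ?_⟩
  · have : ((maximalIdeal A).map (C : A →+* A[X])).IsPrime := Ideal.isPrime_map_C_of_isPrime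
    rw [PXx.ext_eq]
    exact Ideal.map_isPrime_of_surjective (PXx.rho_surj τ) (PXx.ker_le h)
  · obtain ⟨y, hy, hn⟩ := SetLike.exists_of_lt hP
    obtain ⟨g, rfl⟩ := PXx.rho_surj τ y
    obtain ⟨f, u, hf, hu⟩ := hMONIC A g fun hg => hn ((PXx.mem h g _ rfl).2 hg)
    refine ⟨f, hf, PXx.rho τ f, ?_, rfl⟩
    have h1 := hP.le ((PXx.mem h _ (PXx.rho τ (f - C u * g)) rfl).2 hu)
    have h2 := 𝔓.add_mem h1 (𝔓.mul_mem_left (PXx.rho τ (C u)) hy)
    rwa [map_sub, map_mul, sub_add_cancel] at h2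

end Pool.Agent.P.MP_e7d440_ag.G
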