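import Pool.Agent.P.MP_e7d440_ag.G.IfaceC

/-! Step RANK. -/

set_option autoImplicit false
set_option linter.unusedSectionVars false

namespace Pool.Agent.P.MP_e7d440_ag.G

open Matrix

theorem p_RANK :
    S_RANK := by
  intro κ _ n s G c hc hs h
  classical
  obtain ⟨L, L', d, e⟩ :=
    Pivot.exists_list_transvec_mul_mul_list_transvec_eq_diagonal (G.map (Polynomial.eval 0))
  have a1 := TransvectionStruct.det_toMatrix_prod L
  have a2 := TransvectionStruct.det_toMatrix_prod L'
  generalize (L.map TransvectionStruct.toMatrix).prod = P at e a1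
  generalize (L'.map TransvectionStruct.toMatrix).prod = P' at e a2
  rw [← rank_mul_eq_right_of_isUnit_det P _ (by simp [a1]),
    ← rank_mul_eq_left_of_isUnit_det P' _ (by simp [a2]), e, rank_diagonal]
  let H := Polynomial.C.mapMatrix P * G * Polynomial.C.mapMatrix P'
  have h1 : (Polynomial.evalRingHom 0).mapMatrix H = diagonal d := by
    rw [map_mul, map_mul, ← e]
    congr 2 <;> ext <;> simp
  have h2 : ∀ i j, (if d i = 0 then Polynomial.X else 1) ∣ H i j := fun i j => by
    split_ifs with h0
    · rw [Polynomial.X_dvd_iff, Polynomial.coeff_zero_eq_eval_zero]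
      refine (congrFun₂ h1 i j).trans ?_
      rw [diagonal_apply, h0, ite_self]
    · exact one_dvd _
  choose H' hH using h2
  have h3 := (congrArg det (Matrix.ext hH)).trans
    (det_mul_column (fun i => if d i = 0 then Polynomial.X else 1) H')
  rw [det_mul, det_mul, ← RingHom.map_det, ← RingHom.map_det, a1, a2, map_one, one_mul, mul_one, h,
    Finset.prod_ite, Finset.prod_const_one, mul_one, Finset.prod_const] at h3
  have h4 := Polynomial.natDegree_le_of_dvd ⟨_, h3⟩ (by simp [hc])
  rw [Polynomial.natDegree_X_pow, Polynomial.natDegree_C_mul_X_pow _ _ hc] at h4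
  have h5 := Finset.card_filter_add_card_filter_not (s := Finset.univ) fun i => d i = 0
  rw [Finset.card_univ, Fintype.card_fin] at h5
  rw [Fintype.card_subtype]
  simp only [ne_eq]
  omega

end Pool.Agent.P.MP_e7d440_ag.G
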