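import Pool.Agent.P.MP_e7d440_ag.G.IfaceA

/-! Step REG. -/

set_option autoImplicit false
set_option linter.unusedSectionVars false

namespace Pool.Agent.P.MP_e7d440_ag.G

open IsLocalRing Polynomial

namespace REGx

theorem cml (R : Type) [CommRing R] [IsRegularLocalRing R] : CMl R := by
  obtain ⟨s, h1, h2⟩ := Submodule.FG.exists_span_finset_card_eq_spanFinrank
    (IsNoetherian.noetherian (maximalIdeal R))
  have hl : Ideal.ofList s.toList = maximalIdeal R := by
    rw [← h2, Ideal.ofList]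
    congr 1
    ext x
    simp
  have hlen : ((s.toList.length : ℕ) : WithBot ℕ∞) = ringKrullDim R := by
    rw [Finset.length_toList, h1]
    exact IsRegularLocalRing.spanFinrank_maximalIdeal
  refine ⟨s.toList, fun t ht => ?_, ((reg R).2 _ hl hlen).1, hlen.ge⟩
  rw [← hl]
  exact Ideal.subset_span ht

end REGx

theorem p_REG (hISO : S_ISO) :
    S_REG := by
  intro O σ _ _ _ _ 𝔮 h𝔮
  have h := hISO.qg (RingHom.id (MvPolynomial σ O)) 𝔮 h𝔮
    (fun y => ⟨1, y, by simpa using (Ideal.ne_top_iff_one 𝔮).1 h𝔮.ne_top, by simp⟩)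
  have hk : RingHom.ker (RingHom.id (MvPolynomial σ O)) = ⊥ :=
    (RingHom.injective_iff_ker_eq_bot _).1 (fun _ _ e => e)
  rw [hk, Ideal.comap_id] at h
  have hg : Good 𝔮 := by
    intro _
    refine ⟨?_, REGx.cml _⟩
    exact isIntegrallyClosed_of_isLocalization (Localization.AtPrime 𝔮) 𝔮.primeCompl
      𝔮.primeCompl_le_nonZeroDivisors
  rw [h]
  exact @hg

end Pool.Agent.P.MP_e7d440_ag.G
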