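import Pool.Agent.P.MP_e7d440_ag.G.IfaceC

/-! Step ROW. -/

set_option autoImplicit false
set_option linter.unusedSectionVars false

namespace Pool.Agent.P.MP_e7d440_ag.G

open Matrix

theorem p_ROW :
    S_ROW := by
  intro D _ 𝔓 r n A B δ hP hδ h
  by_contra hc
  push Not at hc
  have e : (B * A).det = ∑ ρ : Fin r → Fin n, (∏ i, B i (ρ i)) * (A.submatrix ρ id).det := by
    rw [← det_transpose]
    simp only [← det_transpose (A.submatrix _ id)]
    simp only [det_apply', transpose_apply, mul_apply, Finset.prod_univ_sum, Finset.mul_sum,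
      Fintype.piFinset_univ, submatrix_apply, id]
    rw [Finset.sum_comm]
    refine Finset.sum_congr rfl fun ρ _ => Finset.sum_congr rfl fun σ _ => ?_
    rw [Finset.prod_mul_distrib]; ring
  have hm : (B * A).det ∈ 𝔓 := by
    rw [e]
    exact Ideal.sum_mem _ fun ρ _ => Ideal.mul_mem_left _ _ (hc ρ)
  rw [h, det_smul, det_one, mul_one] at hm
  exact hδ (hP.mem_of_pow_mem _ hm)

end Pool.Agent.P.MP_e7d440_ag.G
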