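import Pool.Agent.P.MP_e7d440_ag.G.IfaceA

/-! Step SAT. -/

set_option autoImplicit false
set_option linter.unusedSectionVars false

namespace Pool.Agent.P.MP_e7d440_ag.G

open IsLocalRing Polynomial

namespace SATx

theorem comap_eq {R : Type} [CommRing R] [IsNoetherianRing R] (σ : R →+* R)
    (hs : Function.Surjective σ) (I : Ideal R) (h : I ≤ I.comap σ) : I.comap σ = I := by
  let f : ℕ → Ideal R := fun n => (fun J : Ideal R => J.comap σ)^[n] I
  have hf : ∀ n, f (n + 1) = (f n).comap σ := fun n => Function.iterate_succ_apply' _ _ _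
  have hm : Monotone f := monotone_nat_of_le_succ fun n => by
    induction n with
    | zero => rw [hf]; exact h
    | succ n ih => rw [hf (n + 1), hf n]; exact Ideal.comap_mono (hf n ▸ ih)
  obtain ⟨n, hn⟩ := monotone_stabilizes_iff_noetherian.mpr
    (inferInstance : IsNoetherian R R) ⟨f, hm⟩
  have h1 : f n = f (n + 1) := hn (n + 1) (Nat.le_succ n)
  have key : ∀ k, f k = f (k + 1) → f 0 = f 1 := by
    intro k
    induction k with
    | zero => exact id
    | succ k ih =>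
      intro hk
      rw [hf (k + 1), hf k] at hk
      have := Ideal.comap_injective_of_surjective σ hs hk
      exact ih (by rw [hf k]; exact this)
  have := key n h1
  rw [hf 0] at this
  exact this.symm

end SATx

theorem p_SAT (hISO : S_ISO) (hUDQ : S_UDQ) :
    S_SAT := by
  intro Q _ _ φ 𝔭 𝔮 hφ hp hq hpq hmv hG
  obtain ⟨σ, -, hσ⟩ := hφ.2
  let s : Q[X] →+* Q[X] := σ.toRingHom
  have hs : Function.Surjective s := σ.surjective
  have hsC : ∀ f, s (C f) = φ f := hσ
  have hle : 𝔭.map (C : Q →+* Q[X]) ≤ (𝔭.map (C : Q →+* Q[X])).comap s := by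
    rw [Ideal.map_le_iff_le_comap]
    intro f hf
    rw [Ideal.mem_comap, Ideal.mem_comap, hsC]
    exact mem_mv.mp (hmv.symm ▸ hf)
  have heq := SATx.comap_eq s hs _ hle
  have hqC : (𝔮.map (C : Q →+* Q[X])).IsPrime := Ideal.isPrime_map_C_of_isPrime
  have hη : ((𝔮.map (C : Q →+* Q[X])).comap s).IsPrime := Ideal.comap_isPrime s _
  have hc : ((𝔮.map (C : Q →+* Q[X])).comap s).comap (C : Q →+* Q[X]) = mv φ 𝔮 := by
    ext f
    rw [Ideal.mem_comap, Ideal.mem_comap, hsC, mem_mv]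
  have h1 : GoodQ (𝔭.map (C : Q →+* Q[X])) ((𝔮.map (C : Q →+* Q[X])).comap s) :=
    @hUDQ.up Q _ _ 𝔭 _ hp hη (hle.trans (Ideal.comap_mono (Ideal.map_mono hpq)))
      (by rw [hc]; exact @hG)
  have h2 := hISO.qq s (𝔭.map (C : Q →+* Q[X])) (𝔮.map (C : Q →+* Q[X])) hqC
    (Ideal.map_mono hpq) (fun y => by
      obtain ⟨x, hx⟩ := hs y
      refine ⟨1, x, ?_, ?_⟩
      · rw [map_one]; exact (Ideal.ne_top_iff_one _).mp hqC.ne_top
      · rw [map_one, one_mul, hx, sub_self]; exact Ideal.zero_mem _)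
  rw [heq] at h2
  exact @hUDQ.down Q _ _ 𝔭 𝔮 hp hq hpq (@h2.mp @h1)

end Pool.Agent.P.MP_e7d440_ag.G
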