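import Pool.Agent.P.MP_e7d440_ag.G.IfaceC

/-! Step SEC. -/

set_option autoImplicit false
set_option linter.unusedSectionVars false

namespace Pool.Agent.P.MP_e7d440_ag.G

open Matrix

namespace SECx

theorem back {C : Type} [CommRing C] [IsDomain C] {π : C} {r n s : ℕ}
    {Φ₀ Φ : Matrix (Fin r) (Fin n) C} {J₀ : Fin r → Fin n} {h : Matrix (Fin r) (Fin r) C}
    (h0 : Φ₀.submatrix id J₀ = 1) (h1 : Φ₀ * dd n π 1 s = h * Φ) (h2 : h.det ≠ 0) :
    Φ * dd n 1 π s = (Φ * dd n 1 π s).submatrix id J₀ * Φ₀ := by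
  have e1 : h * (Φ * dd n 1 π s) = π • Φ₀ := by
    rw [← Matrix.mul_assoc, ← h1, Matrix.mul_assoc, dd_mul, mul_one, one_mul, dd_self,
      Matrix.mul_smul, Matrix.mul_one]
  generalize Φ * dd n 1 π s = P at e1 ⊢
  have e2 : h * P.submatrix id J₀ = π • 1 := by
    rw [← h0]
    exact congrArg (fun M => M.submatrix id J₀) e1
  have e3 : h * P = h * (P.submatrix id J₀ * Φ₀) := by
    rw [← Matrix.mul_assoc, e2, e1, Matrix.smul_mul, Matrix.one_mul]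
  have e4 := congrArg (h.adjugate * ·) e3
  simp only [← Matrix.mul_assoc h.adjugate, adjugate_mul, Matrix.smul_mul, Matrix.one_mul] at e4
  ext k j
  exact mul_left_cancel₀ h2 (congrFun (congrFun e4 k) j)

end SECx

theorem p_SEC (hEXT : S_EXT) (hFLAG : S_FLAG) (hDIR2 : S_DIR2) :
    S_SEC := by
  intro C ι _ _ π r m s Φ₀ J₀ Φ J h 𝔭 hp hJ h0 hi
  classical
  obtain ⟨b₀, u0, t0⟩ := hEXT C r m Φ₀ J₀ hJ h0
  let φ : C →+* FractionRing (C ⧸ 𝔭) := (algebraMap _ _).comp (Ideal.Quotient.mk 𝔭)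
  obtain ⟨a, a1, a2⟩ := hFLAG C _ φ (r + m)
    (fun k => {w | ∀ j, ZT (Set.range s) k j → (w ᵥ* (dd (r + m) 1 π r * b₀)) j = 0}) (by
      intro k
      by_cases hk : ∃ t, t ∈ Set.range s ∧ k.val < t
      · obtain ⟨⟨i, e⟩, h2⟩ := Nat.find_spec hk
        obtain ⟨c1, c2, c3, c4, c5⟩ := hi i
        obtain ⟨b₁, u1, t1⟩ := hEXT C r m (Φ i) (J i) c2 c3
        obtain ⟨G, g1, g2⟩ := hDIR2 C _ φ π r m (s i) b₀ b₁ _ c1 u0 u1
          (by rw [t1, t0]; exact SECx.back h0 c4 c5)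
        refine ⟨G, fun l j ⟨t, k1, k2, k3⟩ => ?_, by omega⟩
        have := g1 l j (e ▸ (Nat.find_min' hk ⟨k1, k2⟩).trans k3)
        rwa [Matrix.mul_assoc] at this
      · refine ⟨1, fun l j ⟨t, k1, k2, _⟩ => absurd ⟨t, k1, k2⟩ hk, ?_⟩
        rw [Matrix.map_one _ (map_zero φ) (map_one φ), rank_one, Fintype.card_fin]
        exact k.isLt)
  refine ⟨a, b₀, fun hm => a2 ?_, u0, t0, fun k j hz => ?_⟩
  · simp only [φ, RingHom.comp_apply, Ideal.Quotient.eq_zero_iff_mem.2 hm, map_zero]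
  · rw [Matrix.mul_assoc]
    exact a1 k j hz

end Pool.Agent.P.MP_e7d440_ag.G
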