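import Pool.Agent.P.MP_e7d440_ag.G.IfaceC

/-! Step SURJ. -/

set_option autoImplicit false
set_option linter.unusedSectionVars false

namespace Pool.Agent.P.MP_e7d440_ag.G

open Matrix

namespace SURJx

theorem dd_zero (n : ℕ) {R : Type} [CommRing R] (x : R) : dd n x 1 0 = 1 := by
  rw [dd, ← diagonal_one]
  congr 1

theorem sub_map {C D κ κ' : Type} [CommRing C] [CommRing D] [DecidableEq κ] (f : C →+* D)
    (Φ : Matrix κ κ' C) (J : κ → κ') (h : Φ.submatrix id J = 1) :
    (Φ.map f).submatrix id J = 1 := by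
  have : (Φ.map f).submatrix id J = (Φ.submatrix id J).map f := rfl
  rw [this, h, Matrix.map_one f (map_zero f) (map_one f)]

theorem detm {C D κ : Type} [CommRing C] [CommRing D] [Fintype κ] [DecidableEq κ]
    (f : C →+* D) (M : Matrix κ κ C) : (M.map f).det = f M.det := by
  rw [RingHom.map_det, RingHom.mapMatrix_apply]

end SURJx

open SURJx in
theorem p_SURJ (hDIR1 : S_DIR1) (hHAT : S_HAT) :
    S_SURJ := by
  intro O C D ι _ _ _ _ _ _ _ _ π r m s Φ₀ J₀ Φ J h a₀ b₀ η β a b 𝔓 T hP hS hinj hπ hJ₀ hΦ hadj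
    hb₀ htop hη ha hb hab hpat hO haT hbT
  have hda : a.det ∉ 𝔓 := fun hh => hab (𝔓.mul_mem_right _ hh)
  have hdb : b.det ∉ 𝔓 := fun hh => hab (𝔓.mul_mem_left _ hh)
  have hη0 : η.det ≠ 0 := by
    intro hh
    apply hdb
    rw [hb, det_mul, hh, zero_mul]
    exact 𝔓.zero_mem
  have h11 : (η.submatrix (Fin.castAdd m) (Fin.castAdd m)).det ≠ 0 := fun hh =>
    hη0 (zero_dvd_iff.mp (hh ▸ hHAT.topdet η hη))
  have htb : top b = η.submatrix (Fin.castAdd m) (Fin.castAdd m) * Φ₀.map (algebraMap C D) := by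
    rw [hb, hHAT.top η _ hη, ← htop]
    rfl
  have hΦ₀T : ∀ k j, algebraMap C D (Φ₀ k j) ∈ T :=
    hDIR1 D (algebraMap O D π) r m 0 a b T 𝔓 (Φ₀.map (algebraMap C D)) J₀ _ hP hS hπ hab (hO π)
      haT hbT (fun k j hk _ => absurd hk (Nat.not_lt_zero _)) (sub_map _ _ _ hJ₀)
      (by rw [dd_zero, Matrix.mul_one, htb]) h11
  have hΦT : ∀ i k j, algebraMap C D (Φ i k j) ∈ T := by
    intro i
    obtain ⟨e1, e2, e3⟩ := hΦ i
    refine hDIR1 D (algebraMap O D π) r m (s i) a b T 𝔓 ((Φ i).map (algebraMap C D)) (J i)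
      (η.submatrix (Fin.castAdd m) (Fin.castAdd m) * (h i).map (algebraMap C D)) hP hS hπ hab
      (hO π) haT hbT (fun k j hk hj => hpat k j ⟨s i, ⟨i, rfl⟩, hk, hj⟩) (sub_map _ _ _ e1) ?_ ?_
    · have e4 := congrArg (fun M => Matrix.map M (algebraMap C D)) e2
      simp only [Matrix.map_mul, dd_map, map_one, ← IsScalarTower.algebraMap_apply] at e4
      rw [htb, Matrix.mul_assoc, e4, Matrix.mul_assoc]
    · rw [det_mul, detm]
      exact mul_ne_zero h11 fun hh => e3 (hinj (hh.trans (map_zero _).symm))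
  have hC : ∀ c, algebraMap C D c ∈ T := by
    intro c
    have hc : c ∈ Algebra.adjoin O ({t | ∃ k j, t = Φ₀ k j} ∪ {t | ∃ i k j, t = Φ i k j}) := by
      rw [hadj]; trivial
    induction hc using Algebra.adjoin_induction with
    | mem x hx =>
      rcases hx with ⟨k, j, rfl⟩ | ⟨i, k, j, rfl⟩
      · exact hΦ₀T k j
      · exact hΦT i k j
    | algebraMap o => rw [← IsScalarTower.algebraMap_apply]; exact hO o
    | add x y _ _ hx hy => rw [map_add]; exact T.add_mem hx hy
    | mul x y _ _ hx hy => rw [map_mul]; exact T.mul_mem hx hy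
  have hηT : ∀ k j, η k j ∈ T := by
    have e : η = b * (b₀⁻¹).map (algebraMap C D) := by
      rw [hb, Matrix.mul_assoc, ← Matrix.map_mul, mul_nonsing_inv _ hb₀,
        Matrix.map_one _ (map_zero _) (map_one _), Matrix.mul_one]
    rw [e]
    exact mul_mem' T _ _ hbT fun k j => hC _
  refine ⟨hC, hηT, fun k j => ?_⟩
  have hhat : ∀ k j, hat (algebraMap O D π) r η k j ∈ T := by
    intro k j
    rw [hat, Matrix.of_apply]
    split_ifs
    · exact T.mul_mem (hO π) (hηT k j)
    · exact hηT k j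
  obtain ⟨N, hN⟩ : ∃ N, N = a₀.map (algebraMap C D) * (hat (algebraMap O D π) r η).adjugate :=
    ⟨_, rfl⟩
  have hNT : ∀ k j, N k j ∈ T := by
    rw [hN]
    exact mul_mem' T _ _ (fun k j => hC _) (adjugate_mem T _ hhat)
  have ha' : a = β * N := by rw [ha, hN, Matrix.mul_assoc]
  refine hS N.det _ (det_mem T N hNT) (fun hh => hda ?_) ?_
  · rw [ha', det_mul]
    exact 𝔓.mul_mem_left _ hh
  · have e : a * N.adjugate = N.det • β := by
      rw [ha', Matrix.mul_assoc, mul_adjugate, Matrix.mul_smul, Matrix.mul_one]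
    have := mul_mem' T _ _ haT (adjugate_mem T N hNT) k j
    rwa [e, Matrix.smul_apply, smul_eq_mul] at this

end Pool.Agent.P.MP_e7d440_ag.G
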