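import Pool.Agent.P.MP_e7d440_ag.G.IfaceB

/-! Step TRANS. -/

set_option autoImplicit false
set_option linter.unusedSectionVars false

namespace Pool.Agent.P.MP_e7d440_ag.G

open Matrix

namespace TRANSx

theorem pt {Q : Type} [CommRing Q] (𝔮 : Ideal Q) [𝔮.IsPrime] :
    ∃ (Ω : Type) (_ : Field Ω) (_ : Infinite Ω) (ψ : Q →+* Ω), ∀ f, ψ f = 0 ↔ f ∈ 𝔮 := by
  refine ⟨AlgebraicClosure (FractionRing (Q ⧸ 𝔮)), inferInstance, inferInstance,
    (algebraMap (FractionRing (Q ⧸ 𝔮)) _).comp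
      ((algebraMap (Q ⧸ 𝔮) _).comp (Ideal.Quotient.mk 𝔮)), fun f => ?_⟩
  rw [RingHom.comp_apply, RingHom.comp_apply, map_eq_zero,
    map_eq_zero_iff _ (IsFractionRing.injective _ _), Ideal.Quotient.eq_zero_iff_mem]

theorem coef {O : Type} [CommRing O] {n : ℕ} {Ω : Type} [Field Ω] [Infinite Ω] [Algebra O Ω]
    {f : QQ O n} (h : ∀ a b : Mat n Ω, a.det ≠ 0 → b.det ≠ 0 → ev O a b f = 0) (m) :
    algebraMap O Ω (f.coeff m) = 0 := by
  have e : ∀ (v : Bool × Fin n × Fin n → Ω) (F : QQ O n),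
      MvPolynomial.eval v (MvPolynomial.map (algebraMap O Ω) F) =
        ev O (Matrix.of fun k l => v (true, k, l)) (Matrix.of fun k l => v (false, k, l)) F := by
    intro v F
    rw [MvPolynomial.eval_map, ← MvPolynomial.aeval_def, ev]
    congr 2
    funext ⟨b, k, l⟩
    cases b <;> rfl
  have h1 : MvPolynomial.map (algebraMap O Ω) ((gA O n).det * (gB O n).det * f) = 0 := by
    refine MvPolynomial.funext fun v => ?_
    rw [e, map_mul, ev_det, map_zero]
    by_contra c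
    exact right_ne_zero_of_mul c (h _ _ (left_ne_zero_of_mul (left_ne_zero_of_mul c))
      (right_ne_zero_of_mul (left_ne_zero_of_mul c)))
  rw [map_mul, mul_eq_zero] at h1
  rcases h1 with h1 | h1
  · have := e (fun v => (1 : Mat n Ω) v.2.1 v.2.2) ((gA O n).det * (gB O n).det)
    rw [h1, map_zero, ev_det] at this
    have h2 : (Matrix.of fun k l => (1 : Mat n Ω) k l) = 1 := rfl
    simp [h2] at this
  · rw [← MvPolynomial.coeff_map, h1, MvPolynomial.coeff_zero]

end TRANSx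

theorem p_TRANS (hORB : S_ORB) :
    S_TRANS := by
  intro O _ _ _ n μ K _ _ _ S 𝔮 hK hS hp hq hle hd hmv
  obtain ⟨Ω, _, _, φ, hφ⟩ := TRANSx.pt 𝔮
  let _ : Algebra O Ω := (φ.comp MvPolynomial.C).toAlgebra
  let ψ : QQ O n →ₐ[O] Ω := { φ with commutes' := fun _ => rfl }
  have hdet := ev_det (O := O) ((gA O n).map ψ) ((gB O n).map ψ)
  rw [ev_eq] at hdet
  have hne : ((gA O n).map ψ).det * ((gB O n).map ψ).det ≠ 0 := fun c =>
    hd ((hφ _).1 (hdet.trans c))
  have hv := hORB O n μ K S 𝔮 Ω _ _ hS hle hmv (left_ne_zero_of_mul hne) (right_ne_zero_of_mul hne)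
    fun f hf => by rw [ev_eq]; exact (hφ f).2 hf
  obtain ⟨π, hπ⟩ := IsDiscreteValuationRing.exists_irreducible O
  have hdv : ∀ f ∈ pp μ S, MvPolynomial.C π ∣ f := fun f hf => by
    refine (MvPolynomial.C_dvd_iff_dvd_coeff _ _).2 fun m => ?_
    rw [← Ideal.mem_span_singleton, ← hπ.maximalIdeal_eq]
    by_contra c
    exact ((IsLocalRing.notMem_maximalIdeal.1 c).map (algebraMap O Ω)).ne_zero
      (TRANSx.coef (fun a b ha hb => hv a b ha hb f hf) m)
  have hn : MvPolynomial.C π ∉ pp μ S := fun c => hp.ne_top ((Ideal.eq_top_iff_one _).2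
    fun a b ha hb h => absurd (hK ((((ev O a b).commutes π).symm.trans (c a b ha hb h)).trans
      (map_zero _).symm)) hπ.ne_zero)
  obtain ⟨r, hr, hr'⟩ := Submodule.exists_sub_one_mem_and_smul_eq_zero_of_fg_of_le_smul
    (Ideal.span {MvPolynomial.C π}) (pp μ S) (IsNoetherian.noetherian _) fun f hf => by
      obtain ⟨g, rfl⟩ := hdv f hf
      exact Submodule.smul_mem_smul (Ideal.mem_span_singleton_self _)
        ((hp.mem_or_mem hf).resolve_left hn)
  have hr0 : r ≠ 0 := by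
    rintro rfl
    rw [zero_sub, neg_mem_iff, Ideal.mem_span_singleton, MvPolynomial.C_dvd_iff_dvd_coeff] at hr
    have := hr 0
    rw [MvPolynomial.coeff_zero_one] at this
    exact hπ.not_isUnit (isUnit_of_dvd_one this)
  exact (Submodule.eq_bot_iff _).2 fun f hf => (mul_eq_zero.1 (hr' f hf)).resolve_left hr0

end Pool.Agent.P.MP_e7d440_ag.G
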