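import Pool.Agent.P.MP_e7d440_ag.G.IfaceB

/-! Step TRD. -/

set_option autoImplicit false
set_option linter.unusedSectionVars false

namespace Pool.Agent.P.MP_e7d440_ag.G

open Matrix

theorem p_TRD :
    S_TRD := by
  intro O A D ι κ _ _ _ _ _ _ _ _ _ _ ψ z y hz hy hcard hfrac
  classical
  have hOD : Function.Injective (algebraMap O D) := hy.algebraMap_injective
  have : FaithfulSMul O D := (faithfulSMul_iff_algebraMap_injective O D).mpr hOD
  have halgA : Algebra.IsAlgebraic (Algebra.adjoin O (Set.range z)) A := ⟨hz⟩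
  have h1 : Algebra.trdeg O A ≤ Cardinal.mk ι :=
    (Algebra.IsAlgebraic.trdeg_le_cardinalMk O (Set.range z)).trans Cardinal.mk_range_le
  have halgD : Algebra.IsAlgebraic (Algebra.adjoin O (Set.range ψ)) D := by
    refine ⟨fun t => ?_⟩
    obtain ⟨s, x, hs, hst⟩ := hfrac t
    let s' : Algebra.adjoin O (Set.range ψ) := ⟨ψ s, Algebra.subset_adjoin ⟨s, rfl⟩⟩
    let x' : Algebra.adjoin O (Set.range ψ) := ⟨ψ x, Algebra.subset_adjoin ⟨x, rfl⟩⟩
    refine ⟨Polynomial.C s' * Polynomial.X - Polynomial.C x', ?_, ?_⟩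
    · intro h
      have h2 := congrArg (fun p => Polynomial.coeff p 1) h
      simp only [Polynomial.coeff_sub, Polynomial.coeff_C_mul, Polynomial.coeff_X_one, mul_one,
        Polynomial.coeff_C_of_ne_zero one_ne_zero, sub_zero, Polynomial.coeff_zero] at h2
      exact hs (congrArg Subtype.val h2)
    · rw [map_sub, map_mul, Polynomial.aeval_C, Polynomial.aeval_C, Polynomial.aeval_X]
      exact sub_eq_zero.mpr hst
  obtain ⟨t, htsub, ht⟩ := exists_isTranscendenceBasis_subset (R := O) (Set.range ψ)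
  have h2 : Cardinal.mk κ ≤ Cardinal.mk t := hy.cardinalMk_le_trdeg.trans ht.cardinalMk_eq_trdeg.ge
  have h3 : Cardinal.mk ι ≤ Cardinal.mk κ := by
    rw [← Nat.cast_card, ← Nat.cast_card]
    exact_mod_cast hcard
  choose w hw using fun i : t => htsub i.2
  have hcomp : (ψ ∘ w) = ((↑) : t → D) := funext hw
  have hψw : AlgebraicIndependent O (ψ ∘ w) := hcomp ▸ ht.1
  have hwi : AlgebraicIndependent O w := AlgebraicIndependent.of_comp ψ hψw
  have hfin : Algebra.trdeg O A < Cardinal.aleph0 := h1.trans_lt (Cardinal.lt_aleph0_of_finite ι)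
  have hbasis : IsTranscendenceBasis O w :=
    hwi.isTranscendenceBasis_of_trdeg_le hfin (h1.trans (h3.trans h2))
  rw [injective_iff_map_eq_zero]
  intro f hf
  by_contra hf0
  obtain ⟨c, hc0, g, hg⟩ :=
    (hbasis.isAlgebraic.1 f).exists_nonzero_dvd (mem_nonZeroDivisors_of_ne_zero hf0)
  have hcmem : (c : A) ∈ (MvPolynomial.aeval (R := O) w).range := by
    rw [← Algebra.adjoin_range_eq_range_aeval]
    exact c.2
  obtain ⟨p, hp⟩ := hcmem
  have hp' : MvPolynomial.aeval w p = (c : A) := hp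
  have hc : ψ (c : A) = 0 := by
    have : (c : A) = f * g := hg
    rw [this, map_mul, hf, zero_mul]
  have hp0 : MvPolynomial.aeval (ψ ∘ w) p = 0 := by
    rw [← hc, ← hp', MvPolynomial.comp_aeval_apply]
    rfl
  have hp1 : p = 0 := hψw.eq_zero_of_aeval_eq_zero p hp0
  apply hc0
  apply Subtype.ext
  rw [← hp', hp1, map_zero]
  rfl

end Pool.Agent.P.MP_e7d440_ag.G
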