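import Pool.Agent.P.MP_e7d440_ag.Basic
import Pool.Agent.P.MP_e7d440_ag.Dep
import Pool.Agent.P.MP_e7d440_ag.Reg
import Pool.Agent.P.MP_e7d440_ag.Poly

/-! Commutative algebra: normality and the Cohen-Macaulay property along projective lines. -/

namespace Pool.Agent.P.MP_e7d440_ag.G

open IsLocalRing Polynomial

noncomputable section

theorem dp : S_dep := dep basic

/-- The local ring has a regular sequence in its maximal ideal of length at least its dimension. -/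
def CMl (R : Type) [CommRing R] [IsLocalRing R] : Prop :=
  ∃ l : List R, (∀ t ∈ l, t ∈ maximalIdeal R) ∧ RegSeq ⊥ l ∧
    ringKrullDim R ≤ (l.length : WithBot ℕ∞)

/-- The localization at the prime is normal and Cohen-Macaulay. -/
def Good {A : Type} [CommRing A] (𝔮 : Ideal A) : Prop :=
  ∀ [𝔮.IsPrime], IsIntegrallyClosed (Localization.AtPrime 𝔮) ∧ CMl (Localization.AtPrime 𝔮)

/-- The quotient by the first ideal is good at the second one. -/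
def GoodQ {Q : Type} [CommRing Q] (𝔭 𝔮 : Ideal Q) : Prop :=
  Good (𝔮.map (Ideal.Quotient.mk 𝔭))

-- deps:
structure S_ISO : Prop where
  loc : ∀ {A : Type} [CommRing A] (B : Type) [CommRing B] [Algebra A B] [IsLocalRing B]
    (𝔮 : Ideal A) [𝔮.IsPrime] [IsLocalization.AtPrime B 𝔮],
      Good 𝔮 ↔ IsIntegrallyClosed B ∧ CMl B
  max : ∀ {A : Type} [CommRing A] [IsLocalRing A],
    Good (maximalIdeal A) ↔ IsIntegrallyClosed A ∧ CMl A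
  iso : ∀ {A A' : Type} [CommRing A] [CommRing A'] (φ : A →+* A') (𝔓 : Ideal A'), 𝔓.IsPrime →
    Function.Injective φ → (∀ y : A', ∃ s x : A, φ s ∉ 𝔓 ∧ φ s * y = φ x) →
      (Good (𝔓.comap φ) ↔ Good 𝔓)
  qg : ∀ {Q A' : Type} [CommRing Q] [CommRing A'] (φ : Q →+* A') (𝔓 : Ideal A'), 𝔓.IsPrime →
    (∀ y : A', ∃ s x : Q, φ s ∉ 𝔓 ∧ φ s * y = φ x) →
      (GoodQ (RingHom.ker φ) (𝔓.comap φ) ↔ Good 𝔓)
  qq : ∀ {Q Q' : Type} [CommRing Q] [CommRing Q'] (φ : Q →+* Q') (𝔭' 𝔮' : Ideal Q'),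
    𝔮'.IsPrime → 𝔭' ≤ 𝔮' → (∀ y : Q', ∃ s x : Q, φ s ∉ 𝔮' ∧ φ s * y - φ x ∈ 𝔭') →
      (GoodQ (𝔭'.comap φ) (𝔮'.comap φ) ↔ GoodQ 𝔭' 𝔮')

-- deps:
def S_DEPTH : Prop := ∀ (R : Type) [CommRing R] [IsLocalRing R] [IsNoetherianRing R]
  (l l' : List R), (∀ t ∈ l, t ∈ maximalIdeal R) → (∀ t ∈ l', t ∈ maximalIdeal R) →
    RegSeq ⊥ l → RegSeq ⊥ l' → l'.length < l.length →
    ∀ g, (∀ t ∈ maximalIdeal R, t * g ∈ Ideal.ofList l') → g ∈ Ideal.ofList l'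

-- deps:
def S_FLAT : Prop := ∀ (A B : Type) [CommRing A] [CommRing B] [Algebra A B] [Module.Flat A B]
  (𝔞 : Ideal A) (l : List A), RegSeq 𝔞 l →
    RegSeq (𝔞.map (algebraMap A B)) (l.map (algebraMap A B))

-- deps:
def S_MONIC : Prop := ∀ (A : Type) [CommRing A] [IsLocalRing A] (g : A[X]),
  g ∉ (maximalIdeal A).map (C : A →+* A[X]) →
    ∃ (h : A[X]) (u : A), h.Monic ∧ h - C u * g ∈ (maximalIdeal A).map (C : A →+* A[X])

-- deps: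
def S_BRG : Prop := ∀ (B : Type) [CommRing B] [IsLocalRing B] [IsNoetherianRing B], CMl B →
  ∃ l : List B, RingTheory.Sequence.IsRegular B l ∧ (l.length : WithBot ℕ∞) = ringKrullDim B

-- deps: ISO
def S_REG : Prop := ∀ (O σ : Type) [CommRing O] [IsDomain O] [IsDiscreteValuationRing O]
  [Fintype σ] (𝔮 : Ideal (MvPolynomial σ O)), 𝔮.IsPrime → GoodQ ⊥ 𝔮

-- deps: FLAT MONIC
def S_UPL : Prop := ∀ (B : Type) [CommRing B] [IsDomain B] [IsLocalRing B] [IsNoetherianRing B]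
  (𝔓 : Ideal B[X]), IsIntegrallyClosed B → CMl B → 𝔓.IsPrime →
    𝔓.comap (C : B →+* B[X]) = maximalIdeal B → Good 𝔓

-- deps: ISO UPL
def S_UP : Prop := ∀ (A : Type) [CommRing A] [IsDomain A] [IsNoetherianRing A]
  (𝔓 : Ideal A[X]), 𝔓.IsPrime → Good (𝔓.comap (C : A →+* A[X])) → Good 𝔓

-- deps: DEPTH FLAT
def S_DOWNL : Prop := ∀ (A B : Type) [CommRing A] [CommRing B] [IsLocalRing A] [IsLocalRing B]
  [IsNoetherianRing A] [IsNoetherianRing B] [IsDomain B] [Algebra A B] [Module.Flat A B],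
    (maximalIdeal A).map (algebraMap A B) = maximalIdeal B → IsIntegrallyClosed B → CMl B →
    IsIntegrallyClosed A ∧ CMl A

-- deps: ISO DOWNL
def S_DOWN : Prop := ∀ (A B : Type) [CommRing A] [CommRing B] [IsNoetherianRing A]
  [IsNoetherianRing B] [IsDomain B] [Algebra A B] [Module.Flat A B] (𝔮 : Ideal A), 𝔮.IsPrime →
    (𝔮.map (algebraMap A B)).IsPrime → (𝔮.map (algebraMap A B)).comap (algebraMap A B) = 𝔮 →
    Good (𝔮.map (algebraMap A B)) → Good 𝔮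

-- deps: ISO UP DOWN
structure S_UDQ : Prop where
  up : ∀ {Q : Type} [CommRing Q] [IsNoetherianRing Q] (𝔭 : Ideal Q) (𝔓 : Ideal Q[X]),
    𝔭.IsPrime → 𝔓.IsPrime → 𝔭.map (C : Q →+* Q[X]) ≤ 𝔓 →
    GoodQ 𝔭 (𝔓.comap (C : Q →+* Q[X])) → GoodQ (𝔭.map (C : Q →+* Q[X])) 𝔓
  down : ∀ {Q : Type} [CommRing Q] [IsNoetherianRing Q] (𝔭 𝔮 : Ideal Q),
    𝔭.IsPrime → 𝔮.IsPrime → 𝔭 ≤ 𝔮 →
    GoodQ (𝔭.map (C : Q →+* Q[X])) (𝔮.map (C : Q →+* Q[X])) → GoodQ 𝔭 𝔮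

/-! ## The projective line lemma -/

/-- The ring `A[τ]`. -/
abbrev RR (A : Type) {K : Type} [CommRing A] [Field K] [Algebra A K] (τ : K) : Subalgebra A K :=
  Algebra.adjoin A {τ}

/-- The extension of an ideal to `A[τ]`. -/
abbrev ext {A K : Type} [CommRing A] [Field K] [Algebra A K] (τ : K) (𝔞 : Ideal A) :
    Ideal (RR A τ) := 𝔞.map (algebraMap A (RR A τ))

theorem noethRR (A : Type) {K : Type} [CommRing A] [Field K] [Algebra A K] [IsNoetherianRing A]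
    (τ : K) : IsNoetherianRing (RR A τ) :=
  have : Algebra.FiniteType A (RR A τ) :=
    Algebra.FiniteType.adjoin_of_finite (Set.finite_singleton τ)
  Algebra.FiniteType.isNoetherianRing A _

theorem memRR {A K : Type} [CommRing A] [Field K] [Algebra A K] {τ y : K} :
    y ∈ RR A τ ↔ ∃ g : A[X], aeval τ g = y := by
  rw [RR, Algebra.adjoin_singleton_eq_range_aeval]
  rfl

/-- The functions on the complement of the zeros of `h` in the closure of the graph of `τ`. -/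
def NN {A K : Type} [CommRing A] [Field K] [Algebra A K] (τ : K) (h : A[X]) : Submodule A K where
  carrier := {y | ∃ (k : ℕ) (g : A[X]), g.natDegree ≤ k * h.natDegree ∧
    y * aeval τ h ^ k = aeval τ g}
  zero_mem' := ⟨0, 0, by simp, by simp⟩
  add_mem' := by
    rintro y y' ⟨k, g, hg, e⟩ ⟨k', g', hg', e'⟩
    refine ⟨k + k', g * h ^ k' + g' * h ^ k, ?_, ?_⟩
    · refine (natDegree_add_le _ _).trans (max_le ?_ ?_)
      · refine natDegree_mul_le.trans ?_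
        have := natDegree_pow_le (p := h) (n := k')
        rw [add_mul]; omega
      · refine natDegree_mul_le.trans ?_
        have := natDegree_pow_le (p := h) (n := k)
        rw [add_mul]; omega
    · rw [map_add, map_mul, map_mul, map_pow, map_pow, ← e, ← e']; ring
  smul_mem' := by
    rintro c y ⟨k, g, hg, e⟩
    refine ⟨k, C c * g, (natDegree_C_mul_le c g).trans hg, ?_⟩
    rw [map_mul, aeval_C, ← e, Algebra.smul_def]; ring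

theorem memNN {A K : Type} [CommRing A] [Field K] [Algebra A K] {τ y : K} {h : A[X]} :
    y ∈ NN τ h ↔ ∃ (k : ℕ) (g : A[X]), g.natDegree ≤ k * h.natDegree ∧
      y * aeval τ h ^ k = aeval τ g := Iff.rfl

/-- Global sections of the extended ideal lie in the ideal. -/
def PP {A K : Type} [CommRing A] [Field K] [Algebra A K] (τ : K) (h : A[X]) (𝔞 : Ideal A) :
    Prop :=
  ∀ y ∈ ext τ 𝔞, (y : K) ∈ 𝔞 • NN τ h → ∃ a ∈ 𝔞, algebraMap A K a = (y : K)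

/-- The closed fibre of `A[τ]` is a whole affine line. -/
def Full (A : Type) {K : Type} [CommRing A] [IsLocalRing A] [Field K] [Algebra A K] (τ : K) :
    Prop :=
  ∀ g : A[X], aeval τ g = 0 → g ∈ (maximalIdeal A).map (C : A →+* A[X])

-- deps:
structure S_PV : Prop where
  val : ∀ {A K : Type} [CommRing A] [IsDomain A] [IsIntegrallyClosed A] [Field K] [Algebra A K]
    [IsFractionRing A K] (y : K),
      (∀ V : ValuationSubring K, (∀ a, algebraMap A K a ∈ V) → y ∈ V) →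
      ∃ a, algebraMap A K a = y
  c1 : ∀ {A K : Type} [CommRing A] [IsDomain A] [IsIntegrallyClosed A] [Field K] [Algebra A K]
    [IsFractionRing A K] (τ : K) (h : A[X]) (y : K), h.Monic → y ∈ NN τ h →
      IsIntegral (RR A τ) y → ∃ a, algebraMap A K a = y

-- deps:
structure S_PD : Prop where
  split : ∀ {A K : Type} [CommRing A] [Field K] [Algebra A K] (τ : K) (h : A[X]) (𝔞 : Ideal A)
    (y : K) (k : ℕ), h.Monic → aeval τ h ≠ 0 →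
      (∃ r ∈ ext τ 𝔞, y * aeval τ h ^ k = (r : K)) → ∃ r ∈ ext τ 𝔞, y - (r : K) ∈ 𝔞 • NN τ h
  conv : ∀ {A K : Type} [CommRing A] [Field K] [Algebra A K] (τ : K) (h : A[X]) (𝔞 : Ideal A)
    (y : K), y ∈ 𝔞 • NN τ h → ∃ k : ℕ, ∃ r ∈ ext τ 𝔞, y * aeval τ h ^ k = (r : K)

-- deps: PV PD
structure S_PI : Prop where
  zero : ∀ {A K : Type} [CommRing A] [Field K] [Algebra A K] (τ : K) (h : A[X]), PP τ h ⊥
  step : ∀ {A K : Type} [CommRing A] [IsDomain A] [IsIntegrallyClosed A] [Field K] [Algebra A K]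
    [IsFractionRing A K] (τ : K) (h : A[X]) (𝔞 : Ideal A) (x : A), h.Monic → aeval τ h ≠ 0 →
      PP τ h 𝔞 → NZD (ext τ 𝔞) (algebraMap A (RR A τ) x) → PP τ h (𝔞 ⊔ Ideal.span {x})
  noass : ∀ {A K : Type} [CommRing A] [IsDomain A] [IsIntegrallyClosed A] [Field K]
    [Algebra A K] [IsFractionRing A K] (τ : K) (h : A[X]) (𝔞 𝔪 : Ideal A), h.Monic →
      aeval τ h ≠ 0 → PP τ h 𝔞 → (∀ a, (∀ t ∈ 𝔪, t * a ∈ 𝔞) → a ∈ 𝔞) →
      ∀ g y : RR A τ, (y : K) = aeval τ h → y * g ∈ ext τ 𝔞 →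
        (∀ t ∈ 𝔪, algebraMap A (RR A τ) t * g ∈ ext τ 𝔞) → g ∈ ext τ 𝔞

-- deps: PV
def S_PT : Prop := ∀ (A K : Type) [CommRing A] [IsDomain A] [IsLocalRing A]
  [IsIntegrallyClosed A] [Field K] [Algebra A K] [IsFractionRing A K] (τ : K),
    ext τ (maximalIdeal A) ≠ ⊤ → (∃ a, algebraMap A K a = τ) ∨ Full A τ

-- deps: MONIC
structure S_PX : Prop where
  mem : ∀ {A K : Type} [CommRing A] [IsLocalRing A] [Field K] [Algebra A K] (τ : K), Full A τ →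
    ∀ (g : A[X]) (y : RR A τ), (y : K) = aeval τ g →
      (y ∈ ext τ (maximalIdeal A) ↔ g ∈ (maximalIdeal A).map (C : A →+* A[X]))
  prime : ∀ {A K : Type} [CommRing A] [IsLocalRing A] [Field K] [Algebra A K] (τ : K),
    Full A τ → (ext τ (maximalIdeal A)).IsPrime
  notMem : ∀ {A K : Type} [CommRing A] [IsLocalRing A] [Field K] [Algebra A K] (τ : K),
    Full A τ → ∀ h : A[X], h.Monic → aeval τ h ≠ 0 ∧
      ∀ y : RR A τ, (y : K) = aeval τ h → y ∉ ext τ (maximalIdeal A)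
  monic : ∀ {A K : Type} [CommRing A] [IsLocalRing A] [Field K] [Algebra A K] (τ : K),
    Full A τ → ∀ 𝔓 : Ideal (RR A τ), ext τ (maximalIdeal A) < 𝔓 →
      ∃ h : A[X], h.Monic ∧ ∃ y ∈ 𝔓, (y : K) = aeval τ h

-- deps: FLAT PX
def S_DIMX : Prop := ∀ (A K : Type) [CommRing A] [IsDomain A] [IsLocalRing A]
  [IsNoetherianRing A] [Field K] [Algebra A K] [IsFractionRing A K] (τ : K) (l : List A),
    Full A τ → (∀ t ∈ l, t ∈ maximalIdeal A) → RegSeq ⊥ l →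
    ∀ (ξ : Ideal (RR A τ)) [ξ.IsPrime], ξ = ext τ (maximalIdeal A) →
      (l.length : WithBot ℕ∞) ≤ ringKrullDim (Localization.AtPrime ξ) + 1

-- deps:
def S_DIMH : Prop := ∀ (A K : Type) [CommRing A] [IsDomain A] [IsLocalRing A]
  [IsNoetherianRing A] [Field K] [Algebra A K] [IsFractionRing A K] (τ : K)
  (η : Ideal (RR A τ)) [η.IsPrime], ringKrullDim (Localization.AtPrime η) ≤ ringKrullDim A

-- deps: PV PD
def S_PN : Prop := ∀ (A K : Type) [CommRing A] [IsDomain A] [IsNoetherianRing A]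
  [IsIntegrallyClosed A] [Field K] [Algebra A K] [IsFractionRing A K] (τ : K) (h : A[X])
  (η : Ideal (RR A τ)) [η.IsPrime], h.Monic → aeval τ h ≠ 0 →
    (∃ y ∈ η, (y : K) = aeval τ h) →
    (∀ (𝔓 : Ideal (RR A τ)) [𝔓.IsPrime], 𝔓 < η →
      IsIntegrallyClosed (Localization.AtPrime 𝔓)) →
    IsIntegrallyClosed (Localization.AtPrime η)

-- deps: DEPTH PI PX DIMX DIMH
def S_PC : Prop := ∀ (A K : Type) [CommRing A] [IsDomain A] [IsLocalRing A] [IsNoetherianRing A]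
  [IsIntegrallyClosed A] [Field K] [Algebra A K] [IsFractionRing A K] (τ : K) (h : A[X])
  (η : Ideal (RR A τ)) [η.IsPrime], Full A τ → CMl A → ext τ (maximalIdeal A) ≤ η → h.Monic →
    (∃ y ∈ η, (y : K) = aeval τ h) →
    (∀ (ξ : Ideal (RR A τ)) [ξ.IsPrime], ξ = ext τ (maximalIdeal A) →
      CMl (Localization.AtPrime ξ)) →
    CMl (Localization.AtPrime η)

-- deps: ISO PT PX PN PC
def S_PL : Prop := ∀ (A K : Type) [CommRing A] [IsDomain A] [IsLocalRing A] [IsNoetherianRing A]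
  [Field K] [Algebra A K] [IsFractionRing A K] (τ : K) (h : A[X]) (η : Ideal (RR A τ)),
    IsIntegrallyClosed A → CMl A → η.IsPrime → ext τ (maximalIdeal A) ≤ η → h.Monic →
    (∃ y ∈ η, (y : K) = aeval τ h) →
    (∀ 𝔓 : Ideal (RR A τ), 𝔓.IsPrime → 𝔓 < η → Good 𝔓) → Good η

-- deps: ISO MONIC PL
def S_PQ : Prop := ∀ (Q : Type) [CommRing Q] [IsNoetherianRing Q] (𝔎 η : Ideal Q[X]) (c d : Q),
  𝔎.IsPrime → η.IsPrime → 𝔎 ≤ η → C c ∉ 𝔎 → C c * X - C d ∈ 𝔎 →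
    η ≠ (η.comap (C : Q →+* Q[X])).map (C : Q →+* Q[X]) →
    GoodQ (𝔎.comap (C : Q →+* Q[X])) (η.comap (C : Q →+* Q[X])) →
    (∀ 𝔓 : Ideal Q[X], 𝔓.IsPrime → 𝔎 ≤ 𝔓 → 𝔓 < η → GoodQ 𝔎 𝔓) → GoodQ 𝔎 η

/-! ## Flows -/

/-- A one parameter family of automorphisms through the identity. -/
def IsFlow {Q : Type} [CommRing Q] (φ : Q →+* Q[X]) : Prop :=
  (∀ f, (φ f).coeff 0 = f) ∧ ∃ σ : Q[X] ≃+* Q[X], σ X = X ∧ ∀ f, σ (C f) = φ f

/-- The ideal of the variety swept out by the flow. -/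
def mv {Q : Type} [CommRing Q] (φ : Q →+* Q[X]) (𝔭 : Ideal Q) : Ideal Q :=
  (𝔭.map (C : Q →+* Q[X])).comap φ

theorem mem_mv {Q : Type} [CommRing Q] {φ : Q →+* Q[X]} {𝔭 : Ideal Q} {f : Q} :
    f ∈ mv φ 𝔭 ↔ φ f ∈ 𝔭.map (C : Q →+* Q[X]) := Iff.rfl

theorem mv_le {Q : Type} [CommRing Q] {φ : Q →+* Q[X]} (h : IsFlow φ) (𝔭 : Ideal Q) :
    mv φ 𝔭 ≤ 𝔭 := fun f hf => by
  have := Ideal.mem_map_C_iff.mp (mem_mv.mp hf) 0
  rwa [h.1] at this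

theorem mv_mono {Q : Type} [CommRing Q] (φ : Q →+* Q[X]) {𝔭 𝔮 : Ideal Q} (h : 𝔭 ≤ 𝔮) :
    mv φ 𝔭 ≤ mv φ 𝔮 := Ideal.comap_mono (Ideal.map_mono h)

theorem mv_prime {Q : Type} [CommRing Q] (φ : Q →+* Q[X]) {𝔭 : Ideal Q} (h : 𝔭.IsPrime) :
    (mv φ 𝔭).IsPrime :=
  have : (𝔭.map (C : Q →+* Q[X])).IsPrime := Ideal.isPrime_map_C_of_isPrime
  Ideal.comap_isPrime φ _

-- deps: ISO UDQ
def S_SAT : Prop := ∀ (Q : Type) [CommRing Q] [IsNoetherianRing Q] (φ : Q →+* Q[X])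
  (𝔭 𝔮 : Ideal Q), IsFlow φ → 𝔭.IsPrime → 𝔮.IsPrime → 𝔭 ≤ 𝔮 → mv φ 𝔭 = 𝔭 →
    GoodQ 𝔭 (mv φ 𝔮) → GoodQ 𝔭 𝔮

-- deps: ISO UDQ PQ
def S_BIR : Prop := ∀ (Q : Type) [CommRing Q] [IsNoetherianRing Q] (φ : Q →+* Q[X])
  (𝔭 𝔮 : Ideal Q) (c d : Q), IsFlow φ → 𝔭.IsPrime → 𝔮.IsPrime → 𝔭 ≤ 𝔮 → c ∉ mv φ 𝔭 →
    φ c * X - φ d ∈ 𝔭.map (C : Q →+* Q[X]) → mv φ 𝔮 ≠ 𝔮 → GoodQ (mv φ 𝔭) (mv φ 𝔮) →
    (∀ 𝔮' : Ideal Q, 𝔮'.IsPrime → 𝔭 ≤ 𝔮' → 𝔮' < 𝔮 → GoodQ 𝔭 𝔮') → GoodQ 𝔭 𝔮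

-- deps: SAT BIR
def S_MAIN : Prop := ∀ (Q ι : Type) [CommRing Q] [IsNoetherianRing Q] (φ : ι → Q →+* Q[X])
  (F : Set (Ideal Q)) (δ : Q), (∀ i, IsFlow (φ i)) → (∀ 𝔭 ∈ F, 𝔭.IsPrime) →
    (∀ 𝔭 ∈ F, ∀ i, mv (φ i) 𝔭 = 𝔭 ∨ (mv (φ i) 𝔭 ∈ F ∧ ∃ c d, c ∉ mv (φ i) 𝔭 ∧
      φ i c * X - φ i d ∈ 𝔭.map (C : Q →+* Q[X]))) →
    (∀ 𝔭 ∈ F, ∀ 𝔮 : Ideal Q, 𝔮.IsPrime → 𝔭 ≤ 𝔮 → δ ∉ 𝔮 → (∀ i, mv (φ i) 𝔮 = 𝔮) →
      GoodQ 𝔭 𝔮) →
    ∀ 𝔭 ∈ F, ∀ 𝔮 : Ideal Q, 𝔮.IsPrime → 𝔭 ≤ 𝔮 → δ ∉ 𝔮 → GoodQ 𝔭 𝔮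

end

end Pool.Agent.P.MP_e7d440_ag.G
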