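import Pool.Agent.P.MP_e7d440_ag.G.IfaceA

/-! Double cosets of the lower triangular group and the ideals they define. -/

namespace Pool.Agent.P.MP_e7d440_ag.G

open Matrix

noncomputable section

/-- square matrices -/
abbrev Mat (n : ℕ) (R : Type) : Type := Matrix (Fin n) (Fin n) R

/-- invertible lower triangular matrices -/
def Bor {n : ℕ} {K : Type} [Field K] (x : Mat n K) : Prop :=
  x.det ≠ 0 ∧ ∀ i j, i < j → x i j = 0

/-- a set of invertible matrices stable under lower triangular matrices on both sides -/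
def BB {n : ℕ} {K : Type} [Field K] (S : Set (Mat n K)) : Prop :=
  ∀ x ∈ S, x.det ≠ 0 ∧ ∀ b, Bor b → b * x ∈ S ∧ x * b ∈ S

/-- the entries of a matrix as a point of affine space -/
abbrev ent {n : ℕ} {R : Type} (x : Mat n R) : Fin n × Fin n → R := fun p => x p.1 p.2

/-- the Zariski closure -/
def Zc {n : ℕ} {K : Type} [Field K] (S : Set (Mat n K)) : Set (Mat n K) :=
  {x | ∀ g : MvPolynomial (Fin n × Fin n) K, (∀ y ∈ S, MvPolynomial.eval (ent y) g = 0) →
    MvPolynomial.eval (ent x) g = 0}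

theorem subset_Zc {n : ℕ} {K : Type} [Field K] (S : Set (Mat n K)) : S ⊆ Zc S :=
  fun x hx _ hg => hg x hx

theorem Zc_mono {n : ℕ} {K : Type} [Field K] {S S' : Set (Mat n K)} (h : S ⊆ Zc S') :
    Zc S ⊆ Zc S' := fun _ hx g hg => hx g fun _ hy => h hy g hg

/-- the Bruhat cell -/
def Cell {n : ℕ} (K : Type) [Field K] (w : Equiv.Perm (Fin n)) : Set (Mat n K) :=
  {x | ∃ b b', Bor b ∧ Bor b' ∧ x = b * w.permMatrix K * b'}

/-- the allowed positions of elementary matrices -/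
def Alw {n : ℕ} (i j : Fin n) : Prop := j < i ∨ j.val = i.val + 1

theorem Alw.ne {n : ℕ} {i j : Fin n} (h : Alw i j) : i ≠ j := by
  rintro rfl
  rcases h with h | h
  · exact lt_irrefl _ h
  · omega

/-- the monoid generated by the allowed elementary matrices -/
def El (n : ℕ) (K : Type) [Field K] : Submonoid (Mat n K) :=
  Submonoid.closure {e | ∃ i j c, Alw i j ∧ e = transvection i j c}

/-- the minimal parabolic subgroup at the position `(i, j)` -/
def Ps {n : ℕ} {K : Type} [Field K] (i j : Fin n) (p : Mat n K) : Prop :=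
  p.det ≠ 0 ∧ ∀ k l, k < l → ¬ (k = i ∧ l = j) → p k l = 0

/-- multiplication on the left or on the right -/
def act {n : ℕ} {R : Type} [CommRing R] (ε : Bool) (g x : Mat n R) : Mat n R :=
  if ε then g * x else x * g

/-- the set swept out by a root subgroup -/
def SS {n : ℕ} {K : Type} [Field K] (ε : Bool) (i j : Fin n) (S : Set (Mat n K)) :
    Set (Mat n K) :=
  {x | ∃ c, ∃ y ∈ S, x = act ε (transvection i j c) y}

/-- the parameter of the root subgroup is a rational function on the swept set -/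
def Rtl {n : ℕ} {K : Type} [Field K] (ε : Bool) (i j : Fin n) (S : Set (Mat n K)) : Prop :=
  ∃ c₀ d₀ : MvPolynomial (Fin n × Fin n) ℤ,
    (∃ y ∈ S, MvPolynomial.aeval (ent y) c₀ ≠ 0) ∧
    ∀ y ∈ S, ∀ t : K, MvPolynomial.aeval (ent (act ε (transvection i j t) y)) c₀ * t =
      MvPolynomial.aeval (ent (act ε (transvection i j t) y)) d₀

/-- invertible matrices with prescribed zeros -/
def Pat {n : ℕ} (K : Type) [Field K] (Z : Fin n → Fin n → Prop) : Set (Mat n K) :=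
  {x | x.det ≠ 0 ∧ ∀ k j, Z k j → x k j = 0}

/-- the positions above the diagonal blocks cut out by `T` -/
def ZT {n : ℕ} (T : Set ℕ) (k j : Fin n) : Prop := ∃ s ∈ T, k.val < s ∧ s ≤ j.val

-- deps:
structure S_LINE : Prop where
  line : ∀ {n : ℕ} {K : Type} [Field K] [Infinite K] (S : Set (Mat n K)) (x e : Mat n K),
    {u : K | x + u • e ∉ S}.Finite → x ∈ Zc S
  fin : ∀ {n : ℕ} {K : Type} [Field K] (x e : Mat n K), x.det ≠ 0 →
    {u : K | (x + u • e).det = 0}.Finite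

-- deps:
structure S_BOR : Prop where
  one : ∀ {n : ℕ} {K : Type} [Field K], Bor (1 : Mat n K)
  mul : ∀ {n : ℕ} {K : Type} [Field K] {b b' : Mat n K}, Bor b → Bor b' → Bor (b * b')
  inv : ∀ {n : ℕ} {K : Type} [Field K] {b : Mat n K}, Bor b →
    ∃ b', Bor b' ∧ b' * b = 1 ∧ b * b' = 1
  diag : ∀ {n : ℕ} {K : Type} [Field K] {b : Mat n K}, Bor b → ∀ i, b i i ≠ 0
  ofDiag : ∀ {n : ℕ} {K : Type} [Field K] (d : Fin n → K), (∀ i, d i ≠ 0) →
    Bor (diagonal d : Mat n K)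
  tv : ∀ {n : ℕ} {K : Type} [Field K] {i j : Fin n} (c : K), j < i →
    Bor (n := n) (transvection i j c)
  psL : ∀ {n : ℕ} {K : Type} [Field K] {i j : Fin n} {b p : Mat n K}, j.val = i.val + 1 →
    Bor b → Ps i j p → Ps i j (b * p) ∧ (b * p) i j = b i i * p i j
  psR : ∀ {n : ℕ} {K : Type} [Field K] {i j : Fin n} {b p : Mat n K}, j.val = i.val + 1 →
    Bor b → Ps i j p → Ps i j (p * b) ∧ (p * b) i j = p i j * b j j
  psMul : ∀ {n : ℕ} {K : Type} [Field K] {i j : Fin n} {p p' : Mat n K}, j.val = i.val + 1 →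
    Ps i j p → Ps i j p' → Ps i j (p * p')
  psTv : ∀ {n : ℕ} {K : Type} [Field K] {i j : Fin n} (c : K), i ≠ j →
    Ps i j (transvection i j c)
  psSwap : ∀ {n : ℕ} {K : Type} [Field K] {i j : Fin n}, j.val = i.val + 1 →
    Ps i j ((Equiv.swap i j).permMatrix K)
  psBor : ∀ {n : ℕ} {K : Type} [Field K] {i j : Fin n} {p : Mat n K},
    Ps i j p → p i j = 0 → Bor p
  borPs : ∀ {n : ℕ} {K : Type} [Field K] {i j : Fin n} {p : Mat n K}, Bor p → Ps i j p
  cell : ∀ {n : ℕ} {K : Type} [Field K] (w : Equiv.Perm (Fin n)), BB (Cell K w)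
  perm : ∀ {n : ℕ} {K : Type} [Field K] (w : Equiv.Perm (Fin n)), (w.permMatrix K : Mat n K) ∈ Cell K w
  sub : ∀ {n : ℕ} {K : Type} [Field K] {S : Set (Mat n K)} {w : Equiv.Perm (Fin n)}
    {x : Mat n K}, BB S → x ∈ S → x ∈ Cell K w → Cell K w ⊆ S
  pat : ∀ {n : ℕ} {K : Type} [Field K] (T : Set ℕ), BB (Pat (n := n) K (ZT T))

-- deps:
def S_GEN : Prop := ∀ (n : ℕ) (K : Type) [Field K] (g : Mat n K), g.det ≠ 0 →
  (∃ (d : Fin n → K) (e : Mat n K), (∀ i, d i ≠ 0) ∧ e ∈ El n K ∧ g = diagonal d * e) ∧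
  (∃ (d : Fin n → K) (e : Mat n K), (∀ i, d i ≠ 0) ∧ e ∈ El n K ∧ g = e * diagonal d)

-- deps: BOR
def S_ASC : Prop := ∀ (n : ℕ) (K : Type) [Field K] (i j : Fin n) (w : Equiv.Perm (Fin n))
  (p y : Mat n K), j.val = i.val + 1 → w i < w j → Ps i j p → p i j ≠ 0 → y ∈ Cell K w →
    p * y ∈ Cell K (w * Equiv.swap i j)

-- deps: BOR GEN ASC
def S_BRU : Prop := ∀ (n : ℕ) (K : Type) [Field K] (x : Mat n K), x.det ≠ 0 →
  ∃ w, x ∈ Cell K w

-- deps: LINE BOR
def S_CLOS : Prop := ∀ (n : ℕ) (K : Type) [Field K] [Infinite K] (i j : Fin n)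
  (S : Set (Mat n K)), j.val = i.val + 1 → BB S →
    ∃ S', BB S' ∧ SS true i j S ⊆ S' ∧ S' ⊆ Zc (SS true i j S)

-- deps: LINE BOR ASC
def S_DESC : Prop := ∀ (n : ℕ) (K : Type) [Field K] [Infinite K] (i j : Fin n)
  (w : Equiv.Perm (Fin n)), j.val = i.val + 1 → w j < w i →
    SS true i j (Cell K w) ⊆ Zc (Cell K w)

-- deps: BOR
def S_MINR : Prop := ∀ (n : ℕ) (K : Type) [Field K] (i j : Fin n) (w : Equiv.Perm (Fin n)),
  j.val = i.val + 1 → w i < w j → Rtl true i j (Cell K w)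

-- deps: BOR CLOS DESC MINR
structure S_XD : Prop where
  clos : ∀ {n : ℕ} {K : Type} [Field K] [Infinite K] (ε : Bool) (i j : Fin n)
    (S : Set (Mat n K)), Alw i j → BB S →
      ∃ S', BB S' ∧ SS ε i j S ⊆ S' ∧ S' ⊆ Zc (SS ε i j S)
  dich : ∀ {n : ℕ} {K : Type} [Field K] [Infinite K] (ε : Bool) (i j : Fin n)
    (w : Equiv.Perm (Fin n)), Alw i j →
      SS ε i j (Cell K w) ⊆ Zc (Cell K w) ∨ Rtl ε i j (Cell K w)

/-! ## The ring of two generic matrices -/

/-- polynomials in the entries of two matrices -/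
abbrev QQ (O : Type) [CommRing O] (n : ℕ) : Type := MvPolynomial (Bool × Fin n × Fin n) O

/-- the first generic matrix -/
def gA (O : Type) [CommRing O] (n : ℕ) : Mat n (QQ O n) :=
  Matrix.of fun k l => MvPolynomial.X (true, k, l)

/-- the second generic matrix -/
def gB (O : Type) [CommRing O] (n : ℕ) : Mat n (QQ O n) :=
  Matrix.of fun k l => MvPolynomial.X (false, k, l)

/-- evaluation at a pair of matrices -/
def ev (O : Type) [CommRing O] {n : ℕ} {Ω : Type} [CommRing Ω] [Algebra O Ω] (a b : Mat n Ω) :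
    QQ O n →ₐ[O] Ω :=
  MvPolynomial.aeval fun v => if v.1 then a v.2.1 v.2.2 else b v.2.1 v.2.2

section evl
variable {O : Type} [CommRing O] {n : ℕ} {Ω : Type} [CommRing Ω] [Algebra O Ω]

@[simp] theorem ev_gA (a b : Mat n Ω) (k l : Fin n) : ev O a b (gA O n k l) = a k l := by
  simp [ev, gA]

@[simp] theorem ev_gB (a b : Mat n Ω) (k l : Fin n) : ev O a b (gB O n k l) = b k l := by
  simp [ev, gB]

@[simp] theorem map_gA (a b : Mat n Ω) : (gA O n).map (ev O a b) = a := by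
  ext k l; simp

@[simp] theorem map_gB (a b : Mat n Ω) : (gB O n).map (ev O a b) = b := by
  ext k l; simp

theorem QQ_ext {ψ ψ' : QQ O n →ₐ[O] Ω} (hA : ∀ k l, ψ (gA O n k l) = ψ' (gA O n k l))
    (hB : ∀ k l, ψ (gB O n k l) = ψ' (gB O n k l)) : ψ = ψ' := by
  apply MvPolynomial.algHom_ext
  rintro ⟨_ | _, k, l⟩
  · exact hB k l
  · exact hA k l

theorem ev_eq (ψ : QQ O n →ₐ[O] Ω) : ev O ((gA O n).map ψ) ((gB O n).map ψ) = ψ :=
  QQ_ext (by simp) (by simp)

theorem comp_ev {Ω' : Type} [CommRing Ω'] [Algebra O Ω'] (ψ : Ω →ₐ[O] Ω') (a b : Mat n Ω)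
    (f : QQ O n) : ψ (ev O a b f) = ev O (a.map ψ) (b.map ψ) f := by
  have : ψ.comp (ev O a b) = ev O (a.map ψ) (b.map ψ) := QQ_ext (by simp) (by simp)
  exact DFunLike.congr_fun this f

theorem ev_det (a b : Mat n Ω) :
    ev O a b ((gA O n).det * (gB O n).det) = a.det * b.det := by
  rw [map_mul, AlgHom.map_det, AlgHom.map_det, AlgHom.mapMatrix_apply, AlgHom.mapMatrix_apply,
    map_gA, map_gB]

/-- the product of the pair through `μ` -/
def tri (μ : Mat n O) (a b : Mat n Ω) : Mat n Ω := a * μ.map (algebraMap O Ω) * b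

theorem map_tri {Ω' : Type} [CommRing Ω'] [Algebra O Ω'] (ψ : Ω →ₐ[O] Ω') (μ : Mat n O)
    (a b : Mat n Ω) : (tri μ a b).map ψ = tri μ (a.map ψ) (b.map ψ) := by
  have h : (μ.map (algebraMap O Ω)).map ψ = μ.map (algebraMap O Ω') := by
    ext k l; simp
  rw [tri, tri, ← h]
  exact ((AlgHom.mapMatrix ψ).map_mul _ _).trans
    (congrArg (· * b.map ψ) ((AlgHom.mapMatrix ψ).map_mul _ _))

end evl

/-- the substitution multiplying the first matrix on the left or the second on the right by a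
matrix of polynomials -/
def fl {O : Type} [CommRing O] {n : ℕ} (ε : Bool) (g : Mat n (Polynomial O)) :
    QQ O n →+* Polynomial (QQ O n) :=
  (ev O
    (if ε then g.map (Polynomial.mapRingHom (algebraMap O (QQ O n))) * (gA O n).map Polynomial.C
      else (gA O n).map Polynomial.C)
    (if ε then (gB O n).map Polynomial.C
      else (gB O n).map Polynomial.C *
        g.map (Polynomial.mapRingHom (algebraMap O (QQ O n))))).toRingHom

/-- the flow of a root subgroup -/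
abbrev rt (O : Type) [CommRing O] {n : ℕ} (ε : Bool) (i j : Fin n) :
    QQ O n →+* Polynomial (QQ O n) := fl ε (transvection i j (Polynomial.X : Polynomial O))

/-- the functions vanishing at the pairs of invertible matrices whose product lies in `S` -/
def pp {O : Type} [CommRing O] {n : ℕ} (μ : Mat n O) {K : Type} [Field K] [Algebra O K]
    (S : Set (Mat n K)) : Ideal (QQ O n) where
  carrier := {f | ∀ a b : Mat n K, a.det ≠ 0 → b.det ≠ 0 → tri μ a b ∈ S → ev O a b f = 0}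
  zero_mem' := fun _ _ _ _ _ => map_zero _
  add_mem' := fun hf hg a b ha hb h => by rw [map_add, hf a b ha hb h, hg a b ha hb h, add_zero]
  smul_mem' := fun c f hf a b ha hb h => by
    rw [smul_eq_mul, map_mul, hf a b ha hb h, mul_zero]

theorem mem_pp {O : Type} [CommRing O] {n : ℕ} {μ : Mat n O} {K : Type} [Field K] [Algebra O K]
    {S : Set (Mat n K)} {f : QQ O n} : f ∈ pp μ S ↔
      ∀ a b : Mat n K, a.det ≠ 0 → b.det ≠ 0 → tri μ a b ∈ S → ev O a b f = 0 := Iff.rfl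

theorem pp_anti {O : Type} [CommRing O] {n : ℕ} (μ : Mat n O) {K : Type} [Field K] [Algebra O K]
    {S S' : Set (Mat n K)} (h : S ⊆ S') : pp μ S' ≤ pp μ S :=
  fun _ hf a b ha hb hs => hf a b ha hb (h hs)

-- deps:
structure S_FL : Prop where
  pts : ∀ {O : Type} [CommRing O] {n : ℕ} {Ω : Type} [CommRing Ω] [Algebra O Ω] (ε : Bool)
    (g : Mat n (Polynomial O)) (a b : Mat n Ω) (c : Ω) (f : QQ O n),
      Polynomial.eval₂ (ev O a b).toRingHom c (fl ε g f) =
        ev O (if ε then g.map (Polynomial.aeval c) * a else a)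
          (if ε then b else b * g.map (Polynomial.aeval c)) f
  tv : ∀ {O : Type} [CommRing O] {n : ℕ} {Ω : Type} [CommRing Ω] [Algebra O Ω] (i j : Fin n)
    (c : Ω), (transvection i j (Polynomial.X : Polynomial O)).map (Polynomial.aeval c) =
      transvection i j c
  flow : ∀ (O : Type) [CommRing O] {n : ℕ} (ε : Bool) (i j : Fin n), i ≠ j →
    IsFlow (rt O ε i j)
  kill : ∀ {Q Ω : Type} [CommRing Q] [CommRing Ω] (ψ : Q →+* Ω) (𝔮 : Ideal Q) (c : Ω)
    (F : Polynomial Q), (∀ f ∈ 𝔮, ψ f = 0) → F ∈ 𝔮.map (Polynomial.C : Q →+* Polynomial Q) →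
      Polynomial.eval₂ ψ c F = 0
  mem : ∀ {O : Type} [CommRing O] {n : ℕ} (μ : Mat n O) {K : Type} [Field K] [Infinite K]
    [Algebra O K] (S : Set (Mat n K)) (F : Polynomial (QQ O n)),
      (∀ a b : Mat n K, a.det ≠ 0 → b.det ≠ 0 → tri μ a b ∈ S → ∀ c : K, c ≠ 0 →
        Polynomial.eval₂ (ev O a b).toRingHom c F = 0) →
      F ∈ (pp μ S).map (Polynomial.C : QQ O n →+* Polynomial (QQ O n))

-- deps: BOR BRU FL
structure S_PPL : Prop where
  zc : ∀ {O : Type} [CommRing O] {n : ℕ} (μ : Mat n O) {K : Type} [Field K] [Algebra O K]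
    (S S' : Set (Mat n K)), algebraMap O K μ.det ≠ 0 → (∀ x ∈ S, x.det ≠ 0) → S' ⊆ Zc S →
      pp μ S ≤ pp μ S'
  cell : ∀ {O : Type} [CommRing O] {n : ℕ} (μ : Mat n O) {K : Type} [Field K] [Algebra O K]
    (S : Set (Mat n K)), BB S → (pp μ S).IsPrime → ∃ w, pp μ S = pp μ (Cell K w)
  mv : ∀ {O : Type} [CommRing O] {n : ℕ} (μ : Mat n O) {K : Type} [Field K] [Infinite K]
    [Algebra O K] (S : Set (Mat n K)) (ε : Bool) (i j : Fin n), i ≠ j →
      mv (rt O ε i j) (pp μ S) = pp μ (SS ε i j S)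

-- deps: BOR XD FL PPL
def S_DQ : Prop := ∀ (O : Type) [CommRing O] (n : ℕ) (μ : Mat n O) (K : Type) [Field K]
  [Infinite K] [Algebra O K] (S : Set (Mat n K)) (ε : Bool) (i j : Fin n),
    algebraMap O K μ.det ≠ 0 → Alw i j → BB S → (pp μ S).IsPrime →
    mv (rt O ε i j) (pp μ S) = pp μ S ∨
      ((∃ S' : Set (Mat n K), BB S' ∧ mv (rt O ε i j) (pp μ S) = pp μ S') ∧
        ∃ c d, c ∉ mv (rt O ε i j) (pp μ S) ∧ rt O ε i j c * Polynomial.X - rt O ε i j d ∈
          (pp μ S).map (Polynomial.C : QQ O n →+* Polynomial (QQ O n)))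

-- deps: BOR GEN FL
def S_ORB : Prop := ∀ (O : Type) [CommRing O] (n : ℕ) (μ : Mat n O) (K : Type) [Field K]
  [Infinite K] [Algebra O K] (S : Set (Mat n K)) (𝔮 : Ideal (QQ O n)) (Ω : Type) [Field Ω]
  [Algebra O Ω] (a₀ b₀ : Mat n Ω), BB S → pp μ S ≤ 𝔮 →
    (∀ ε i j, Alw i j → mv (rt O ε i j) 𝔮 = 𝔮) → a₀.det ≠ 0 → b₀.det ≠ 0 →
    (∀ f ∈ 𝔮, ev O a₀ b₀ f = 0) →
    ∀ a b : Mat n Ω, a.det ≠ 0 → b.det ≠ 0 → ∀ f ∈ pp μ S, ev O a b f = 0

-- deps: ORB
def S_TRANS : Prop := ∀ (O : Type) [CommRing O] [IsDomain O] [IsDiscreteValuationRing O] (n : ℕ)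
  (μ : Mat n O) (K : Type) [Field K] [Infinite K] [Algebra O K] (S : Set (Mat n K))
  (𝔮 : Ideal (QQ O n)), Function.Injective (algebraMap O K) → BB S → (pp μ S).IsPrime →
    𝔮.IsPrime → pp μ S ≤ 𝔮 → (gA O n).det * (gB O n).det ∉ 𝔮 →
    (∀ ε i j, Alw i j → mv (rt O ε i j) 𝔮 = 𝔮) → pp μ S = ⊥

-- deps: MAIN REG FL DQ TRANS
def S_XM : Prop := ∀ (O : Type) [CommRing O] [IsDomain O] [IsDiscreteValuationRing O] (n : ℕ)
  (μ : Mat n O) (K : Type) [Field K] [Infinite K] [Algebra O K] (S : Set (Mat n K))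
  (𝔮 : Ideal (QQ O n)), Function.Injective (algebraMap O K) → μ.det ≠ 0 → BB S →
    (pp μ S).IsPrime → 𝔮.IsPrime → pp μ S ≤ 𝔮 → (gA O n).det * (gB O n).det ∉ 𝔮 →
    GoodQ (pp μ S) 𝔮

-- deps:
def S_UNIV : Prop := ∀ (O : Type) [CommRing O] [IsDomain O] (n : ℕ) (μ : Mat n O) (K : Type)
  [Field K] [Infinite K] [Algebra O K] (Z : Fin n → Fin n → Prop),
    Function.Injective (algebraMap O K) → μ.det ≠ 0 → (∀ k, ¬ Z k k) →
    (pp μ (Pat K Z)).IsPrime ∧
      ∀ (D : Type) [CommRing D] [IsDomain D] [Algebra O D] (a b : Mat n D),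
        algebraMap O D μ.det ≠ 0 → b.det ≠ 0 → (∀ k j, Z k j → tri μ a b k j = 0) →
        ∀ f ∈ pp μ (Pat K Z), ev O a b f = 0

-- deps:
def S_TRD : Prop := ∀ (O A D ι κ : Type) [CommRing O] [IsDomain O] [CommRing A] [IsDomain A]
  [CommRing D] [IsDomain D] [Algebra O A] [Algebra O D] [Finite ι] [Finite κ] (ψ : A →ₐ[O] D)
  (z : ι → A) (y : κ → D), (∀ f : A, IsAlgebraic (Algebra.adjoin O (Set.range z)) f) →
    AlgebraicIndependent O y → Nat.card ι ≤ Nat.card κ →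
    (∀ t : D, ∃ s x, ψ s ≠ 0 ∧ ψ s * t = ψ x) → Function.Injective ψ

-- deps: UNIV TRD
def S_KER : Prop := ∀ (O : Type) [CommRing O] [IsDomain O] (n : ℕ) (μ : Mat n O) (K : Type)
  [Field K] [Infinite K] [Algebra O K] (Z : Fin n → Fin n → Prop) (D κ : Type) [CommRing D]
  [IsDomain D] [Algebra O D] [Finite κ] (a b : Mat n D) (y : κ → D),
    Function.Injective (algebraMap O K) → μ.det ≠ 0 → (∀ k, ¬ Z k k) → b.det ≠ 0 →
    (∀ k j, Z k j → tri μ a b k j = 0) → AlgebraicIndependent O y →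
    n * n + Nat.card {p : Fin n × Fin n // ¬ Z p.1 p.2} ≤ Nat.card κ →
    (∀ t : D, ∃ s x, ev O a b s ≠ 0 ∧ ev O a b s * t = ev O a b x) →
    RingHom.ker (ev O a b).toRingHom = pp μ (Pat K Z)

end

end Pool.Agent.P.MP_e7d440_ag.G
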