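import Pool.Agent.P.MP_e7d440_ag.G.IfaceC
import Pool.Agent.P.MP_e7d440_ag.G.IfaceA
import Pool.Agent.P.MP_e7d440_ag.G.IfaceB

/-! Step TRF. -/

set_option autoImplicit false
set_option linter.unusedSectionVars false

namespace Pool.Agent.P.MP_e7d440_ag.G

open Matrix

namespace TRFx

open Classical in
/-- the generic matrix with zeros at `Z` -/
noncomputable def gm (C : Type) [CommRing C] {n : ℕ} {ν : Type} (Z : Fin n → Fin n → Prop)
    (e : {p : Fin n × Fin n // ¬ Z p.1 p.2} → ν) : Mat n (MvPolynomial ν C) :=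
  Matrix.of fun k j => if h : Z k j then 0 else MvPolynomial.X (e ⟨(k, j), h⟩)

theorem gm_zero (C : Type) [CommRing C] {n : ℕ} {ν : Type} (Z : Fin n → Fin n → Prop)
    (e : {p : Fin n × Fin n // ¬ Z p.1 p.2} → ν) (k j : Fin n) (h : Z k j) : gm C Z e k j = 0 := by
  simp [gm, h]

theorem gm_X (C : Type) [CommRing C] {n : ℕ} {ν : Type} (Z : Fin n → Fin n → Prop)
    (e : {p : Fin n × Fin n // ¬ Z p.1 p.2} → ν) (p : {p : Fin n × Fin n // ¬ Z p.1 p.2}) :
    gm C Z e p.1.1 p.1.2 = MvPolynomial.X (e p) := by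
  simp [gm, p.2]

theorem gm_one (C : Type) [CommRing C] {n : ℕ} {ν : Type} (Z : Fin n → Fin n → Prop)
    (e : {p : Fin n × Fin n // ¬ Z p.1 p.2} → ν) (hZ : ∀ k, ¬ Z k k) (v : ν → C)
    (hv : ∀ p, v (e p) = (1 : Mat n C) p.1.1 p.1.2) :
    (gm C Z e).map (MvPolynomial.aeval v) = 1 := by
  ext k j
  by_cases h : Z k j
  · rw [map_apply, gm_zero C Z e k j h, map_zero, one_apply_ne]
    rintro rfl
    exact hZ k h
  · have := gm_X C Z e ⟨(k, j), h⟩
    simp only at this
    rw [map_apply, this, MvPolynomial.aeval_X, hv]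

theorem zt_diag {n : ℕ} (T : Set ℕ) (k : Fin n) : ¬ ZT T k k := by
  rintro ⟨s, _, h1, h2⟩
  omega

/-- the fractions with denominators outside the prime -/
def frS {Q D : Type} [CommRing Q] [CommRing D] (ψ : Q →+* D) (𝔓 : Ideal D) (h : 𝔓.IsPrime) :
    Subring D where
  carrier := {t | ∃ s x, ψ s ∉ 𝔓 ∧ ψ s * t = ψ x}
  zero_mem' := ⟨1, 0, by simpa using (Ideal.ne_top_iff_one _).mp h.ne_top, by simp⟩
  one_mem' := ⟨1, 1, by simpa using (Ideal.ne_top_iff_one _).mp h.ne_top, by simp⟩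
  add_mem' := by
    rintro t t' ⟨s, x, hs, e⟩ ⟨s', x', hs', e'⟩
    refine ⟨s * s', x * s' + x' * s, ?_, ?_⟩
    · rw [map_mul]
      exact fun hm => (h.mem_or_mem hm).elim hs hs'
    · rw [map_add, map_mul, map_mul, map_mul, ← e, ← e']; ring
  mul_mem' := by
    rintro t t' ⟨s, x, hs, e⟩ ⟨s', x', hs', e'⟩
    refine ⟨s * s', x * x', ?_, ?_⟩
    · rw [map_mul]
      exact fun hm => (h.mem_or_mem hm).elim hs hs'
    · rw [map_mul, map_mul, ← e, ← e']; ring
  neg_mem' := by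
    rintro t ⟨s, x, hs, e⟩
    exact ⟨s, -x, hs, by rw [map_neg, ← e]; ring⟩

theorem frS_map {Q D : Type} [CommRing Q] [CommRing D] (ψ : Q →+* D) (𝔓 : Ideal D)
    (h : 𝔓.IsPrime) (x : Q) : ψ x ∈ frS ψ 𝔓 h :=
  ⟨1, x, by simpa using (Ideal.ne_top_iff_one _).mp h.ne_top, by simp⟩

theorem frS_sat {Q D : Type} [CommRing Q] [CommRing D] (ψ : Q →+* D) (𝔓 : Ideal D)
    (h : 𝔓.IsPrime) : Sat (frS ψ 𝔓 h) 𝔓 := by
  rintro y z ⟨s, x, hs, e⟩ hy ⟨s', x', hs', e'⟩
  refine ⟨s' * x, s * x', ?_, ?_⟩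
  · rw [map_mul, ← e]
    exact fun hm => (h.mem_or_mem hm).elim hs' fun hm' => (h.mem_or_mem hm').elim hs hy
  · rw [map_mul, map_mul, ← e, ← e']; ring

theorem prime_map {C ν : Type} [CommRing C] (𝔭 : Ideal C) (h : 𝔭.IsPrime) :
    (𝔭.map (MvPolynomial.C : C →+* MvPolynomial ν C)).IsPrime := by
  rw [← Ideal.Quotient.isDomain_iff_prime]
  exact (MvPolynomial.quotientEquivQuotientMvPolynomial (σ := ν) 𝔭).symm.toMulEquiv.isDomain _

theorem comap_map {C ν : Type} [CommRing C] (𝔭 : Ideal C) :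
    (𝔭.map (MvPolynomial.C : C →+* MvPolynomial ν C)).comap MvPolynomial.C = 𝔭 := by
  classical
  refine le_antisymm (fun c hc => ?_) Ideal.le_comap_map
  have := MvPolynomial.mem_map_C_iff.mp (Ideal.mem_comap.mp hc) 0
  simpa using this

theorem aeval_mem {C ν : Type} [CommRing C] (𝔭 : Ideal C) (v : ν → C) (f : MvPolynomial ν C)
    (hf : f ∈ 𝔭.map (MvPolynomial.C : C →+* MvPolynomial ν C)) :
    MvPolynomial.aeval v f ∈ 𝔭 := by
  have : 𝔭.map (MvPolynomial.C : C →+* MvPolynomial ν C) ≤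
      𝔭.comap (MvPolynomial.aeval v : MvPolynomial ν C →ₐ[C] C).toRingHom := by
    rw [Ideal.map_le_iff_le_comap]
    intro c hc
    simpa using hc
  exact this hf

theorem indep {O C κ ν : Type} [CommRing O] [CommRing C] [IsDomain C] [Algebra O C] (y : κ → C)
    (hy : AlgebraicIndependent O y) :
    AlgebraicIndependent O (Sum.elim (MvPolynomial.X : ν → MvPolynomial ν C)
      (fun k => algebraMap C (MvPolynomial ν C) (y k))) :=
  hy.sumElim_comp (MvPolynomial.algebraicIndependent_X ν C)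

end TRFx

open TRFx in
theorem p_TRF (hISO : S_ISO) (hDOWN : S_DOWN) (hBOR : S_BOR) (hXM : S_XM) (hUNIV : S_UNIV)
    (hKER : S_KER) (hSEC : S_SEC) (hHAT : S_HAT) (hSURJ : S_SURJ) :
    S_TRF := by
  intro O C ι _ _ _ _ _ _ _ _ π r m s Φ₀ J₀ Φ J h y hπ hJ₀ hΦ₀ hΦ hgen hy 𝔭 h𝔭
  classical
  have hOC : Function.Injective (algebraMap O C) := hy.algebraMap_injective
  obtain ⟨a₀, b₀, ha₀, hb₀, htop, hpat⟩ :=
    hSEC C ι (algebraMap O C π) r m s Φ₀ J₀ Φ J h 𝔭 h𝔭 hJ₀ hΦ₀ hΦ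
  let ν := {p : Fin (r + m) × Fin (r + m) // ¬ ZT {r} p.1 p.2} ⊕
    {p : Fin (r + m) × Fin (r + m) // ¬ ZT (Set.range s) p.1 p.2}
  let D := MvPolynomial ν C
  let η : Mat (r + m) D := gm C (ZT {r}) Sum.inl
  let β : Mat (r + m) D := gm C (ZT (Set.range s)) Sum.inr
  let π' : D := algebraMap O D π
  let a : Mat (r + m) D := β * a₀.map (algebraMap C D) * (hat π' r η).adjugate
  let b : Mat (r + m) D := η * b₀.map (algebraMap C D)
  let 𝔓 : Ideal D := 𝔭.map (algebraMap C D)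
  have h𝔓 : 𝔓.IsPrime := prime_map 𝔭 h𝔭
  have hCD : Function.Injective (algebraMap C D) := MvPolynomial.C_injective ν C
  have hOD : Function.Injective (algebraMap O D) := by
    rw [IsScalarTower.algebraMap_eq O C D]
    exact hCD.comp hOC
  have hπ' : π' ≠ 0 := fun h0 => hπ (hOD (h0.trans (map_zero _).symm))
  have hη : ∀ k j, ZT {r} k j → η k j = 0 := gm_zero C _ _
  have hβ : ∀ k j, ZT (Set.range s) k j → β k j = 0 := gm_zero C _ _
  let v : ν → C := Sum.elim (fun p => (1 : Mat (r + m) C) p.1.1 p.1.2)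
    (fun p => (1 : Mat (r + m) C) p.1.1 p.1.2)
  let ε : D →ₐ[C] C := MvPolynomial.aeval v
  have eη : η.map ε = 1 := gm_one C _ _ (zt_diag _) v fun _ => rfl
  have eβ : β.map ε = 1 := gm_one C _ _ (zt_diag _) v fun _ => rfl
  have dη : ε η.det = 1 := by
    rw [AlgHom.map_det, AlgHom.mapMatrix_apply, eη, det_one]
  have dβ : ε β.det = 1 := by
    rw [AlgHom.map_det, AlgHom.mapMatrix_apply, eβ, det_one]
  have dmap : ∀ x : Mat (r + m) C, (x.map (algebraMap C D)).det = algebraMap C D x.det :=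
    fun x => ((algebraMap C D).map_det x).symm
  have hδ : a.det * b.det ∉ 𝔓 := by
    intro hm
    have h1 := aeval_mem 𝔭 v _ hm
    change ε _ ∈ 𝔭 at h1
    simp only [a, b, det_mul, det_adjugate, hHAT.det π' r η hπ' hη, dmap, map_mul, map_pow, dη,
      dβ, AlgHom.commutes, one_mul, one_pow, mul_one, Algebra.algebraMap_self,
      RingHom.id_apply] at h1
    rcases h𝔭.mem_or_mem h1 with h2 | h2
    · exact ha₀ h2
    · exact h𝔭.ne_top (Ideal.eq_top_of_isUnit_mem _ h2 hb₀)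
  let μ : Mat (r + m) O := dd (r + m) 1 π r
  have hμD : μ.map (algebraMap O D) = dd (r + m) 1 π' r := by
    rw [dd_map, map_one]
  have hμ : μ.det ≠ 0 := by
    simp only [μ]
    rw [dd, det_diagonal]
    refine Finset.prod_ne_zero_iff.mpr fun k _ => ?_
    split_ifs
    · exact one_ne_zero
    · exact hπ
  have hab : a * dd (r + m) 1 π' r * b =
      (hat π' r η).det • (β * (a₀ * dd (r + m) 1 (algebraMap O C π) r * b₀).map (algebraMap C D)) := by
    have h1 : (a₀ * dd (r + m) 1 (algebraMap O C π) r * b₀).map (algebraMap C D) =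
        a₀.map (algebraMap C D) * dd (r + m) 1 π' r * b₀.map (algebraMap C D) := by
      rw [Matrix.map_mul, Matrix.map_mul, dd_map, map_one, ← IsScalarTower.algebraMap_apply]
    have h2 : (hat π' r η).adjugate * (dd (r + m) 1 π' r * η) =
        (hat π' r η).det • dd (r + m) 1 π' r := by
      rw [← hHAT.comm π' r η hη, ← Matrix.mul_assoc, adjugate_mul, Matrix.smul_mul, Matrix.one_mul]
    rw [h1]
    calc a * dd (r + m) 1 π' r * b
        = β * a₀.map (algebraMap C D) * ((hat π' r η).adjugate * (dd (r + m) 1 π' r * η)) *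
          b₀.map (algebraMap C D) := by simp only [a, b, Matrix.mul_assoc]
      _ = _ := by rw [h2]; simp only [Matrix.mul_smul, Matrix.smul_mul, Matrix.mul_assoc]
  have hpat' : ∀ k j, ZT (Set.range s) k j → (a * dd (r + m) 1 π' r * b) k j = 0 := by
    intro k j hz
    rw [hab, Matrix.smul_apply, hHAT.pat (Set.range s) _ _ hβ _ k j hz, smul_zero]
    intro k j hz
    rw [map_apply, hpat k j hz, map_zero]
  let θ := (ev O a b).toRingHom
  let T := frS θ 𝔓 h𝔓
  obtain ⟨t1, t2, t3⟩ := hSURJ O C D ι π r m s Φ₀ J₀ Φ J h a₀ b₀ η β a b 𝔓 T h𝔓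
    (frS_sat θ 𝔓 h𝔓) hCD hπ' hΦ₀ (fun i => (hΦ i).2.2) hgen hb₀ htop hη rfl rfl hδ hpat'
    (fun o => by
      have := frS_map θ 𝔓 h𝔓 (algebraMap O _ o)
      rwa [show θ (algebraMap O _ o) = algebraMap O D o from (ev O a b).commutes o] at this)
    (fun k j => by
      have := frS_map θ 𝔓 h𝔓 (gA O _ k j)
      rwa [show θ (gA O _ k j) = a k j from ev_gA a b k j] at this)
    (fun k j => by
      have := frS_map θ 𝔓 h𝔓 (gB O _ k j)
      rwa [show θ (gB O _ k j) = b k j from ev_gB a b k j] at this)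
  have hT : ∀ t : D, t ∈ T := by
    intro t
    induction t using MvPolynomial.induction_on with
    | C c => exact t1 c
    | add p q hp hq => exact T.add_mem hp hq
    | mul_X p i hp =>
      refine T.mul_mem hp ?_
      rcases i with i | i
      · rw [← gm_X C (ZT {r}) Sum.inl i]
        exact t2 _ _
      · rw [← gm_X C (ZT (Set.range s)) Sum.inr i]
        exact t3 _ _
  let K := FractionRing O
  have : Infinite K := Infinite.of_injective _ (IsFractionRing.injective O K)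
  have hOK : Function.Injective (algebraMap O K) := IsFractionRing.injective O K
  have hb : b.det ≠ 0 := fun h0 => hδ (by rw [h0, mul_zero]; exact 𝔓.zero_mem)
  have hker : RingHom.ker θ = pp μ (Pat K (ZT (Set.range s))) := by
    refine hKER O (r + m) μ K _ D (ν ⊕ Fin r × Fin m) a b _ hOK hμ (zt_diag _) hb ?_
      (indep y hy) ?_ fun t => ?_
    · intro k j hz
      rw [tri, hμD]
      exact hpat' k j hz
    · have := hHAT.count r m
      rw [Nat.card_sum, Nat.card_sum, Nat.card_prod, Nat.card_fin, Nat.card_fin]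
      omega
    · obtain ⟨s', x, h1, h2⟩ := hT t
      exact ⟨s', x, fun h0 => h1 (by rw [show θ s' = 0 from h0]; exact 𝔓.zero_mem), h2⟩
  have hprime := (hUNIV O (r + m) μ K (ZT (Set.range s)) hOK hμ (zt_diag _)).1
  have hq : GoodQ (RingHom.ker θ) (𝔓.comap θ) := by
    rw [hker]
    refine hXM O (r + m) μ K _ _ hOK hμ (hBOR.pat _) hprime (Ideal.comap_isPrime θ 𝔓) ?_ ?_
    · rw [← hker]
      exact Ideal.ker_le_comap θ
    · rw [Ideal.mem_comap, show θ _ = a.det * b.det from ev_det a b]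
      exact hδ
  have hg : Good 𝔓 := (hISO.qg θ 𝔓 h𝔓 hT).mp hq
  intro _
  exact hDOWN C D 𝔭 h𝔭 h𝔓 (comap_map 𝔭) hg

end Pool.Agent.P.MP_e7d440_ag.G
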