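import Pool.Agent.P.MP_e7d440_ag.G.IfaceB

/-! Step UNIV. -/

set_option autoImplicit false
set_option linter.unusedSectionVars false

namespace Pool.Agent.P.MP_e7d440_ag.G

open Matrix

namespace UNIVx

variable {O : Type} [CommRing O] {n : ℕ}

open Classical in
/-- the matrix with the entries in `Z` erased -/
noncomputable def xz {Ω : Type} [CommRing Ω] (Z : Fin n → Fin n → Prop) (m : Mat n Ω) : Mat n Ω :=
  Matrix.of fun k j => if Z k j then 0 else m k j

theorem xz_map {Ω Ω' : Type} [CommRing Ω] [CommRing Ω'] [Algebra O Ω] [Algebra O Ω']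
    (ψ : Ω →ₐ[O] Ω') (Z : Fin n → Fin n → Prop) (m : Mat n Ω) :
    (xz Z m).map ψ = xz Z (m.map ψ) := by
  ext k j
  simp only [xz, map_apply, of_apply]
  split_ifs <;> simp

theorem xz_eq {Ω : Type} [CommRing Ω] {Z : Fin n → Fin n → Prop} {m : Mat n Ω}
    (h : ∀ k j, Z k j → m k j = 0) : xz Z m = m := by
  ext k j
  simp only [xz, of_apply]
  split_ifs with c
  · exact (h k j c).symm
  · rfl

theorem map_mu {Ω Ω' : Type} [CommRing Ω] [CommRing Ω'] [Algebra O Ω] [Algebra O Ω']
    (ψ : Ω →ₐ[O] Ω') (μ : Mat n O) (b : Mat n Ω) :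
    (μ.map (algebraMap O Ω) * b).map ψ = μ.map (algebraMap O Ω') * b.map ψ := by
  have := map_tri ψ μ 1 b
  rwa [tri, tri, Matrix.map_one _ (map_zero ψ) (map_one ψ), one_mul, one_mul] at this

theorem map_det' {Ω Ω' : Type} [CommRing Ω] [CommRing Ω'] [Algebra O Ω] [Algebra O Ω']
    (ψ : Ω →ₐ[O] Ω') (m : Mat n Ω) : ψ m.det = (m.map ψ).det := AlgHom.map_det ψ m

theorem map_mul' {Ω Ω' : Type} [CommRing Ω] [CommRing Ω'] [Algebra O Ω] [Algebra O Ω']
    (ψ : Ω →ₐ[O] Ω') (m m' : Mat n Ω) : (m * m').map ψ = m.map ψ * m'.map ψ :=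
  (AlgHom.mapMatrix ψ).map_mul _ _

theorem det_mu (Ω : Type) [CommRing Ω] [Algebra O Ω] (μ : Mat n O) (b : Mat n Ω) :
    (μ.map (algebraMap O Ω) * b).det = algebraMap O Ω μ.det * b.det := by
  rw [det_mul, RingHom.map_det]; rfl

theorem zero_of {K : Type} [Field K] [Infinite K] [Algebra O K]
    (h : Function.Injective (algebraMap O K)) {p : QQ O n}
    (hp : ∀ a b : Mat n K, ev O a b p = 0) : p = 0 := by
  refine MvPolynomial.map_injective _ h (MvPolynomial.funext fun v => ?_)
  have := hp (Matrix.of fun k l => v (true, k, l)) (Matrix.of fun k l => v (false, k, l))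
  rw [map_zero, map_zero, MvPolynomial.eval_map, ← MvPolynomial.aeval_def, ← this, ev]
  congr 2
  funext ⟨c, k, l⟩
  cases c <;> rfl

end UNIVx

open UNIVx in
theorem p_UNIV :
    S_UNIV := by
  intro O _ _ n μ K _ _ _ Z hK hμ hZ
  have hμK : algebraMap O K μ.det ≠ 0 := fun c => hμ (hK (c.trans (map_zero _).symm))
  obtain ⟨d, hd⟩ : ∃ d, d = (μ.map (algebraMap O (QQ O n)) * gB O n).det := ⟨_, rfl⟩
  have hde : ∀ (Ω : Type) [CommRing Ω] [Algebra O Ω] (m b : Mat n Ω),
      ev O m b d = (μ.map (algebraMap O Ω) * b).det := fun Ω _ _ m b => by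
    rw [hd, map_det', map_mu, map_gB]
  have hxe : ∀ m b : Mat n K, ev O m b (xz Z (gA O n)).det = (xz Z m).det := fun m b => by
    rw [map_det', xz_map, map_gA]
  have hd0 : d ≠ 0 := fun c => by
    have := hde K 1 1
    rw [c, map_zero, det_mu, det_one, mul_one] at this
    exact hμK this.symm
  have hx0 : (xz Z (gA O n)).det ≠ 0 := fun c => by
    have := hxe 1 1
    rw [c, map_zero, xz_eq fun k j h => one_apply_ne (by rintro rfl; exact hZ k h), det_one] at this
    exact zero_ne_one this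
  have : IsDomain (Localization.Away d) :=
    IsLocalization.isDomain_localization (powers_le_nonZeroDivisors_of_noZeroDivisors hd0)
  let ι : QQ O n →ₐ[O] Localization.Away d := IsScalarTower.toAlgHom O _ _
  have hu : IsUnit (ι d) := IsLocalization.Away.algebraMap_isUnit d
  obtain ⟨N, hN⟩ : ∃ N, (μ.map (algebraMap O (QQ O n)) * gB O n).map ι * N = 1 :=
    ⟨_, mul_nonsing_inv _ (by rw [← map_det', ← hd]; exact hu)⟩
  let ψ := ev O ((xz Z (gA O n)).map ι * N) ((gB O n).map ι)
  have core : ∀ (Ω : Type) [Field Ω] [Algebra O Ω] (m b : Mat n Ω),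
      (μ.map (algebraMap O Ω) * b).det ≠ 0 → ∃ (χ : Localization.Away d →ₐ[O] Ω) (N' : Mat n Ω),
        (∀ p, χ (ι p) = ev O m b p) ∧ μ.map (algebraMap O Ω) * b * N' = 1 ∧
          ∀ f, χ (ψ f) = ev O (xz Z m * N') b f := fun Ω _ _ m b h => by
    have h1 : IsUnit (ev O m b d) := by rw [hde]; exact h.isUnit
    let χ : Localization.Away d →ₐ[O] Ω := IsLocalization.Away.liftAlgHom d h1
    have h2 : ∀ p, χ (ι p) = ev O m b p := fun p => IsLocalization.Away.lift_eq d h1 p
    have h3 : ∀ M : Mat n (QQ O n), (M.map ι).map χ = M.map (ev O m b) := fun M => by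
      ext k l; exact h2 _
    refine ⟨χ, N.map χ, h2, ?_, fun f => ?_⟩
    · have := congrArg (fun M => Matrix.map M χ) hN
      rwa [map_mul', h3, map_mu, map_gB, Matrix.map_one _ (map_zero χ) (map_one χ)] at this
    · rw [comp_ev, map_mul', h3, h3, xz_map, map_gA, map_gB]
  have hA : ∀ (Ω : Type) [Field Ω] [Algebra O Ω] (a b : Mat n Ω), algebraMap O Ω μ.det ≠ 0 →
      b.det ≠ 0 → (∀ k j, Z k j → tri μ a b k j = 0) → ∀ f, ψ f = 0 → ev O a b f = 0 :=
    fun Ω _ _ a b h1 h2 h3 f hf => by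
      obtain ⟨χ, N', -, c2, c3⟩ := core Ω (tri μ a b) b (by rw [det_mu]; exact mul_ne_zero h1 h2)
      have := c3 f
      rwa [hf, map_zero, xz_eq h3, tri, mul_assoc a, mul_assoc a, c2, mul_one, eq_comm] at this
  have hB : ∀ f ∈ pp μ (Pat K Z), ψ f = 0 := fun f hf => by
    obtain ⟨k, g, hg⟩ := IsLocalization.Away.surj d (ψ f)
    change ψ f * ι d ^ k = ι g at hg
    have h1 : g * (d * (xz Z (gA O n)).det) = 0 := zero_of hK fun m b => by
      rw [map_mul, map_mul, hde, hxe]
      refine mul_eq_zero.2 (or_iff_not_imp_right.2 fun c => ?_)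
      obtain ⟨c1, c2⟩ := mul_ne_zero_iff.1 c
      obtain ⟨χ, N', e1, e2, e3⟩ := core K m b c1
      have e4 : N'.det ≠ 0 := fun c => by
        have := congrArg det e2
        rw [det_mul, c, mul_zero, det_one] at this
        exact zero_ne_one this
      have e5 : tri μ (xz Z m * N') b = xz Z m := by
        rw [tri, mul_assoc, mul_assoc, mul_eq_one_comm.1 e2, mul_one]
      rw [← e1, ← hg, map_mul, e3, hf _ _ (by rw [det_mul]; exact mul_ne_zero c2 e4)
        (by rw [det_mu] at c1; exact right_ne_zero_of_mul c1)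
        (by rw [e5]; exact ⟨c2, fun k j h => if_pos h⟩), zero_mul]
    rw [(mul_eq_zero.1 h1).resolve_right (mul_ne_zero hd0 hx0), map_zero] at hg
    exact (hu.pow k).mul_left_eq_zero.1 hg
  refine ⟨?_, fun D _ _ _ a b h1 h2 h3 f hf => ?_⟩
  · have : pp μ (Pat K Z) = RingHom.ker ψ :=
      le_antisymm hB fun f hf a b _ hb h => hA K a b hμK hb h.2 f hf
    rw [this]
    exact RingHom.ker_isPrime ψ
  · let φ : D →ₐ[O] FractionRing D := IsScalarTower.toAlgHom O _ _
    have hφ : Function.Injective φ := IsFractionRing.injective D _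
    refine hφ ?_
    rw [map_zero, comp_ev]
    refine hA _ _ _ ?_ ?_ (fun k j h => ?_) f (hB f hf)
    · rw [← φ.commutes]; exact (map_ne_zero_iff φ hφ).2 h1
    · rw [← map_det']; exact (map_ne_zero_iff φ hφ).2 h2
    · rw [← map_tri, map_apply, h3 k j h, map_zero]

end Pool.Agent.P.MP_e7d440_ag.G
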