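import Pool.Agent.P.MP_e7d440_ag.G.IfaceA

/-! Step UP. -/

set_option autoImplicit false
set_option linter.unusedSectionVars false

namespace Pool.Agent.P.MP_e7d440_ag.G

open IsLocalRing Polynomial

attribute [local instance] Polynomial.algebra Polynomial.isLocalization in
theorem p_UP (hISO : S_ISO) (hUPL : S_UPL) :
    S_UP := by
  intro A _ _ _ 𝔓 hP hG
  set 𝔮 := 𝔓.comap (C : A →+* A[X]) with hq
  have : 𝔮.IsPrime := Ideal.comap_isPrime _ _
  let B := Localization.AtPrime 𝔮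
  have hd : Disjoint ((𝔮.primeCompl.map (C : A →+* A[X]) : Submonoid A[X]) : Set A[X]) 𝔓 := by
    rw [Set.disjoint_left]
    rintro _ ⟨s, hs, rfl⟩ h
    exact hs h
  have h1 := IsLocalization.isPrime_of_isPrime_disjoint (𝔮.primeCompl.map (C : A →+* A[X])) B[X]
    𝔓 hP hd
  have h2 : (𝔓.map (algebraMap A[X] B[X])).comap (algebraMap A[X] B[X]) = 𝔓 :=
    IsLocalization.under_map_of_isPrime_disjoint (𝔮.primeCompl.map (C : A →+* A[X])) B[X] hP hd
  have h3 : (𝔓.map (algebraMap A[X] B[X])).comap (C : B →+* B[X]) = maximalIdeal B := by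
    refine ((maximalIdeal.isMaximal B).eq_of_le (Ideal.comap_isPrime _ _).ne_top ?_).symm
    rw [← Localization.AtPrime.map_eq_maximalIdeal, Ideal.map_le_iff_le_comap]
    intro a ha
    have h4 := Ideal.mem_map_of_mem (algebraMap A[X] B[X]) (show C a ∈ 𝔓 from ha)
    rw [Polynomial.algebraMap_def, coe_mapRingHom, map_C] at h4
    exact h4
  have h4 : Good (𝔓.map (algebraMap A[X] B[X])) := @hUPL B _ _ _ _ _ hG.1 hG.2 h1 h3
  rw [← h2]
  refine @Iff.mpr (Good _) (Good _) (hISO.iso (algebraMap A[X] B[X]) _ h1 ?_ fun y => ?_) @h4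
  · exact map_injective _ (IsLocalization.injective B 𝔮.primeCompl_le_nonZeroDivisors)
  · obtain ⟨⟨x, s⟩, h⟩ := IsLocalization.surj (𝔮.primeCompl.map (C : A →+* A[X])) y
    refine ⟨s, x, fun h5 => ?_, by rw [mul_comm]; exact h⟩
    exact h1.ne_top (Ideal.eq_top_of_isUnit_mem _ h5 (IsLocalization.map_units _ s))

end Pool.Agent.P.MP_e7d440_ag.G
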