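import Pool.Agent.P.MP_e7d440_ag.G.IfaceA

/-! Step UPL. -/

set_option autoImplicit false
set_option linter.unusedSectionVars false

namespace Pool.Agent.P.MP_e7d440_ag.G

open IsLocalRing Polynomial

namespace UPLx

theorem nzd_monic {B : Type} [CommRing B] (𝔞 : Ideal B) {h : B[X]} (hh : h.Monic) :
    NZD (𝔞.map (C : B →+* B[X])) h := fun g hg => by
  rw [← Ideal.mk_ker (I := 𝔞), ← Polynomial.ker_mapRingHom, RingHom.mem_ker] at hg ⊢
  rw [map_mul] at hg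
  exact (hh.map (Ideal.Quotient.mk 𝔞)).isRegular.left (hg.trans (mul_zero _).symm)

theorem cm_loc {Q : Type} [CommRing Q] (𝔓 : Ideal Q) [𝔓.IsPrime] (l : List Q)
    (h1 : ∀ t ∈ l, t ∈ 𝔓) (h2 : RegSeq ⊥ l) (h3 : (𝔓.height : WithBot ℕ∞) ≤ l.length) :
    CMl (Localization.AtPrime 𝔓) := by
  refine ⟨l.map (algebraMap Q _), fun t ht => ?_, ?_, ?_⟩
  · obtain ⟨s, hs, rfl⟩ := List.mem_map.1 ht
    exact (IsLocalization.AtPrime.to_map_mem_maximal_iff _ 𝔓 s).2 (h1 s hs)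
  · exact Ideal.map_bot (f := algebraMap Q (Localization.AtPrime 𝔓)) ▸
      BasicA.regLoc 𝔓.primeCompl h2
  · rwa [IsLocalization.AtPrime.ringKrullDim_eq_height 𝔓, List.length_map]

end UPLx

theorem p_UPL (hFLAT : S_FLAT) (hMONIC : S_MONIC) :
    S_UPL := by
  intro B _ _ _ _ 𝔓 hB ⟨l, h1, h2, h3⟩ _ hP _
  refine ⟨isIntegrallyClosed_of_isLocalization _ 𝔓.primeCompl 𝔓.primeCompl_le_nonZeroDivisors, ?_⟩
  have h4 : (maximalIdeal B).map (C : B →+* B[X]) ≤ 𝔓 := Ideal.map_le_iff_le_comap.2 hP.ge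
  have h5 : RegSeq ⊥ (l.map (C : B →+* B[X])) := by
    simpa only [Ideal.map_bot, algebraMap_eq] using hFLAT B B[X] ⊥ l h2
  have h6 : ∀ t ∈ l.map (C : B →+* B[X]), t ∈ 𝔓 := fun t ht => by
    obtain ⟨s, hs, rfl⟩ := List.mem_map.1 ht
    exact h4 (Ideal.mem_map_of_mem _ (h1 s hs))
  rcases h4.eq_or_lt with e | e
  · refine UPLx.cm_loc 𝔓 _ h6 h5 ?_
    rwa [← e, Polynomial.height_map_C, maximalIdeal_height_eq_ringKrullDim, List.length_map]
  · obtain ⟨g, g1, g2⟩ := SetLike.exists_of_lt e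
    obtain ⟨h, u, k1, k2⟩ := hMONIC B g g2
    refine UPLx.cm_loc 𝔓 (l.map C ++ [h])
      (fun t ht => (List.mem_append.1 ht).elim (h6 t) fun e => ?_)
      ((basic.regAppend _ _ _).2 ⟨h5, ?_, trivial⟩)
      (Ideal.height_le_ringKrullDim_of_isPrime.trans ?_)
    · rw [List.mem_singleton.1 e, ← sub_add_cancel h (C u * g)]
      exact add_mem (h4 k2) (𝔓.mul_mem_left _ g1)
    · rw [bot_sup_eq, ← Ideal.map_ofList]
      exact UPLx.nzd_monic _ k1
    · rw [Polynomial.ringKrullDim_of_isNoetherianRing, List.length_append, List.length_map,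
        List.length_singleton, Nat.cast_add, Nat.cast_one]
      gcongr

end Pool.Agent.P.MP_e7d440_ag.G
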