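import Pool.Agent.P.MP_e7d440_ag.G.IfaceB

/-! Step XD. -/

set_option autoImplicit false
set_option linter.unusedSectionVars false

namespace Pool.Agent.P.MP_e7d440_ag.G

open Matrix

namespace XDx

variable {n : ℕ} {K : Type} [Field K]

/-- the reflection in the second diagonal -/
def at' (x : Mat n K) : Mat n K := (x.submatrix Fin.revPerm Fin.revPerm)ᵀ

theorem at_apply (x : Mat n K) (k l : Fin n) : at' x k l = x l.rev k.rev := rfl

theorem at_at (x : Mat n K) : at' (at' x) = x := by
  ext k l; simp only [at_apply, Fin.rev_rev]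

theorem at_mul (x y : Mat n K) : at' (x * y) = at' y * at' x := by
  rw [at', at', at', ← transpose_mul, submatrix_mul_equiv]

theorem det_at (x : Mat n K) : (at' x).det = x.det := by
  rw [at', det_transpose, det_submatrix_equiv_self]

theorem bor_at {b : Mat n K} (h : Bor b) : Bor (at' b) :=
  ⟨by rw [det_at]; exact h.1, fun _ _ hk => h.2 _ _ (Fin.rev_lt_rev.2 hk)⟩

theorem at_tv (i j : Fin n) (c : K) :
    at' (transvection i j c) = transvection j.rev i.rev c := by
  ext k l
  have e1 : l.rev = k.rev ↔ k = l := by rw [Fin.rev_inj, eq_comm]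
  have e2 : i = l.rev ∧ j = k.rev ↔ j.rev = k ∧ i.rev = l := by
    rw [Fin.rev_eq_iff, Fin.rev_eq_iff, and_comm]
  simp only [at_apply, transvection, Matrix.add_apply, Matrix.one_apply, Matrix.single_apply, e1, e2]

/-- the corresponding involution of the symmetric group -/
def fl' (w : Equiv.Perm (Fin n)) : Equiv.Perm (Fin n) := Fin.revPerm * w⁻¹ * Fin.revPerm

theorem fl_fl (w : Equiv.Perm (Fin n)) : fl' (fl' w) = w := by
  ext k
  simp [fl', Equiv.Perm.mul_apply, Equiv.Perm.inv_def]

theorem at_perm (w : Equiv.Perm (Fin n)) :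
    at' (w.permMatrix K) = (fl' w).permMatrix K := by
  ext k l
  have e : w l.rev = k.rev ↔ fl' w k = l := by
    rw [fl', Equiv.Perm.mul_apply, Equiv.Perm.mul_apply, Fin.revPerm_apply, Fin.revPerm_apply,
      Fin.rev_eq_iff, Equiv.Perm.inv_eq_iff_eq, eq_comm]
  simp only [at_apply, Equiv.Perm.permMatrix, PEquiv.toMatrix_apply, Equiv.toPEquiv_apply,
    Option.mem_def, Option.some.injEq, e]

theorem at_cell {w : Equiv.Perm (Fin n)} {x : Mat n K} (h : x ∈ Cell K w) :
    at' x ∈ Cell K (fl' w) := by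
  obtain ⟨b, b', h1, h2, rfl⟩ := h
  exact ⟨_, _, bor_at h2, bor_at h1, by rw [at_mul, at_mul, at_perm, Matrix.mul_assoc]⟩

theorem pre_cell (w : Equiv.Perm (Fin n)) : Cell K (fl' w) = at' ⁻¹' Cell K w := by
  ext x
  refine ⟨fun h => ?_, fun h => ?_⟩
  · have := at_cell h
    rwa [fl_fl] at this
  · have := at_cell (show at' x ∈ Cell K w from h)
    rwa [at_at] at this

theorem bb_pre {S : Set (Mat n K)} (h : BB S) : BB (at' ⁻¹' S) := fun x hx =>
  ⟨by rw [← det_at]; exact (h _ hx).1, fun b hb => by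
    have := (h _ hx).2 _ (bor_at hb)
    simp only [Set.mem_preimage, at_mul]
    exact this.symm⟩

theorem ss_pre (i j : Fin n) (S : Set (Mat n K)) :
    SS true j.rev i.rev (at' ⁻¹' S) = at' ⁻¹' SS false i j S := by
  ext x
  constructor
  · rintro ⟨c, y, hy, rfl⟩
    refine ⟨c, at' y, hy, ?_⟩
    simp [act, at_mul, at_tv]
  · rintro ⟨c, y, hy, e⟩
    refine ⟨c, at' y, by simpa [at_at] using hy, ?_⟩
    rw [← at_at x, e]
    simp [act, at_mul, at_tv]

/-- the permutation of the variables -/
def rho (p : Fin n × Fin n) : Fin n × Fin n := (p.2.rev, p.1.rev)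

theorem ent_at (y : Mat n K) : ent y ∘ rho = ent (at' y) := rfl

theorem zc_pre {S : Set (Mat n K)} {x : Mat n K} (h : at' x ∈ Zc (at' ⁻¹' S)) : x ∈ Zc S := by
  intro g hg
  have := h (MvPolynomial.rename rho g) fun y hy => by
    rw [MvPolynomial.eval_rename, ent_at]; exact hg _ hy
  rwa [MvPolynomial.eval_rename, ent_at, at_at] at this

theorem rtl_pre {i j : Fin n} {S : Set (Mat n K)} (h : Rtl true j.rev i.rev (at' ⁻¹' S)) :
    Rtl false i j S := by
  obtain ⟨c, d, ⟨y, hy, h1⟩, h2⟩ := h
  refine ⟨MvPolynomial.rename rho c, MvPolynomial.rename rho d, ⟨at' y, hy, ?_⟩, fun y hy t => ?_⟩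
  · rwa [MvPolynomial.aeval_rename, ent_at, at_at]
  · have := h2 (at' y) (by simpa [at_at] using hy) t
    have e : at' (act false (transvection i j t) y) =
        act true (transvection j.rev i.rev t) (at' y) := by simp [act, at_mul, at_tv]
    rwa [MvPolynomial.aeval_rename, MvPolynomial.aeval_rename, ent_at, e]

theorem low (hBOR : S_BOR) (ε : Bool) {i j : Fin n} {S : Set (Mat n K)} (h : j < i) (hS : BB S) :
    SS ε i j S ⊆ S := by
  rintro x ⟨c, y, hy, rfl⟩
  have := (hS y hy).2 _ (hBOR.tv c h)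
  cases ε
  · exact this.2
  · exact this.1

theorem sub_ss (ε : Bool) (i j : Fin n) (S : Set (Mat n K)) : S ⊆ SS ε i j S := fun x hx =>
  ⟨0, x, hx, by simp [act, transvection_zero]⟩

theorem rev_succ {i j : Fin n} (h : j.val = i.val + 1) : i.rev.val = j.rev.val + 1 := by
  have := j.2
  rw [Fin.val_rev, Fin.val_rev]; omega

end XDx

open XDx in
theorem p_XD (hBOR : S_BOR) (hCLOS : S_CLOS) (hDESC : S_DESC) (hMINR : S_MINR) :
    S_XD := by
  have dt : ∀ {n : ℕ} {K : Type} [Field K] [Infinite K] (i j : Fin n) (w : Equiv.Perm (Fin n)),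
      j.val = i.val + 1 → SS true i j (Cell K w) ⊆ Zc (Cell K w) ∨ Rtl true i j (Cell K w) := by
    intro n K _ _ i j w h
    rcases lt_trichotomy (w i) (w j) with h1 | h1 | h1
    · exact Or.inr (hMINR n K i j w h h1)
    · have := congrArg Fin.val (w.injective h1)
      omega
    · exact Or.inl (hDESC n K i j w h h1)
  constructor
  · intro n K _ _ ε i j S h hS
    rcases h with h | h
    · exact ⟨S, hS, low hBOR ε h hS, (sub_ss ε i j S).trans (subset_Zc _)⟩
    cases ε
    · obtain ⟨S', h1, h2, h3⟩ := hCLOS n K j.rev i.rev _ (rev_succ h) (bb_pre hS)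
      rw [ss_pre] at h2 h3
      refine ⟨at' ⁻¹' S', bb_pre h1, fun x hx => h2 ?_, fun x hx => zc_pre (h3 hx)⟩
      simpa [at_at] using hx
    · exact hCLOS n K i j S h hS
  · intro n K _ _ ε i j w h
    rcases h with h | h
    · exact Or.inl ((low hBOR ε h (hBOR.cell w)).trans (subset_Zc _))
    cases ε
    · rcases dt (K := K) j.rev i.rev (fl' w) (rev_succ h) with h1 | h1
      · rw [pre_cell, ss_pre] at h1
        exact Or.inl fun x hx => zc_pre (h1 (by simpa [at_at] using hx))
      · rw [pre_cell] at h1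
        exact Or.inr (rtl_pre h1)
    · exact dt i j w h

end Pool.Agent.P.MP_e7d440_ag.G
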