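import Pool.Agent.P.MP_e7d440_ag.G.IfaceB
import Pool.Agent.P.MP_e7d440_ag.G.IfaceA

/-! Step XM. -/

set_option autoImplicit false
set_option linter.unusedSectionVars false

namespace Pool.Agent.P.MP_e7d440_ag.G

open Matrix

theorem p_XM (hMAIN : S_MAIN) (hREG : S_REG) (hFL : S_FL) (hDQ : S_DQ) (hTRANS : S_TRANS) :
    S_XM := by
  intro O _ _ _ n μ K _ _ _ S 𝔮 hinj hμ hS hp hq hle hδ
  have hμK : algebraMap O K μ.det ≠ 0 := fun h => hμ (hinj (by rw [h, map_zero]))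
  refine @hMAIN (QQ O n) {t : Bool × Fin n × Fin n // Alw t.2.1 t.2.2} _ _
    (fun t => rt O t.1.1 t.1.2.1 t.1.2.2)
    {p | p.IsPrime ∧ ∃ S : Set (Mat n K), BB S ∧ p = pp μ S}
    ((gA O n).det * (gB O n).det) (fun t => hFL.flow O _ _ _ t.2.ne) (fun p h => h.1) ?_ ?_
    (pp μ S) ⟨hp, S, hS, rfl⟩ 𝔮 hq hle hδ
  · rintro p ⟨hp', S', hS', rfl⟩ ⟨⟨ε, i, j⟩, hij⟩
    rcases hDQ O n μ K S' ε i j hμK hij hS' hp' with h | ⟨⟨S'', hS'', h⟩, h'⟩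
    · exact Or.inl h
    · exact Or.inr ⟨⟨mv_prime _ hp', S'', hS'', h⟩, h'⟩
  · rintro p ⟨hp', S', hS', rfl⟩ q hq' hle' hδ' hmv
    have h0 := hTRANS O n μ K S' q hinj hS' hp' hq' hle' hδ'
      (fun ε i j hij => hmv ⟨(ε, i, j), hij⟩)
    rw [h0]
    exact @hREG O (Bool × Fin n × Fin n) _ _ _ _ q hq'

end Pool.Agent.P.MP_e7d440_ag.G
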