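import Pool.Agent.P.MP_e7d440_ag.G.TISO
import Pool.Agent.P.MP_e7d440_ag.G.TDEPTH
import Pool.Agent.P.MP_e7d440_ag.G.TFLAT
import Pool.Agent.P.MP_e7d440_ag.G.TMONIC
import Pool.Agent.P.MP_e7d440_ag.G.TBRG
import Pool.Agent.P.MP_e7d440_ag.G.TREG
import Pool.Agent.P.MP_e7d440_ag.G.TUPL
import Pool.Agent.P.MP_e7d440_ag.G.TUP
import Pool.Agent.P.MP_e7d440_ag.G.TDOWNL
import Pool.Agent.P.MP_e7d440_ag.G.TDOWN
import Pool.Agent.P.MP_e7d440_ag.G.TUDQ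
import Pool.Agent.P.MP_e7d440_ag.G.TPV
import Pool.Agent.P.MP_e7d440_ag.G.TPD
import Pool.Agent.P.MP_e7d440_ag.G.TPI
import Pool.Agent.P.MP_e7d440_ag.G.TPT
import Pool.Agent.P.MP_e7d440_ag.G.TPX
import Pool.Agent.P.MP_e7d440_ag.G.TDIMX
import Pool.Agent.P.MP_e7d440_ag.G.TDIMH
import Pool.Agent.P.MP_e7d440_ag.G.TPN
import Pool.Agent.P.MP_e7d440_ag.G.TPC
import Pool.Agent.P.MP_e7d440_ag.G.TPL
import Pool.Agent.P.MP_e7d440_ag.G.TPQ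
import Pool.Agent.P.MP_e7d440_ag.G.TSAT
import Pool.Agent.P.MP_e7d440_ag.G.TBIR
import Pool.Agent.P.MP_e7d440_ag.G.TMAIN
import Pool.Agent.P.MP_e7d440_ag.G.TLINE
import Pool.Agent.P.MP_e7d440_ag.G.TBOR
import Pool.Agent.P.MP_e7d440_ag.G.TGEN
import Pool.Agent.P.MP_e7d440_ag.G.TASC
import Pool.Agent.P.MP_e7d440_ag.G.TBRU
import Pool.Agent.P.MP_e7d440_ag.G.TCLOS
import Pool.Agent.P.MP_e7d440_ag.G.TDESC
import Pool.Agent.P.MP_e7d440_ag.G.TMINR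
import Pool.Agent.P.MP_e7d440_ag.G.TXD
import Pool.Agent.P.MP_e7d440_ag.G.TFL
import Pool.Agent.P.MP_e7d440_ag.G.TPPL
import Pool.Agent.P.MP_e7d440_ag.G.TDQ
import Pool.Agent.P.MP_e7d440_ag.G.TORB
import Pool.Agent.P.MP_e7d440_ag.G.TTRANS
import Pool.Agent.P.MP_e7d440_ag.G.TXM
import Pool.Agent.P.MP_e7d440_ag.G.TUNIV
import Pool.Agent.P.MP_e7d440_ag.G.TTRD
import Pool.Agent.P.MP_e7d440_ag.G.TKER
import Pool.Agent.P.MP_e7d440_ag.G.TEXT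
import Pool.Agent.P.MP_e7d440_ag.G.TRANK
import Pool.Agent.P.MP_e7d440_ag.G.TFLAG
import Pool.Agent.P.MP_e7d440_ag.G.TDIR2
import Pool.Agent.P.MP_e7d440_ag.G.TSEC
import Pool.Agent.P.MP_e7d440_ag.G.TNMN
import Pool.Agent.P.MP_e7d440_ag.G.TROW
import Pool.Agent.P.MP_e7d440_ag.G.TDIR1
import Pool.Agent.P.MP_e7d440_ag.G.THAT
import Pool.Agent.P.MP_e7d440_ag.G.TSURJ
import Pool.Agent.P.MP_e7d440_ag.G.TTRF
import Pool.Agent.P.MP_e7d440_ag.G.TCHA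
import Pool.Agent.P.MP_e7d440_ag.G.TCHB
import Pool.Agent.P.MP_e7d440_ag.G.TCHC
import Pool.Agent.P.MP_e7d440_ag.G.Fin

/-! All steps, with the hypotheses discharged. -/

namespace Pool.Agent.P.MP_e7d440_ag.G

theorem q_ISO : S_ISO := p_ISO
theorem q_DEPTH : S_DEPTH := p_DEPTH
theorem q_FLAT : S_FLAT := p_FLAT
theorem q_MONIC : S_MONIC := p_MONIC
theorem q_BRG : S_BRG := p_BRG
theorem q_REG : S_REG := p_REG q_ISO
theorem q_UPL : S_UPL := p_UPL q_FLAT q_MONIC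
theorem q_UP : S_UP := p_UP q_ISO q_UPL
theorem q_DOWNL : S_DOWNL := p_DOWNL q_DEPTH q_FLAT
theorem q_DOWN : S_DOWN := p_DOWN q_ISO q_DOWNL
theorem q_UDQ : S_UDQ := p_UDQ q_ISO q_UP q_DOWN
theorem q_PV : S_PV := p_PV
theorem q_PD : S_PD := p_PD
theorem q_PI : S_PI := p_PI q_PV q_PD
theorem q_PT : S_PT := p_PT q_PV
theorem q_PX : S_PX := p_PX q_MONIC
theorem q_DIMX : S_DIMX := p_DIMX q_FLAT q_PX
theorem q_DIMH : S_DIMH := p_DIMH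
theorem q_PN : S_PN := p_PN q_PV q_PD
theorem q_PC : S_PC := p_PC q_DEPTH q_PI q_PX q_DIMX q_DIMH
theorem q_PL : S_PL := p_PL q_ISO q_PT q_PX q_PN q_PC
theorem q_PQ : S_PQ := p_PQ q_ISO q_MONIC q_PL
theorem q_SAT : S_SAT := p_SAT q_ISO q_UDQ
theorem q_BIR : S_BIR := p_BIR q_ISO q_UDQ q_PQ
theorem q_MAIN : S_MAIN := p_MAIN q_SAT q_BIR
theorem q_LINE : S_LINE := p_LINE
theorem q_BOR : S_BOR := p_BOR
theorem q_GEN : S_GEN := p_GEN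
theorem q_ASC : S_ASC := p_ASC q_BOR
theorem q_BRU : S_BRU := p_BRU q_BOR q_GEN q_ASC
theorem q_CLOS : S_CLOS := p_CLOS q_LINE q_BOR
theorem q_DESC : S_DESC := p_DESC q_LINE q_BOR q_ASC
theorem q_MINR : S_MINR := p_MINR q_BOR
theorem q_XD : S_XD := p_XD q_BOR q_CLOS q_DESC q_MINR
theorem q_FL : S_FL := p_FL
theorem q_PPL : S_PPL := p_PPL q_BOR q_BRU q_FL
theorem q_DQ : S_DQ := p_DQ q_BOR q_XD q_FL q_PPL
theorem q_ORB : S_ORB := p_ORB q_BOR q_GEN q_FL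
theorem q_TRANS : S_TRANS := p_TRANS q_ORB
theorem q_XM : S_XM := p_XM q_MAIN q_REG q_FL q_DQ q_TRANS
theorem q_UNIV : S_UNIV := p_UNIV
theorem q_TRD : S_TRD := p_TRD
theorem q_KER : S_KER := p_KER q_UNIV q_TRD
theorem q_EXT : S_EXT := p_EXT
theorem q_RANK : S_RANK := p_RANK
theorem q_FLAG : S_FLAG := p_FLAG
theorem q_DIR2 : S_DIR2 := p_DIR2 q_RANK
theorem q_SEC : S_SEC := p_SEC q_EXT q_FLAG q_DIR2
theorem q_NMN : S_NMN := p_NMN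
theorem q_ROW : S_ROW := p_ROW
theorem q_DIR1 : S_DIR1 := p_DIR1 q_NMN q_ROW
theorem q_HAT : S_HAT := p_HAT
theorem q_SURJ : S_SURJ := p_SURJ q_DIR1 q_HAT
theorem q_TRF : S_TRF := p_TRF q_ISO q_DOWN q_BOR q_XM q_UNIV q_KER q_SEC q_HAT q_SURJ
theorem q_CHA : S_CHA := p_CHA
theorem q_CHB : S_CHB := p_CHB
theorem q_CHC : S_CHC := p_CHC q_TRF q_CHA q_CHB

end Pool.Agent.P.MP_e7d440_ag.G
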