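import Pool.Agent.P.MP_e7d440_ag.G.IfaceB
import Pool.Agent.P.MP_e7d440_ag.Pl

/-! Transfer from the double cosets to the charts of the local model. -/

namespace Pool.Agent.P.MP_e7d440_ag.G

open Matrix

noncomputable section

/-- the diagonal matrix with `x` in the first `s` places and `y` in the others -/
def dd (n : ℕ) {R : Type} [CommRing R] (x y : R) (s : ℕ) : Mat n R :=
  diagonal fun k => if k.val < s then x else y

theorem dd_mul (n : ℕ) {R : Type} [CommRing R] (x y x' y' : R) (s : ℕ) :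
    dd n x y s * dd n x' y' s = dd n (x * x') (y * y') s := by
  rw [dd, dd, dd, diagonal_mul_diagonal]
  congr 1
  ext k
  split_ifs <;> rfl

theorem dd_self (n : ℕ) {R : Type} [CommRing R] (x : R) (s : ℕ) :
    dd n x x s = x • (1 : Mat n R) := by
  rw [dd, smul_one_eq_diagonal]
  congr 1
  ext k
  split_ifs <;> rfl

theorem dd_map (n : ℕ) {R R' F : Type} [CommRing R] [CommRing R'] [FunLike F R R']
    [ZeroHomClass F R R'] (f : F) (x y : R) (s : ℕ) :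
    (dd n x y s).map f = dd n (f x) (f y) s := by
  rw [dd, dd, diagonal_map (map_zero f)]
  congr 1
  ext k
  split_ifs <;> rfl

theorem dd_mul_apply {n : ℕ} {R κ : Type} [CommRing R] (x y : R) (s : ℕ) (M : Matrix (Fin n) κ R)
    (k : Fin n) (j : κ) : (dd n x y s * M) k j = (if k.val < s then x else y) * M k j := by
  rw [dd, diagonal_mul]

theorem mul_dd_apply {n : ℕ} {R κ : Type} [CommRing R] (x y : R) (s : ℕ) (M : Matrix κ (Fin n) R)
    (k : κ) (j : Fin n) : (M * dd n x y s) k j = M k j * (if j.val < s then x else y) := by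
  rw [dd, mul_diagonal]

/-- the first `r` rows -/
abbrev top {R : Type} {r m : ℕ} (b : Mat (r + m) R) : Matrix (Fin r) (Fin (r + m)) R :=
  b.submatrix (Fin.castAdd m) id

/-- a subring closed under division by its elements outside the ideal -/
def Sat {D : Type} [CommRing D] (T : Subring D) (𝔓 : Ideal D) : Prop :=
  ∀ y z, y ∈ T → y ∉ 𝔓 → y * z ∈ T → z ∈ T

theorem det_mem {D κ : Type} [CommRing D] [Fintype κ] [DecidableEq κ] (T : Subring D)
    (M : Matrix κ κ D) (h : ∀ k j, M k j ∈ T) : M.det ∈ T := by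
  have : M = T.subtype.mapMatrix (Matrix.of fun k j => (⟨M k j, h k j⟩ : T)) := by
    ext k j; rfl
  rw [this, ← RingHom.map_det]
  exact SetLike.coe_mem _

theorem adjugate_mem {D κ : Type} [CommRing D] [Fintype κ] [DecidableEq κ] (T : Subring D)
    (M : Matrix κ κ D) (h : ∀ k j, M k j ∈ T) (k j : κ) : M.adjugate k j ∈ T := by
  have : M = T.subtype.mapMatrix (Matrix.of fun k j => (⟨M k j, h k j⟩ : T)) := by
    ext k j; rfl
  rw [this, ← RingHom.map_adjugate]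
  exact SetLike.coe_mem _

theorem mul_mem' {D κ κ' κ'' : Type} [CommRing D] [Fintype κ'] (T : Subring D)
    (M : Matrix κ κ' D) (N : Matrix κ' κ'' D) (h : ∀ k j, M k j ∈ T) (h' : ∀ k j, N k j ∈ T)
    (k : κ) (j : κ'') : (M * N) k j ∈ T := by
  rw [mul_apply]
  exact T.sum_mem fun l _ => T.mul_mem (h k l) (h' l j)

-- deps:
def S_EXT : Prop := ∀ (C : Type) [CommRing C] (r m : ℕ) (Φ : Matrix (Fin r) (Fin (r + m)) C)
  (J : Fin r → Fin (r + m)), Function.Injective J → Φ.submatrix id J = 1 →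
    ∃ b : Mat (r + m) C, IsUnit b.det ∧ top b = Φ

-- deps:
def S_RANK : Prop := ∀ (κ : Type) [Field κ] (n s : ℕ) (G : Mat n (Polynomial κ)) (c : κ),
  c ≠ 0 → s ≤ n → G.det = Polynomial.C c * Polynomial.X ^ (n - s) →
    s ≤ (G.map (Polynomial.eval 0)).rank

-- deps:
def S_FLAG : Prop := ∀ (C κ : Type) [CommRing C] [Field κ] (φ : C →+* κ) (n : ℕ)
  (W : Fin n → Set (Fin n → C)),
    (∀ k, ∃ G : Mat n C, (∀ i, G i ∈ W k) ∧ k.val + 1 ≤ (G.map φ).rank) →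
    ∃ a : Mat n C, (∀ k, a k ∈ W k) ∧ φ a.det ≠ 0

-- deps: RANK
def S_DIR2 : Prop := ∀ (C κ : Type) [CommRing C] [Field κ] (φ : C →+* κ) (π : C) (r m s : ℕ)
  (b₀ b₁ : Mat (r + m) C) (h : Matrix (Fin r) (Fin r) C), s ≤ r + m → IsUnit b₀.det →
    IsUnit b₁.det → top b₁ * dd (r + m) 1 π s = h * top b₀ →
    ∃ G : Mat (r + m) C, (∀ k j : Fin (r + m), s ≤ j.val → (G * dd (r + m) 1 π r * b₀) k j = 0) ∧
      s ≤ (G.map φ).rank

-- deps: EXT FLAG DIR2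
def S_SEC : Prop := ∀ (C ι : Type) [CommRing C] [IsDomain C] (π : C) (r m : ℕ) (s : ι → ℕ)
  (Φ₀ : Matrix (Fin r) (Fin (r + m)) C) (J₀ : Fin r → Fin (r + m))
  (Φ : ι → Matrix (Fin r) (Fin (r + m)) C) (J : ι → Fin r → Fin (r + m))
  (h : ι → Matrix (Fin r) (Fin r) C) (𝔭 : Ideal C), 𝔭.IsPrime → Function.Injective J₀ →
    Φ₀.submatrix id J₀ = 1 →
    (∀ i, s i ≤ r + m ∧ Function.Injective (J i) ∧ (Φ i).submatrix id (J i) = 1 ∧
      Φ₀ * dd (r + m) π 1 (s i) = h i * Φ i ∧ (h i).det ≠ 0) →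
    ∃ a₀ b₀ : Mat (r + m) C, a₀.det ∉ 𝔭 ∧ IsUnit b₀.det ∧ top b₀ = Φ₀ ∧
      ∀ k j, ZT (Set.range s) k j → (a₀ * dd (r + m) 1 π r * b₀) k j = 0

-- deps:
def S_NMN : Prop := ∀ (D : Type) [CommRing D] [IsDomain D] (π : D) (n r s : ℕ) (a b : Mat n D)
  (T : Subring D), π ≠ 0 → a.det ≠ 0 → b.det ≠ 0 → π ∈ T → (∀ k j, a k j ∈ T) →
    (∀ k j, b k j ∈ T) →
    (∀ k j : Fin n, k.val < s → s ≤ j.val → (a * dd n 1 π r * b) k j = 0) →
    ∃ N M : Mat n D, (∀ k j, N k j ∈ T) ∧ dd n π 1 s * N = a * dd n 1 0 r * b * dd n π 1 s ∧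
      N * M * N = (a.det * b.det) • N

-- deps:
def S_ROW : Prop := ∀ (D : Type) [CommRing D] (𝔓 : Ideal D) (r n : ℕ)
  (A : Matrix (Fin n) (Fin r) D) (B : Matrix (Fin r) (Fin n) D) (δ : D), 𝔓.IsPrime → δ ∉ 𝔓 →
    B * A = δ • (1 : Matrix (Fin r) (Fin r) D) →
    ∃ ρ : Fin r → Fin n, (A.submatrix ρ id).det ∉ 𝔓

-- deps: NMN ROW
def S_DIR1 : Prop := ∀ (D : Type) [CommRing D] [IsDomain D] (π : D) (r m s : ℕ)
  (a b : Mat (r + m) D) (T : Subring D) (𝔓 : Ideal D) (Φ : Matrix (Fin r) (Fin (r + m)) D)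
  (J : Fin r → Fin (r + m)) (h : Matrix (Fin r) (Fin r) D), 𝔓.IsPrime → Sat T 𝔓 → π ≠ 0 →
    a.det * b.det ∉ 𝔓 → π ∈ T → (∀ k j, a k j ∈ T) → (∀ k j, b k j ∈ T) →
    (∀ k j : Fin (r + m), k.val < s → s ≤ j.val → (a * dd (r + m) 1 π r * b) k j = 0) →
    Φ.submatrix id J = 1 → top b * dd (r + m) π 1 s = h * Φ → h.det ≠ 0 →
    ∀ i k, Φ i k ∈ T

/-- the conjugate of a block triangular matrix by the cocharacter -/
def hat {n : ℕ} {D : Type} [CommRing D] (π : D) (r : ℕ) (η : Mat n D) : Mat n D :=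
  Matrix.of fun k j => if r ≤ k.val ∧ j.val < r then π * η k j else η k j

-- deps:
structure S_HAT : Prop where
  comm : ∀ {n : ℕ} {D : Type} [CommRing D] (π : D) (r : ℕ) (η : Mat n D),
    (∀ k j, ZT {r} k j → η k j = 0) → hat π r η * dd n 1 π r = dd n 1 π r * η
  det : ∀ {n : ℕ} {D : Type} [CommRing D] [IsDomain D] (π : D) (r : ℕ) (η : Mat n D), π ≠ 0 →
    (∀ k j, ZT {r} k j → η k j = 0) → (hat π r η).det = η.det
  top : ∀ {r m : ℕ} {D : Type} [CommRing D] (η b : Mat (r + m) D),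
    (∀ k j, ZT {r} k j → η k j = 0) →
      top (η * b) = η.submatrix (Fin.castAdd m) (Fin.castAdd m) * top b
  topdet : ∀ {r m : ℕ} {D : Type} [CommRing D] (η : Mat (r + m) D),
    (∀ k j, ZT {r} k j → η k j = 0) →
      (η.submatrix (Fin.castAdd m) (Fin.castAdd m)).det ∣ η.det
  pat : ∀ {n : ℕ} {D : Type} [CommRing D] (T : Set ℕ) (x y : Mat n D),
    (∀ k j, ZT T k j → x k j = 0) → (∀ k j, ZT T k j → y k j = 0) →
      ∀ k j, ZT T k j → (x * y) k j = 0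
  count : ∀ r m : ℕ,
    Nat.card {p : Fin (r + m) × Fin (r + m) // ¬ ZT {r} p.1 p.2} + r * m = (r + m) * (r + m)

-- deps: DIR1 HAT
def S_SURJ : Prop := ∀ (O C D ι : Type) [CommRing O] [CommRing C] [CommRing D] [IsDomain D]
  [Algebra O C] [Algebra C D] [Algebra O D] [IsScalarTower O C D] (π : O) (r m : ℕ) (s : ι → ℕ)
  (Φ₀ : Matrix (Fin r) (Fin (r + m)) C) (J₀ : Fin r → Fin (r + m))
  (Φ : ι → Matrix (Fin r) (Fin (r + m)) C) (J : ι → Fin r → Fin (r + m))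
  (h : ι → Matrix (Fin r) (Fin r) C) (a₀ b₀ : Mat (r + m) C) (η β a b : Mat (r + m) D)
  (𝔓 : Ideal D) (T : Subring D), 𝔓.IsPrime → Sat T 𝔓 → Function.Injective (algebraMap C D) →
    algebraMap O D π ≠ 0 → Φ₀.submatrix id J₀ = 1 →
    (∀ i, (Φ i).submatrix id (J i) = 1 ∧
      Φ₀ * dd (r + m) (algebraMap O C π) 1 (s i) = h i * Φ i ∧ (h i).det ≠ 0) →
    Algebra.adjoin O ({t | ∃ k j, t = Φ₀ k j} ∪ {t | ∃ i k j, t = Φ i k j}) = ⊤ →
    IsUnit b₀.det → top b₀ = Φ₀ → (∀ k j, ZT {r} k j → η k j = 0) →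
    a = β * a₀.map (algebraMap C D) * (hat (algebraMap O D π) r η).adjugate →
    b = η * b₀.map (algebraMap C D) → a.det * b.det ∉ 𝔓 →
    (∀ k j, ZT (Set.range s) k j → (a * dd (r + m) 1 (algebraMap O D π) r * b) k j = 0) →
    (∀ o, algebraMap O D o ∈ T) → (∀ k j, a k j ∈ T) → (∀ k j, b k j ∈ T) →
    (∀ c, algebraMap C D c ∈ T) ∧ (∀ k j, η k j ∈ T) ∧ ∀ k j, β k j ∈ T

-- deps: ISO DOWN BOR XM UNIV KER SEC HAT SURJ
def S_TRF : Prop := ∀ (O C ι : Type) [CommRing O] [IsDomain O] [IsDiscreteValuationRing O]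
  [CharZero O] [CommRing C] [IsDomain C] [IsNoetherianRing C] [Algebra O C] (π : O) (r m : ℕ)
  (s : ι → ℕ) (Φ₀ : Matrix (Fin r) (Fin (r + m)) C) (J₀ : Fin r → Fin (r + m))
  (Φ : ι → Matrix (Fin r) (Fin (r + m)) C) (J : ι → Fin r → Fin (r + m))
  (h : ι → Matrix (Fin r) (Fin r) C) (y : Fin r × Fin m → C), π ≠ 0 → Function.Injective J₀ →
    Φ₀.submatrix id J₀ = 1 →
    (∀ i, s i ≤ r + m ∧ Function.Injective (J i) ∧ (Φ i).submatrix id (J i) = 1 ∧
      Φ₀ * dd (r + m) (algebraMap O C π) 1 (s i) = h i * Φ i ∧ (h i).det ≠ 0) →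
    Algebra.adjoin O ({t | ∃ k j, t = Φ₀ k j} ∪ {t | ∃ i k j, t = Φ i k j}) = ⊤ →
    AlgebraicIndependent O y → ∀ 𝔭 : Ideal C, 𝔭.IsPrime → Good 𝔭

-- deps:
def S_CHA : Prop := ∀ (O : Type) [CommRing O] [IsDomain O] (π : O) (r m : ℕ)
  (I : Finset (Fin (r + m))) (J : Fin (r + m) → Fin r → Fin (r + m)), π ≠ 0 → I.Nonempty →
    (∀ i ∈ I, Function.Injective (J i)) →
    Algebra.FiniteType O (chart π I J) ∧ IsFractionRing (chart π I J) (FF O r m) ∧
      ∃ y : Fin r × Fin m → chart π I J, AlgebraicIndependent O y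

-- deps:
def S_CHB : Prop := ∀ (O : Type) [CommRing O] [IsDomain O] (π : O) (r m : ℕ)
  (I : Finset (Fin (r + m))) (J : Fin (r + m) → Fin r → Fin (r + m)), π ≠ 0 →
    (∀ i ∈ I, Function.Injective (J i)) →
    ∃ (Φ : I → Matrix (Fin r) (Fin (r + m)) (chart π I J))
      (g : I → Matrix (Fin r) (Fin r) (FF O r m)),
      (∀ i : I, (Φ i).submatrix id (J i) = 1 ∧ (g i).det ≠ 0 ∧
        genMat O r m * dd (r + m) (algebraMap O (FF O r m) π) 1 i.val.val =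
          g i * (Φ i).map (fun t => (t : FF O r m))) ∧
      Algebra.adjoin O {t | ∃ i k j, t = Φ i k j} = ⊤

-- deps: TRF CHA CHB
def S_CHC : Prop := ∀ (O : Type) [CommRing O] [IsDomain O] [IsDiscreteValuationRing O]
  [CharZero O] (π : O) (r m : ℕ) (I : Finset (Fin (r + m)))
  (J : Fin (r + m) → Fin r → Fin (r + m)), π ≠ 0 → I.Nonempty →
    (∀ i ∈ I, Function.Injective (J i)) →
    ∀ 𝔭 : Ideal (chart π I J), 𝔭.IsPrime → Good 𝔭

end

end Pool.Agent.P.MP_e7d440_ag.G
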