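import Pool.Agent.P.MP_e7d440_ag.G.IfaceC

/-! Step CHA. -/

set_option autoImplicit false
set_option linter.unusedSectionVars false

namespace Pool.Agent.P.MP_e7d440_ag.G

open Matrix

namespace CHAx

theorem frac_of {O K σ : Type} [CommRing O] [Field K] [Algebra O K] (y : σ → K)
    (h : ∀ γ : K, ∃ F G : MvPolynomial σ O,
      MvPolynomial.aeval y G ≠ 0 ∧ γ * MvPolynomial.aeval y G = MvPolynomial.aeval y F)
    (S : Subalgebra O K) (hy : ∀ p, y p ∈ S) : IsFractionRing S K := by
  have hm : ∀ F : MvPolynomial σ O, MvPolynomial.aeval y F ∈ S := fun F => by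
    have : Algebra.adjoin O (Set.range y) ≤ S :=
      Algebra.adjoin_le (Set.range_subset_iff.2 hy)
    apply this
    rw [Algebra.adjoin_range_eq_range_aeval]
    exact ⟨F, rfl⟩
  refine IsFractionRing.of_field S K fun γ => ?_
  obtain ⟨F, G, hG, e⟩ := h γ
  exact ⟨⟨_, hm F⟩, ⟨_, hm G⟩, eq_div_of_mul_eq hG e⟩

end CHAx

theorem p_CHA :
    S_CHA := by
  intro O _ _ π r m I J hπ hI hJ
  obtain ⟨i₀, hi₀⟩ := hI
  obtain ⟨e, he⟩ := pls.equiv (J i₀) (hJ i₀ hi₀)
  have he' : (fun a => e (Sum.inl a)) = J i₀ := funext he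
  have hy : ∀ p, xcrd π i₀ e p ∈ chart π I J := fun p =>
    Algebra.subset_adjoin ⟨i₀, hi₀, _, by rw [xcrd, he']⟩
  have hinj : Function.Injective (algebraMap O (FF O r m)) := by
    rw [IsScalarTower.algebraMap_eq O (MvPolynomial (Fin r × Fin m) O) (FF O r m)]
    exact (IsFractionRing.injective (MvPolynomial (Fin r × Fin m) O) (FF O r m)).comp
      (MvPolynomial.C_injective (Fin r × Fin m) O)
  have hπ' : algebraMap O (FF O r m) π ≠ 0 := fun h => hπ (hinj (h.trans (map_zero _).symm))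
  have hfr := pls.frac e (xcrd π i₀ e) π
    (fun _ => (Finset.univ.filter fun a => e (Sum.inl a) < i₀).card)
    (fun p => (Finset.univ.filter fun a =>
      Function.update (fun a => e (Sum.inl a)) p.1 (e (Sum.inr p.2)) a < i₀).card) hπ
    (fun p => by
      have h0 : mnr (genMat O r m) (fun a => e (Sum.inl a)) ≠ 0 :=
        pls.ne _ (he' ▸ hJ i₀ hi₀)
      rw [xcrd, crd, pls.plk_eq, pls.plk_eq]
      field_simp)
  refine ⟨?_, CHAx.frac_of _ hfr _ hy, fun p => ⟨_, hy p⟩, ?_⟩
  · refine Algebra.FiniteType.adjoin_of_finite ((Set.finite_range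
      fun q : Fin (r + m) × (Fin r → Fin (r + m)) =>
        plk π q.1 q.2 / plk π q.1 (J q.1)).subset ?_)
    rintro t ⟨i, -, c, rfl⟩
    exact ⟨(i, c), rfl⟩
  · have h1 := CHAx.frac_of _ hfr (Algebra.adjoin O (Set.range (xcrd π i₀ e)))
      fun p => Algebra.subset_adjoin ⟨p, rfl⟩
    have h2 : Algebra.IsAlgebraic (Algebra.adjoin O (Set.range (xcrd π i₀ e))) (FF O r m) :=
      IsLocalization.isAlgebraic _ (nonZeroDivisors _)
    have h3 : FaithfulSMul O (FF O r m) := (faithfulSMul_iff_algebraMap_injective _ _).2 hinj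
    have h4 := ((MvPolynomial.algebraicIndependent_X (Fin r × Fin m) O).map'
      (f := IsScalarTower.toAlgHom O (MvPolynomial (Fin r × Fin m) O) (FF O r m))
      (IsFractionRing.injective _ _)).cardinalMk_le_trdeg
    have h5 := (Algebra.IsAlgebraic.isTranscendenceBasis_of_le_trdeg_of_finite O
      (xcrd π i₀ e) h4).1
    exact AlgebraicIndependent.of_comp (chart π I J).val h5

end Pool.Agent.P.MP_e7d440_ag.G
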