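import Pool.Agent.P.MP_e7d440_ag.G.IfaceC

/-! Step EXT. -/

set_option autoImplicit false
set_option linter.unusedSectionVars false

namespace Pool.Agent.P.MP_e7d440_ag.G

open Matrix

theorem p_EXT :
    S_EXT := by
  intro C _ r m Φ J hJ h1
  obtain ⟨e, he⟩ := pls.equiv J hJ
  let b : Mat (r + m) C := fun k =>
    Fin.addCases (motive := fun _ => Fin (r + m) → C) (fun a => Φ a)
      (fun c => Pi.single (e (Sum.inr c)) 1) k
  have hl : ∀ a, b (Fin.castAdd m a) = Φ a := fun a => Fin.addCases_left a
  have hr : ∀ c, b (Fin.natAdd r c) = Pi.single (e (Sum.inr c)) 1 := fun c =>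
    Fin.addCases_right c
  refine ⟨b, ?_, ?_⟩
  · have hb : b.submatrix finSumFinEquiv e =
        fromBlocks 1 (Φ.submatrix id fun c => e (Sum.inr c)) 0 1 := by
      ext i j
      rcases i with a | c <;> rcases j with a' | c'
      · have := congrFun (congrFun h1 a) a'
        simp only [submatrix_apply, id_eq] at this
        simp only [submatrix_apply, finSumFinEquiv_apply_left, hl, he, fromBlocks_apply₁₁, this]
      · simp only [submatrix_apply, finSumFinEquiv_apply_left, hl, fromBlocks_apply₁₂, id_eq]
      · simp only [submatrix_apply, finSumFinEquiv_apply_right, hr, fromBlocks_apply₂₁,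
          Matrix.zero_apply]
        exact Pi.single_eq_of_ne (fun h => Sum.inl_ne_inr (e.injective h)) _
      · simp only [submatrix_apply, finSumFinEquiv_apply_right, hr, fromBlocks_apply₂₂]
        by_cases h : c = c'
        · rw [h, Pi.single_eq_same, one_apply_eq]
        · rw [one_apply_ne h]
          exact Pi.single_eq_of_ne (fun h' => h (Sum.inr_injective (e.injective h')).symm) _
    rw [← isUnit_iff_isUnit_det, ← isUnit_submatrix_equiv finSumFinEquiv e, hb,
      isUnit_iff_isUnit_det, det_fromBlocks_zero₂₁]
    simp
  · ext a k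
    simp only [submatrix_apply, id_eq, hl]

end Pool.Agent.P.MP_e7d440_ag.G
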