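import Pool.Agent.P.MP_e7d440_ag.G.IfaceA

/-! Step ISO. -/

set_option autoImplicit false
set_option linter.unusedSectionVars false

namespace Pool.Agent.P.MP_e7d440_ag.G

open IsLocalRing Polynomial

namespace ISOx

theorem reg {R S : Type} [CommRing R] [CommRing S] (e : R ≃+* S) (l : List R) :
    ∀ 𝔞 : Ideal S, RegSeq (𝔞.comap e) l → RegSeq 𝔞 (l.map e) := by
  induction l with
  | nil => intro _ _; trivial
  | cons r l ih =>
    intro 𝔞 h
    refine ⟨fun g hg => ?_, ih _ ?_⟩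
    · obtain ⟨g, rfl⟩ := e.surjective g
      exact h.1 g (by rw [Ideal.mem_comap, map_mul]; exact hg)
    · have : (𝔞 ⊔ Ideal.span {e r}).comap e = 𝔞.comap e ⊔ Ideal.span {r} := by
        rw [← Ideal.map_symm, ← Ideal.map_symm, Ideal.map_sup, Ideal.map_span]
        simp
      rw [this]
      exact h.2

theorem cm {R S : Type} [CommRing R] [CommRing S] [IsLocalRing R] [IsLocalRing S] (e : R ≃+* S)
    (h : CMl R) : CMl S := by
  obtain ⟨l, h1, h2, h3⟩ := h
  refine ⟨l.map e, fun t ht => ?_, reg e l ⊥ ?_, ?_⟩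
  · obtain ⟨s, hs, rfl⟩ := List.mem_map.1 ht
    have := h1 s hs
    rw [mem_maximalIdeal, mem_nonunits_iff] at this ⊢
    exact fun c => this (by simpa using c.map e.symm)
  · rw [Ideal.comap_bot_of_injective _ e.injective]
    exact h2
  · rw [List.length_map, ← ringKrullDim_eq_of_ringEquiv e]
    exact h3

theorem both {R S : Type} [CommRing R] [CommRing S] [IsLocalRing R] [IsLocalRing S] (e : R ≃+* S)
    (h : IsIntegrallyClosed R ∧ CMl R) : IsIntegrallyClosed S ∧ CMl S :=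
  ⟨haveI := h.1; IsIntegrallyClosed.of_equiv e, cm e h.2⟩

theorem loc {A : Type} [CommRing A] (B : Type) [CommRing B] [Algebra A B] [IsLocalRing B]
    (𝔮 : Ideal A) [𝔮.IsPrime] [IsLocalization.AtPrime B 𝔮] :
    Good 𝔮 ↔ IsIntegrallyClosed B ∧ CMl B :=
  have e := (IsLocalization.algEquiv 𝔮.primeCompl (Localization.AtPrime 𝔮) B).toRingEquiv
  ⟨fun h => both e h, fun h _ => both e.symm h⟩

theorem iso {A A' : Type} [CommRing A] [CommRing A'] (φ : A →+* A') (𝔓 : Ideal A')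
    (hP : 𝔓.IsPrime) (hφ : Function.Injective φ)
    (hs : ∀ y : A', ∃ s x : A, φ s ∉ 𝔓 ∧ φ s * y = φ x) : Good (𝔓.comap φ) ↔ Good 𝔓 := by
  let : Algebra A (Localization.AtPrime 𝔓) :=
    ((algebraMap A' (Localization.AtPrime 𝔓)).comp φ).toAlgebra
  have ea : ∀ x : A, algebraMap A (Localization.AtPrime 𝔓) x =
      algebraMap A' (Localization.AtPrime 𝔓) (φ x) := fun _ => rfl
  have : IsLocalization.AtPrime (Localization.AtPrime 𝔓) (𝔓.comap φ) := by
    refine (isLocalization_iff _ _).2 ⟨fun y => ?_, fun z => ?_, fun {x y} h => ?_⟩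
    · rw [ea]
      exact IsLocalization.map_units (M := 𝔓.primeCompl) _ ⟨φ y, y.2⟩
    · obtain ⟨⟨y, w⟩, h⟩ := IsLocalization.surj 𝔓.primeCompl z
      obtain ⟨s, x, h1, h2⟩ := hs y
      obtain ⟨s', x', h3, h4⟩ := hs w
      have h5 : φ x' ∉ 𝔓 := h4 ▸ fun c => (hP.mem_or_mem c).elim h3 w.2
      refine ⟨⟨s' * x, ⟨s * x', fun c => ?_⟩⟩, ?_⟩
      · rw [SetLike.mem_coe, Ideal.mem_comap, map_mul] at c
        exact (hP.mem_or_mem c).elim h1 h5
      · simp only [ea, map_mul] at h ⊢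
        rw [← h4, ← h2, map_mul, map_mul, ← h]
        ring
    · rw [ea, ea] at h
      obtain ⟨c, hc⟩ := (IsLocalization.eq_iff_exists 𝔓.primeCompl _).1 h
      obtain ⟨s, x', h3, h4⟩ := hs c
      have h5 : φ x' ∉ 𝔓 := h4 ▸ fun b => (hP.mem_or_mem b).elim h3 c.2
      refine ⟨⟨x', h5⟩, hφ ?_⟩
      simp only [map_mul]
      rw [← h4, mul_assoc, mul_assoc, hc]
  rw [loc (Localization.AtPrime 𝔓) (𝔓.comap φ)]
  exact ⟨fun h _ => h, fun h => h⟩

theorem qg {Q A' : Type} [CommRing Q] [CommRing A'] (φ : Q →+* A') (𝔓 : Ideal A')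
    (hP : 𝔓.IsPrime) (hs : ∀ y : A', ∃ s x : Q, φ s ∉ 𝔓 ∧ φ s * y = φ x) :
    GoodQ (RingHom.ker φ) (𝔓.comap φ) ↔ Good 𝔓 := by
  have e : (𝔓.comap φ).map (Ideal.Quotient.mk (RingHom.ker φ)) =
      𝔓.comap (RingHom.kerLift φ) := by
    ext x
    obtain ⟨x, rfl⟩ := Ideal.Quotient.mk_surjective x
    rw [Ideal.mem_comap, RingHom.kerLift_mk, Ideal.mem_quotient_iff_mem, Ideal.mem_comap]
    intro y hy
    rw [Ideal.mem_comap, RingHom.mem_ker.1 hy]
    exact 𝔓.zero_mem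
  rw [GoodQ, e]
  refine iso _ 𝔓 hP (RingHom.kerLift_injective φ) fun y => ?_
  obtain ⟨s, x, h1, h2⟩ := hs y
  exact ⟨Ideal.Quotient.mk _ s, Ideal.Quotient.mk _ x, by rwa [RingHom.kerLift_mk],
    by rwa [RingHom.kerLift_mk, RingHom.kerLift_mk]⟩

end ISOx

theorem p_ISO :
    S_ISO := by
  refine ⟨fun B _ _ _ 𝔮 _ _ => ISOx.loc B 𝔮, ?_, ISOx.iso, ISOx.qg, ?_⟩
  · intro A _ _
    have : IsLocalization.AtPrime A (maximalIdeal A) :=
      IsLocalization.of_le_isUnit fun x hx => by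
        by_contra c
        exact hx c
    exact ISOx.loc A (maximalIdeal A)
  · intro Q Q' _ _ φ 𝔭' 𝔮' hq hle hs
    have hk : RingHom.ker (Ideal.Quotient.mk 𝔭') ≤ 𝔮' := by rw [Ideal.mk_ker]; exact hle
    have hP : (𝔮'.map (Ideal.Quotient.mk 𝔭')).IsPrime :=
      Ideal.map_isPrime_of_surjective Ideal.Quotient.mk_surjective hk
    have h := ISOx.qg ((Ideal.Quotient.mk 𝔭').comp φ) _ hP fun y => by
      obtain ⟨y, rfl⟩ := Ideal.Quotient.mk_surjective y
      obtain ⟨s, x, h1, h2⟩ := hs y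
      refine ⟨s, x, ?_, ?_⟩
      · rw [RingHom.comp_apply, Ideal.mem_quotient_iff_mem hle]
        exact h1
      · rw [RingHom.comp_apply, RingHom.comp_apply, ← map_mul, Ideal.Quotient.eq]
        exact h2
    have e1 : RingHom.ker ((Ideal.Quotient.mk 𝔭').comp φ) = 𝔭'.comap φ := by
      rw [← RingHom.comap_ker, Ideal.mk_ker]
    have e2 : (𝔮'.map (Ideal.Quotient.mk 𝔭')).comap ((Ideal.Quotient.mk 𝔭').comp φ) =
        𝔮'.comap φ := by
      ext x
      rw [Ideal.mem_comap, RingHom.comp_apply, Ideal.mem_quotient_iff_mem hle, Ideal.mem_comap]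
    rw [e1, e2] at h
    exact h

end Pool.Agent.P.MP_e7d440_ag.G
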