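import Pool.Agent.P.MP_e7d440_ag.G.IfaceB

/-! Step MINR. -/

set_option autoImplicit false
set_option linter.unusedSectionVars false

namespace Pool.Agent.P.MP_e7d440_ag.G

open Matrix

namespace MINRx

variable {n : ℕ} (i j : Fin n) (w : Equiv.Perm (Fin n))

abbrev RR : Type := {k : Fin n // k < i ∧ w j ≤ w k}

def ro (a : Fin n) : Option (RR i j w) → Fin n := fun o => o.elim a Subtype.val

def co : Option (RR i j w) → Fin n := fun o => w (ro i j w j o)

noncomputable def mn (a : Fin n) : MvPolynomial (Fin n × Fin n) ℤ :=
  (Matrix.of fun p q => (MvPolynomial.X (ro i j w a p, co i j w q) :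
    MvPolynomial (Fin n × Fin n) ℤ)).det

theorem aeval_mn {K : Type} [Field K] (a : Fin n) (x : Mat n K) :
    MvPolynomial.aeval (ent x) (mn i j w a) = (x.submatrix (ro i j w a) (co i j w)).det := by
  rw [mn, AlgHom.map_det]
  congr 1
  ext p q
  simp

theorem ro_inj (hij : i < j) : Function.Injective (ro i j w j) := by
  rintro (_ | a) (_ | b) h
  · rfl
  · exact absurd (show j = b.1 from h) (ne_of_gt (b.2.1.trans hij))
  · exact absurd (show a.1 = j from h) (ne_of_lt (a.2.1.trans hij))
  · exact congrArg some (Subtype.ext h)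

theorem one_eq {K : Type} [Field K] (hij : i < j) :
    (w.permMatrix K : Mat n K).submatrix (ro i j w j) (co i j w) = 1 := by
  ext p q
  simp only [submatrix_apply, co, PEquiv.toMatrix_apply, Equiv.toPEquiv_apply, Option.mem_def,
    Option.some.injEq, EmbeddingLike.apply_eq_iff_eq, (ro_inj i j w hij).eq_iff, one_apply]

theorem ro_le (p : Option (RR i j w)) : ro i j w i p ≤ i := by
  rcases p with _ | a
  · exact le_rfl
  · exact a.2.1.le

theorem le_co (p : Option (RR i j w)) : w j ≤ co i j w p := by
  rcases p with _ | a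
  · exact le_rfl
  · exact a.2.2

theorem det_zero {K : Type} [Field K] (hw : w i < w j) {y : Mat n K} (hy : y ∈ Cell K w) :
    (y.submatrix (ro i j w i) (co i j w)).det = 0 := by
  obtain ⟨b, b', hb, hb', rfl⟩ := hy
  have e : (b * w.permMatrix K * b').submatrix (ro i j w i) (co i j w) =
      b.submatrix (ro i j w i) (Subtype.val : RR i j w → Fin n) *
        b'.submatrix (fun k : RR i j w => w k.1) (co i j w) := by
    ext p q
    rw [Matrix.mul_assoc, PEquiv.toMatrix_toPEquiv_mul, submatrix_apply, mul_apply, mul_apply]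
    simp only [submatrix_apply, id]
    rw [← Finset.sum_subtype (Finset.univ.filter fun k : Fin n => k < i ∧ w j ≤ w k) (by simp)
      (fun l => b (ro i j w i p) l * b' (w l) (co i j w q))]
    symm
    refine Finset.sum_subset (Finset.filter_subset _ _) fun l _ hl => ?_
    by_contra hc
    have h1 : l ≤ ro i j w i p := not_lt.1 fun h => left_ne_zero_of_mul hc (hb.2 _ _ h)
    have h2 : co i j w q ≤ w l := not_lt.1 fun h => right_ne_zero_of_mul hc (hb'.2 _ _ h)
    have h3 := (le_co i j w q).trans h2
    refine hl (Finset.mem_filter.2 ⟨Finset.mem_univ _, ?_, h3⟩)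
    refine lt_of_le_of_ne (h1.trans (ro_le i j w p)) ?_
    rintro rfl
    exact absurd hw (not_lt.2 h3)
  by_contra h
  have h1 := Matrix.rank_of_isUnit _ ((Matrix.isUnit_iff_isUnit_det _).2 (Ne.isUnit h))
  rw [e] at h1
  have h2 := Matrix.rank_mul_le_left (b.submatrix (ro i j w i) (Subtype.val : RR i j w → Fin n))
    (b'.submatrix (fun k : RR i j w => w k.1) (co i j w))
  have h3 := Matrix.rank_le_card_width (b.submatrix (ro i j w i) (Subtype.val : RR i j w → Fin n))
  rw [Fintype.card_option] at h1
  exact absurd (h1.symm.le.trans (h2.trans h3)) (Nat.not_succ_le_self _)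

end MINRx

theorem p_MINR (hBOR : S_BOR) :
    S_MINR := by
  intro n K _ i j w hij hw
  have hlt : i < j := by rw [Fin.lt_def]; omega
  refine ⟨MINRx.mn i j w j, MINRx.mn i j w i, ⟨_, hBOR.perm w, ?_⟩, fun y hy t => ?_⟩
  · rw [MINRx.aeval_mn, MINRx.one_eq i j w hlt, det_one]; exact one_ne_zero
  · rw [MINRx.aeval_mn, MINRx.aeval_mn]
    have h0 := MINRx.det_zero i j w hw hy
    have e0 : act true (transvection i j t) y = transvection i j t * y := rfl
    set M := y.submatrix (MINRx.ro i j w i) (MINRx.co i j w) with hM
    have e1 : (transvection i j t * y).submatrix (MINRx.ro i j w j) (MINRx.co i j w) =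
        M.updateRow none fun c => y j (MINRx.co i j w c) := by
      ext (_ | a) q
      · rw [updateRow_self, submatrix_apply]
        exact transvection_mul_apply_of_ne _ _ _ _ hlt.ne' _ _
      · rw [updateRow_ne (Option.some_ne_none a), submatrix_apply]
        exact transvection_mul_apply_of_ne _ _ _ _ a.2.1.ne _ _
    have e2 : (transvection i j t * y).submatrix (MINRx.ro i j w i) (MINRx.co i j w) =
        M.updateRow none (M none + t • fun c => y j (MINRx.co i j w c)) := by
      ext (_ | a) q
      · rw [updateRow_self, submatrix_apply]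
        exact transvection_mul_apply_same _ _ _ _ _
      · rw [updateRow_ne (Option.some_ne_none a), submatrix_apply]
        exact transvection_mul_apply_of_ne _ _ _ _ a.2.1.ne _ _
    rw [e0, e1, e2, det_updateRow_add, det_updateRow_smul, updateRow_eq_self, h0, zero_add,
      mul_comm]

end Pool.Agent.P.MP_e7d440_ag.G
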