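import Pool.Agent.P.MP_e7d440_ag.G.IfaceA

/-! Step PQ. -/

set_option autoImplicit false
set_option linter.unusedSectionVars false

namespace Pool.Agent.P.MP_e7d440_ag.G

open IsLocalRing Polynomial

namespace PQx

theorem pdiv {Q : Type} [CommRing Q] (c d : Q) (g : Q[X]) :
    ∃ (N : ℕ) (r : Q), C c ^ N * g - C r ∈ Ideal.span {C c * X - C d} := by
  induction g using Polynomial.induction_on with
  | C a => exact ⟨0, a, by simp⟩
  | add p q hp hq =>
    obtain ⟨N, r, h⟩ := hp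
    obtain ⟨N', r', h'⟩ := hq
    refine ⟨N + N', c ^ N' * r + c ^ N * r', ?_⟩
    have := Ideal.add_mem _ (Ideal.mul_mem_left _ (C c ^ N') h) (Ideal.mul_mem_left _ (C c ^ N) h')
    convert this using 1
    simp only [map_add, map_mul, map_pow]; ring
  | monomial n a hp =>
    obtain ⟨N, r, h⟩ := hp
    refine ⟨N + 1, r * d, ?_⟩
    have := Ideal.add_mem _ (Ideal.mul_mem_left _ (C c * X) h)
      (Ideal.mul_mem_left _ (C r) (Ideal.mem_span_singleton_self (C c * X - C d)))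
    convert this using 1
    simp only [map_mul]; ring

theorem core (hISO : S_ISO) (hMONIC : S_MONIC) (hPL : S_PL) {Q A K : Type} [CommRing Q]
    [CommRing A] [IsDomain A] [IsLocalRing A] [IsNoetherianRing A] [Field K] [Algebra A K]
    [IsFractionRing A K] (ι : Q →+* A) (𝔎 η : Ideal Q[X]) (c d : Q) (hK : 𝔎.IsPrime)
    (hη : η.IsPrime) (hle : 𝔎 ≤ η) (hc : C c ∉ 𝔎) (hcd : C c * X - C d ∈ 𝔎)
    (hne : η ≠ (η.comap (C : Q →+* Q[X])).map (C : Q →+* Q[X]))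
    (hker : ∀ r, ι r = 0 ↔ C r ∈ 𝔎) (hmax : ∀ r, ι r ∈ maximalIdeal A ↔ C r ∈ η)
    (hsur : ∀ a : A, ∃ s x, C s ∉ η ∧ ι s * a = ι x) (hN : IsIntegrallyClosed A) (hC : CMl A)
    (H : ∀ 𝔓 : Ideal Q[X], 𝔓.IsPrime → 𝔎 ≤ 𝔓 → 𝔓 < η → GoodQ 𝔎 𝔓) : GoodQ 𝔎 η := by
  have hAK := IsFractionRing.injective A K
  have hc0 : algebraMap A K (ι c) ≠ 0 := fun h => hc ((hker c).mp (hAK (h.trans (map_zero _).symm)))
  let τ : K := algebraMap A K (ι d) / algebraMap A K (ι c)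
  let τ' : RR A τ := ⟨τ, Algebra.self_mem_adjoin_singleton A τ⟩
  let ρ : A[X] →ₐ[A] RR A τ := aeval τ'
  have hρ : ∀ g, (ρ g : K) = aeval τ g := fun g =>
    (aeval_algHom_apply (RR A τ).val τ' g).symm
  have hρs : Function.Surjective ρ := fun y => by
    obtain ⟨g, hg⟩ := memRR.mp y.2
    exact ⟨g, Subtype.ext ((hρ g).trans hg)⟩
  let φ : Q[X] →+* RR A τ := ρ.toRingHom.comp (mapRingHom ι)
  have hφ : ∀ g, φ g = ρ (g.map ι) := fun _ => rfl
  have hφC : ∀ r, φ (C r) = algebraMap A _ (ι r) := fun r => by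
    rw [hφ, map_C, ← algebraMap_eq, AlgHom.commutes]
  have hf : φ (C c * X - C d) = 0 := by
    apply Subtype.ext
    rw [hφ, hρ]
    simp only [Polynomial.map_sub, Polynomial.map_mul, map_C, map_X, map_sub, map_mul, aeval_C,
      aeval_X, τ, ZeroMemClass.coe_zero]
    rw [mul_div_cancel₀ _ hc0, sub_self]
  have hAR : Function.Injective (algebraMap A (RR A τ)) := fun a b h => hAK (congrArg Subtype.val h)
  have hk : RingHom.ker φ = 𝔎 := by
    ext g
    obtain ⟨N, r, h⟩ := pdiv c d g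
    have h1 : φ (C c) ^ N * φ g = φ (C r) := by
      have : Ideal.span {C c * X - C d} ≤ RingHom.ker φ :=
        (Ideal.span_singleton_le_iff_mem _).mpr hf
      have := this h
      rwa [RingHom.mem_ker, map_sub, map_mul, map_pow, sub_eq_zero] at this
    have h2 : C c ^ N * g - C r ∈ 𝔎 := (Ideal.span_singleton_le_iff_mem _).mpr hcd h
    rw [RingHom.mem_ker]
    constructor
    · intro hg
      rw [hg, mul_zero, hφC] at h1
      have h3 : C r ∈ 𝔎 := (hker r).mp (hAR (h1.symm.trans (map_zero _).symm))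
      have h4 : C c ^ N * g ∈ 𝔎 := by simpa using 𝔎.add_mem h2 h3
      exact (hK.mem_or_mem h4).resolve_left fun h5 => hc (hK.mem_of_pow_mem _ h5)
    · intro hg
      have h3 : C r ∈ 𝔎 := by simpa using 𝔎.sub_mem (𝔎.mul_mem_left (C c ^ N) hg) h2
      rw [hφC r, (hker r).mpr h3, map_zero, hφC] at h1
      refine (mul_eq_zero.mp h1).resolve_left (pow_ne_zero _ fun h5 => hc ((hker c).mp ?_))
      exact hAR (h5.trans (map_zero _).symm)
  have hun : ∀ s, C s ∉ η → IsUnit (φ (C s)) := fun s hs => by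
    rw [hφC]
    exact (notMem_maximalIdeal.mp fun h => hs ((hmax s).mp h)).map _
  have hs : ∀ y : RR A τ, ∃ s x, C s ∉ η ∧ φ (C s) * y = φ x := by
    intro y
    obtain ⟨g, rfl⟩ := hρs y
    induction g using Polynomial.induction_on with
    | C a =>
      obtain ⟨s, x, h1, h2⟩ := hsur a
      refine ⟨s, C x, h1, ?_⟩
      rw [hφC, hφC, ← h2, map_mul, ← algebraMap_eq, AlgHom.commutes]
    | add p q hp hq =>
      obtain ⟨s, x, h1, h2⟩ := hp
      obtain ⟨s', x', h1', h2'⟩ := hq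
      refine ⟨s * s', x * C s' + x' * C s, ?_, ?_⟩
      · rw [map_mul]
        exact fun h => (hη.mem_or_mem h).elim h1 h1'
      · rw [map_add φ, map_mul φ, map_mul φ, ← h2, ← h2', map_mul C, map_mul φ, map_add]; ring
    | monomial n a hp =>
      obtain ⟨s, x, h1, h2⟩ := hp
      refine ⟨s, x * X, h1, ?_⟩
      rw [map_mul φ, ← h2, hφ X, map_X, pow_succ, ← mul_assoc, map_mul ρ _ X, mul_assoc]
  let ηR : Ideal (RR A τ) :=
    { carrier := {y | ∃ s x, C s ∉ η ∧ x ∈ η ∧ φ (C s) * y = φ x}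
      zero_mem' := ⟨1, 0, by simpa using (Ideal.ne_top_iff_one _).mp hη.ne_top, η.zero_mem, by simp⟩
      add_mem' := by
        rintro y y' ⟨s, x, h1, h3, h2⟩ ⟨s', x', h1', h3', h2'⟩
        refine ⟨s * s', x * C s' + x' * C s, ?_,
          η.add_mem (η.mul_mem_right _ h3) (η.mul_mem_right _ h3'), ?_⟩
        · rw [map_mul]
          exact fun h => (hη.mem_or_mem h).elim h1 h1'
        · rw [map_add φ, map_mul φ, map_mul φ, ← h2, ← h2', map_mul C, map_mul φ]; ring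
      smul_mem' := by
        rintro z y ⟨s, x, h1, h3, h2⟩
        obtain ⟨s', x', h1', h2'⟩ := hs z
        refine ⟨s * s', x * x', ?_, η.mul_mem_right _ h3, ?_⟩
        · rw [map_mul]
          exact fun h => (hη.mem_or_mem h).elim h1 h1'
        · rw [map_mul φ x, ← h2, ← h2', map_mul C, map_mul φ, smul_eq_mul]; ring }
  have hmem : ∀ s x y, C s ∉ η → φ (C s) * y = φ x → (y ∈ ηR ↔ x ∈ η) := by
    intro s x y h1 h2
    refine ⟨?_, fun h => ⟨s, x, h1, h, h2⟩⟩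
    rintro ⟨s', x', h1', h3', h2'⟩
    have h4 : C s' * x - C s * x' ∈ 𝔎 := by
      rw [← hk, RingHom.mem_ker, map_sub, map_mul, map_mul, ← h2, ← h2']; ring
    have h5 : C s' * x ∈ η := by simpa using η.add_mem (hle h4) (η.mul_mem_left (C s) h3')
    exact (hη.mem_or_mem h5).resolve_left h1'
  have h1η : C (1 : Q) ∉ η := by simpa using (Ideal.ne_top_iff_one _).mp hη.ne_top
  have hcom : ηR.comap φ = η := by
    ext x
    exact hmem 1 x (φ x) h1η (by simp)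
  have hpr : ηR.IsPrime := by
    refine ⟨fun h => hη.ne_top (by rw [← hcom, h, Ideal.comap_top]), fun {y y'} h => ?_⟩
    obtain ⟨s, x, h1, h2⟩ := hs y
    obtain ⟨s', x', h1', h2'⟩ := hs y'
    rw [hmem s x y h1 h2, hmem s' x' y' h1' h2']
    refine hη.mem_or_mem ((hmem (s * s') (x * x') (y * y') ?_ ?_).mp h)
    · rw [map_mul]
      exact fun h => (hη.mem_or_mem h).elim h1 h1'
    · rw [map_mul φ x, ← h2, ← h2', map_mul C, map_mul φ]; ring
  have hqg : ∀ P : Ideal (RR A τ), P.IsPrime → (GoodQ 𝔎 (P.comap φ) ↔ Good P) := by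
    intro P hP
    rw [← hk]
    refine hISO.qg φ P hP fun y => ?_
    obtain ⟨s, x, h1, h2⟩ := hs y
    exact ⟨C s, x, fun h => hP.ne_top (Ideal.eq_top_of_isUnit_mem _ h (hun s h1)), h2⟩
  have hext : ext τ (maximalIdeal A) ≤ ηR := by
    rw [Ideal.map_le_iff_le_comap]
    intro a ha
    obtain ⟨s, x, h1, h2⟩ := hsur a
    refine ⟨s, C x, h1, (hmax x).mp (h2 ▸ Ideal.mul_mem_left _ _ ha), ?_⟩
    rw [hφC, hφC, ← h2, map_mul]
  obtain ⟨g, hg, hg'⟩ : ∃ g ∈ η, g ∉ (η.comap (C : Q →+* Q[X])).map (C : Q →+* Q[X]) := by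
    by_contra! h
    exact hne (le_antisymm h Ideal.map_comap_le)
  obtain ⟨h, u, hm, hu⟩ := hMONIC A (g.map ι) fun h => hg' (by
    rw [Ideal.mem_map_C_iff] at h ⊢
    intro n
    have := h n
    rw [coeff_map] at this
    exact (hmax _).mp this)
  have hh : ρ h ∈ ηR := by
    have h1 : ρ (h - C u * g.map ι) ∈ ext τ (maximalIdeal A) := by
      have : (maximalIdeal A).map (C : A →+* A[X]) ≤
          (ext τ (maximalIdeal A)).comap ρ.toRingHom := by
        rw [Ideal.map_le_iff_le_comap]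
        intro a ha
        rw [Ideal.mem_comap, Ideal.mem_comap, ← algebraMap_eq]
        change ρ _ ∈ _
        rw [AlgHom.commutes]
        exact Ideal.mem_map_of_mem _ ha
      exact this hu
    have h2 : φ g ∈ ηR := by rw [← Ideal.mem_comap, hcom]; exact hg
    have := ηR.add_mem (hext h1) (ηR.mul_mem_left (ρ (C u)) h2)
    rwa [hφ, map_sub, map_mul, sub_add_cancel] at this
  rw [← hcom, hqg ηR hpr]
  refine hPL A K τ h ηR hN hC hpr hext hm ⟨ρ h, hh, hρ h⟩ fun P hP hlt => ?_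
  rw [← hqg P hP]
  refine H _ (Ideal.comap_isPrime φ P) (hk ▸ Ideal.ker_le_comap φ)
    (lt_of_le_of_ne (hcom ▸ Ideal.comap_mono hlt.le) fun he => hlt.not_ge ?_)
  rintro y ⟨s, x, h1, h3, h2⟩
  rw [← he, Ideal.mem_comap, ← h2] at h3
  exact (hP.mem_or_mem h3).resolve_left fun h5 =>
    hP.ne_top (Ideal.eq_top_of_isUnit_mem _ h5 (hun s h1))

theorem core' (hISO : S_ISO) (hMONIC : S_MONIC) (hPL : S_PL) {Q A : Type} [CommRing Q]
    [CommRing A] [IsDomain A] [IsLocalRing A] [IsNoetherianRing A]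
    (ι : Q →+* A) (𝔎 η : Ideal Q[X]) (c d : Q) (hK : 𝔎.IsPrime)
    (hη : η.IsPrime) (hle : 𝔎 ≤ η) (hc : C c ∉ 𝔎) (hcd : C c * X - C d ∈ 𝔎)
    (hne : η ≠ (η.comap (C : Q →+* Q[X])).map (C : Q →+* Q[X]))
    (hker : ∀ r, ι r = 0 ↔ C r ∈ 𝔎) (hmax : ∀ r, ι r ∈ maximalIdeal A ↔ C r ∈ η)
    (hsur : ∀ a : A, ∃ s x, C s ∉ η ∧ ι s * a = ι x) (hN : IsIntegrallyClosed A) (hC : CMl A)
    (H : ∀ 𝔓 : Ideal Q[X], 𝔓.IsPrime → 𝔎 ≤ 𝔓 → 𝔓 < η → GoodQ 𝔎 𝔓) : GoodQ 𝔎 η :=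
  @core hISO hMONIC hPL Q A (FractionRing A) _ _ _ _ _ _ _ _ ι 𝔎 η c d hK hη hle hc hcd hne hker
    hmax hsur hN hC H

end PQx

theorem p_PQ (hISO : S_ISO) (hMONIC : S_MONIC) (hPL : S_PL) :
    S_PQ := by
  intro Q _ _ 𝔎 η c d hK hη hle hc hcd hne hg H
  set 𝔭 := 𝔎.comap (C : Q →+* Q[X]) with h𝔭
  set 𝔮 := η.comap (C : Q →+* Q[X]) with h𝔮
  have hpq : 𝔭 ≤ 𝔮 := Ideal.comap_mono hle
  have hq : (𝔮.map (Ideal.Quotient.mk 𝔭)).IsPrime :=
    Ideal.map_isPrime_of_surjective Ideal.Quotient.mk_surjective (by rwa [Ideal.mk_ker])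
  have hcm : ∀ r, Ideal.Quotient.mk 𝔭 r ∈ 𝔮.map (Ideal.Quotient.mk 𝔭) ↔ C r ∈ η := fun r => by
    rw [← Ideal.mem_comap, Ideal.comap_map_of_surjective _ Ideal.Quotient.mk_surjective,
      ← RingHom.ker_eq_comap_bot, Ideal.mk_ker, sup_eq_left.mpr hpq]
    rfl
  let A := Localization.AtPrime (𝔮.map (Ideal.Quotient.mk 𝔭))
  have hinj : Function.Injective (algebraMap (Q ⧸ 𝔭) A) :=
    IsLocalization.injective A (𝔮.map (Ideal.Quotient.mk 𝔭)).primeCompl_le_nonZeroDivisors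
  refine @PQx.core' hISO hMONIC hPL Q A _ _ _ _ _
    ((algebraMap (Q ⧸ 𝔭) A).comp (Ideal.Quotient.mk 𝔭)) 𝔎 η c d hK hη hle hc hcd hne
    (fun r => ?_) (fun r => ?_) (fun a => ?_) hg.1 hg.2 H
  · rw [RingHom.comp_apply, map_eq_zero_iff _ hinj, Ideal.Quotient.eq_zero_iff_mem]
    rfl
  · rw [RingHom.comp_apply, IsLocalization.AtPrime.to_map_mem_maximal_iff A
      (𝔮.map (Ideal.Quotient.mk 𝔭)), hcm]
  · obtain ⟨⟨x, s⟩, h⟩ := IsLocalization.surj (𝔮.map (Ideal.Quotient.mk 𝔭)).primeCompl a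
    obtain ⟨x', rfl⟩ := Ideal.Quotient.mk_surjective x
    obtain ⟨s', hs'⟩ := Ideal.Quotient.mk_surjective s.1
    refine ⟨s', x', fun h1 => s.2 (hs' ▸ (hcm s').mpr h1), ?_⟩
    rw [RingHom.comp_apply, RingHom.comp_apply, hs', mul_comm]
    exact h

end Pool.Agent.P.MP_e7d440_ag.G
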