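import Pool.Agent.P.MP_e7d440_ag.G.IfaceA

/-! Step UDQ. -/

set_option autoImplicit false
set_option linter.unusedSectionVars false

namespace Pool.Agent.P.MP_e7d440_ag.G

open IsLocalRing Polynomial

namespace UDQx

variable {Q : Type} [CommRing Q]

theorem surj (𝔭 : Ideal Q) : Function.Surjective (mapRingHom (Ideal.Quotient.mk 𝔭)) :=
  Polynomial.map_surjective _ Ideal.Quotient.mk_surjective

theorem ker (𝔭 : Ideal Q) :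
    RingHom.ker (mapRingHom (Ideal.Quotient.mk 𝔭)) = 𝔭.map (C : Q →+* Q[X]) := by
  rw [Polynomial.ker_mapRingHom, Ideal.mk_ker]

theorem cm (𝔭 : Ideal Q) {𝔓 : Ideal Q[X]} (h : 𝔭.map (C : Q →+* Q[X]) ≤ 𝔓) :
    (𝔓.map (mapRingHom (Ideal.Quotient.mk 𝔭))).comap (mapRingHom (Ideal.Quotient.mk 𝔭)) = 𝔓 := by
  rw [Ideal.comap_map_of_surjective _ (surj 𝔭), ← RingHom.ker_eq_comap_bot, ker, sup_eq_left.2 h]

theorem qg (hISO : S_ISO) (𝔭 : Ideal Q) {𝔓 : Ideal Q[X]} (hP : 𝔓.IsPrime)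
    (h : 𝔭.map (C : Q →+* Q[X]) ≤ 𝔓) :
    (𝔓.map (mapRingHom (Ideal.Quotient.mk 𝔭))).IsPrime ∧
      (GoodQ (𝔭.map (C : Q →+* Q[X])) 𝔓 ↔ Good (𝔓.map (mapRingHom (Ideal.Quotient.mk 𝔭)))) := by
  have hp := Ideal.map_isPrime_of_surjective (surj 𝔭) (I := 𝔓) (by rwa [ker])
  refine ⟨hp, ?_⟩
  have := hISO.qg (mapRingHom (Ideal.Quotient.mk 𝔭)) _ hp fun y => by
    obtain ⟨x, rfl⟩ := surj 𝔭 y
    exact ⟨1, x, by rw [map_one]; exact (Ideal.ne_top_iff_one _).1 hp.ne_top, by simp⟩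
  rwa [ker, cm 𝔭 h] at this

end UDQx

theorem p_UDQ (hISO : S_ISO) (hUP : S_UP) (hDOWN : S_DOWN) :
    S_UDQ := by
  refine ⟨fun {Q} _ _ 𝔭 𝔓 hp hP h hg => ?_, fun {Q} _ _ 𝔭 𝔮 hp hq h hg => ?_⟩
  · obtain ⟨h1, h2⟩ := UDQx.qg hISO 𝔭 hP h
    refine h2.2 (hUP _ _ h1 ?_)
    have : (𝔓.map (mapRingHom (Ideal.Quotient.mk 𝔭))).comap (C : Q ⧸ 𝔭 →+* (Q ⧸ 𝔭)[X]) =
        (𝔓.comap (C : Q →+* Q[X])).map (Ideal.Quotient.mk 𝔭) := by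
      rw [← Ideal.map_comap_of_surjective (Ideal.Quotient.mk 𝔭) Ideal.Quotient.mk_surjective
        (Ideal.comap C _), Ideal.comap_comap, ← mapRingHom_comp_C, ← Ideal.comap_comap,
        UDQx.cm 𝔭 h]
    rw [this]
    exact @hg
  · obtain ⟨h1, h2⟩ := UDQx.qg hISO 𝔭 (Ideal.isPrime_map_C_of_isPrime (P := 𝔮))
      (Ideal.map_mono h)
    have e : (𝔮.map (C : Q →+* Q[X])).map (mapRingHom (Ideal.Quotient.mk 𝔭)) =
        (𝔮.map (Ideal.Quotient.mk 𝔭)).map (algebraMap (Q ⧸ 𝔭) (Q ⧸ 𝔭)[X]) := by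
      rw [Ideal.map_map, Ideal.map_map, mapRingHom_comp_C, Polynomial.algebraMap_eq]
    rw [e] at h1 h2
    refine @hDOWN _ (Q ⧸ 𝔭)[X] _ _ _ _ _ _ _ _ (Ideal.map_isPrime_of_surjective
      Ideal.Quotient.mk_surjective (by rwa [Ideal.mk_ker])) h1 ?_ (h2.1 hg)
    refine le_antisymm (fun a ha => ?_) Ideal.le_comap_map
    rw [Polynomial.algebraMap_eq, Ideal.mem_comap, Ideal.mem_map_C_iff] at ha
    simpa using ha 0

end Pool.Agent.P.MP_e7d440_ag.G
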